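import Pool.Agent.H62.OW.Rlc
import Pool.Agent.H73.OW.Two
import Pool.Agent.H73.OW.Fou2

/-!
# [H62 OW F2E] the change of the phase in own letters (MP_b39724_nt, THEOREM OW, S4)

`X` the data on `S`, `Y` the data with own letters on `St`, `ev : St →* S`, `EV : SP St Pt →* SP S P`. `K ≤ gam_(d+1)(St)`, `psi` additive on `K`, `0` on `K ∩ gam_(d+3)`,
`psi ⁅u, v⁆ = - Bf (ev u) (ev v)` for `u ∈ K` or `v ∈ K`.
* `Lf`: `Y` lies over `X`.
* `Psi`: the properties of `psi`.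
* `f2e`: for `z` in `X.Zg d`, `m v ∈ K` over `z v` (places which are not `ppl`), `e j ∈ K` over `⁅z, y j⁆` (letters `pp`):
  `X.F2 Bf τ z ζ = Y.Fp η (classes of the change of the evaluation)`, where `(η j).2 = xi_j (ev u) + psi (Dj u)` on `K` at the letters which are not `pp`.
-/

set_option autoImplicit false

open scoped commutatorElement
open scoped Classical

noncomputable section

namespace H62.OW

open H1.S3 H73.OW

open H73.S3 hiding il_inj il_mul il_inv il_one ph_of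

open H71.S3 (cjl cjl_il cjl_mem cjl_gk il_mul il_inv il_one il_inj il_of il_right il_left sp_right sp_right_inv th_rt th_of
  cj_right cj_cj cj_one cj_id vl_rt)

open H24.OW

variable {S P St Pt : Type} [Group S] [Group P] [MulDistribMulAction P S] [Group St] [Group Pt]
  [MulDistribMulAction Pt St] {J V : Type}

/-- `Y` lies over `X` -/
structure Lf (X : AD S P J V) (Y : AD St Pt J V) (EV : SP St Pt →* SP S P) (ev : St →* S) :
    Prop where
  il : ∀ u, EV (il u) = il (ev u)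
  pj : Y.pj = X.pj
  bl : Y.bl = X.bl
  l : Y.l = X.l
  W : Y.W = X.W
  Jf : Y.Jf = X.Jf
  pp : ∀ j, Y.pp j ↔ X.pp j
  t : ∀ j, EV (Y.t j) = X.t j

/-- the properties of `psi` -/
structure Psi {q d : ℕ} (K : Subgroup St) (ev : St →* S) (psi : St → ZMod q)
    (Bf : ∀ i j : ℕ, Gr S i →+ Gr S j →+ ZMod q) (Pt : Type) [Group Pt]
    [MulDistribMulAction Pt St] : Prop where
  st : ∀ (g : SP St Pt), ∀ u ∈ K, cjl g u ∈ K
  le : K ≤ gm St (d + 1)
  add : ∀ u ∈ K, ∀ v ∈ K, psi (u * v) = psi u + psi v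
  ze : ∀ u ∈ K, u ∈ gm St (d + 3) → psi u = 0
  b1 : ∀ u ∈ K, ∀ v, psi ⁅u, v⁆ = -Bf (d + 1) 1 (gk (d + 1) (ev u)) (gk 1 (ev v))
  b2 : ∀ v, ∀ u ∈ K, psi ⁅v, u⁆ = -Bf 1 (d + 1) (gk 1 (ev v)) (gk (d + 1) (ev u))

section lift

variable {X : AD S P J V} {Y : AD St Pt J V} {EV : SP St Pt →* SP S P} {ev : St →* S}

theorem Lf.cj (h : Lf X Y EV ev) (u : St) (x : SP St Pt) : EV (cj u x) = cj (ev u) (EV x) := by
  unfold H73.S3.cj
  rw [map_mul, map_mul, map_inv, h.il]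

theorem Lf.th (h : Lf X Y EV ev) (τ : V → St) (w : FreeGroup J) :
    EV (Y.th τ w) = X.th (fun v => ev (τ v)) w := by
  have h1 : EV.comp (Y.th τ) = X.th fun v => ev (τ v) := by
    refine FreeGroup.ext_hom _ _ fun j => ?_
    rw [MonoidHom.comp_apply, th_of, th_of, h.cj, h.t, h.pj]
  exact DFunLike.congr_fun h1 w

theorem Lf.vl (h : Lf X Y EV ev) (τ : V → St) (j : J) :
    EV (Y.vl τ j) = X.vl (fun v => ev (τ v)) j := by
  unfold AD.vl
  rw [h.cj, h.th, h.pj, h.W, map_inv]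

theorem Lf.bk (h : Lf X Y EV ev) (τ : V → St) (v : V) :
    EV (Y.bk (Y.vl τ) v) = X.bk (X.vl fun v => ev (τ v)) v := by
  unfold AD.bk
  rw [H71.S3.map_wd, h.bl]
  refine H71.S3.wd_congr fun i _ => ⟨h.t i, h.vl τ i⟩

end lift

theorem wd_rt {I : Type} (a x : I → SP S P) (l : List I) :
    (wd a x l).right = wd (fun i => (a i).right) (fun i => (x i).right) l :=
  H71.S3.map_wd (SemidirectProduct.rightHom : SP S P →* P) a x l

theorem bk_rt (X : AD S P J V) (τ : V → S) (v : V) :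
    (X.bk (X.vl τ) v).right = X.ph (wd FreeGroup.of X.W (X.bl v)) := by
  unfold AD.bk
  rw [wd_rt, H71.S3.map_wd]
  refine H71.S3.wd_congr fun i _ => ⟨(H71.S3.ph_of X i).symm, vl_rt X τ i⟩

theorem prod_rt {I : Type} (b : I → SP S P) (l : List I) (h : ∀ i ∈ l, (b i).right = 1) :
    ((l.map b).prod).right = 1 := by
  induction l with
  | nil => rfl
  | cons i l ih =>
    rw [List.map_cons, List.prod_cons, sp_right, h i List.mem_cons_self,
      ih fun j hj => h j (List.mem_cons_of_mem _ hj), one_mul]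

theorem gm_hm (f : St →* S) {n : ℕ} {u : St} (hu : u ∈ gm St n) : f u ∈ gm S n := by
  have h1 : f u ∈ (gm St n).map f := Subgroup.mem_map_of_mem f hu
  unfold gm at h1 ⊢
  rw [Subgroup.map_lowerCentralSeries] at h1
  exact Subgroup.lowerCentralSeries_mono _ le_top h1

variable {p k Mw q d : ℕ}

theorem pf_rt {X : AD S P J V} (hX : X.Okw p k Mw q) (τ : V → S) (v : V) :
    (pf X τ (X.vl τ) v).right = 1 := by
  unfold pf
  refine prod_rt _ _ fun w hw => ?_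
  rw [cj_right, bk_rt]
  refine hX.hb w ?_
  unfold pre at hw
  exact (List.takeWhile_subset _) hw

/-- the places of the letters -/
theorem ppl_bb {X : AD S P J V} (hX : X.Okw p k Mw q) {j : J} (hj : j ∈ X.Jf) (hp : ¬X.pp j) :
    ¬X.ppl (X.pj j) := by
  rintro ⟨i, hi, hpi, hij⟩
  have h1 := (hX.jl j hj).2
  rw [← hij, hX.pb i hi hpi, List.mem_singleton] at h1
  exact hp (h1 ▸ hpi)

section psi

variable {K : Subgroup St} {ev : St →* S} {psi : St → ZMod q}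
  {Bf : ∀ i j : ℕ, Gr S i →+ Gr S j →+ ZMod q}

theorem Psi.nc (h : Psi (d := d) K ev psi Bf Pt) {u : St} (hu : u ∈ K) (v : St) : ⁅u, v⁆ ∈ K := by
  have h1 := h.st (il v) u⁻¹ (inv_mem hu)
  rw [il_cjl] at h1
  have h2 : ⁅u, v⁆ = u * (v * u⁻¹ * v⁻¹) := by
    rw [commutatorElement_def]
    group
  rw [h2]
  exact mul_mem hu h1

theorem Psi.nc' (h : Psi (d := d) K ev psi Bf Pt) (v : St) {u : St} (hu : u ∈ K) : ⁅v, u⁆ ∈ K := by
  rw [← commutatorElement_inv]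
  exact inv_mem (h.nc hu v)

/-- conjugation by elements with trivial part in `Pt` -/
theorem Psi.cj (h : Psi (d := d) K ev psi Bf Pt) {u : St} (hu : u ∈ K) (hu' : u ∈ gm St (d + 2))
    {g : SP St Pt} (hg : g.right = 1) : psi (cjl g u) = psi u := by
  have h1 : cjl g u = ⁅g.left, u⁆ * u := by
    have h2 : g = il g.left := il_of hg
    conv_lhs => rw [h2]
    rw [il_cjl, commutatorElement_def]
    group
  rw [h1, h.add _ (h.nc' _ hu) _ hu, h.ze _ (h.nc' _ hu) (gm_comm' (d + 2) hu'), zero_add]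

end psi

section f2

variable {X : AD S P J V} {Y : AD St Pt J V} {EV : SP St Pt →* SP S P} {ev : St →* S}
  {K : Subgroup St} {psi : St → ZMod q} {Bf : ∀ i j : ℕ, Gr S i →+ Gr S j →+ ZMod q}

/-- the part of a letter `pp` in the change of the relation -/
theorem pp_psi (hd : 1 ≤ d) (hψ : Psi (d := d) K ev psi Bf Pt) {c : SP St Pt} (hc : c.right = 1)
    (y x : St) {u e : St} (hu : u ∈ K) (he : e ∈ K) :
    psi (cjl c (el (il y : SP St Pt) (il x) u e)) =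
      -Bf (d + 1) 1 (gk (d + 1) (ev e)) (gk 1 (ev x)) -
        Bf 1 (d + 1) (gk 1 (ev y)) (gk (d + 1) (ev u)) := by
  have hu' := hψ.le hu
  have he' := hψ.le he
  set h : St := ⁅y, x⁆ with hh
  have hh2 : h ∈ gm St 2 := gm_comm 1 (Subgroup.mem_top _)
  have e1 : el (il y : SP St Pt) (il x) u e = e * (⁅y, u⁆ * ⁅u, h⁆) * ((h * u * x) * e⁻¹ * (h * u * x)⁻¹) := by
    unfold el dl
    have e2 : (⁅(il y : SP St Pt), il x⁆ : SP St Pt) = il h := by
      rw [hh, commutatorElement_def, commutatorElement_def, il_mul, il_mul, il_mul, il_inv, il_inv]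
    have e3 : (il h * (il u * il x) : SP St Pt) = il (h * u * x) := by
      rw [il_mul, il_mul, mul_assoc]
    rw [e2, e3, il_cjl, il_cjl, il_cjl]
    simp only [commutatorElement_def]
    group
  have g1 : ⁅y, u⁆ ∈ K := hψ.nc' _ hu
  have g2 : ⁅u, h⁆ ∈ K := hψ.nc hu _
  have g3 : ⁅u, h⁆ ∈ gm St (d + 3) := by
    have := gm_comm2 (i := d + 1) (j := 2) (by omega) (by omega) hu' hh2
    exact this
  have g4 : ⁅e, h * u * x⁆ ∈ K := hψ.nc he _
  have e5 : el (il y : SP St Pt) (il x) u e =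
      (e * (⁅y, u⁆ * ⁅u, h⁆) * e⁻¹) * ⁅e, h * u * x⁆ := by
    rw [e1]
    simp only [commutatorElement_def]
    group
  have g5 : e * (⁅y, u⁆ * ⁅u, h⁆) * e⁻¹ ∈ K := mul_mem (mul_mem he (mul_mem g1 g2)) (inv_mem he)
  have hst := hψ.st
  have a1 : psi (cjl c (e * (⁅y, u⁆ * ⁅u, h⁆) * e⁻¹)) = psi ⁅y, u⁆ := by
    rw [cjl_mul, cjl_mul, hψ.add _ (mul_mem (hst _ _ he) (hst _ _ (mul_mem g1 g2))) _
      (hst _ _ (inv_mem he)), hψ.add _ (hst _ _ he) _ (hst _ _ (mul_mem g1 g2)), cjl_inv,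
      psi_inv hψ.add (hst _ _ he), cjl_mul, hψ.add _ (hst _ _ g1) _ (hst _ _ g2),
      hψ.cj g1 (gm_comm' (d + 1) hu') hc, hψ.cj g2 (gm_le (by omega) g3) hc, hψ.ze _ g2 g3]
    abel
  have a2 : gk 1 (ev (h * u * x)) = gk 1 (ev x) := by
    have b0 : ∀ s : S, s ∈ gm S 1 := fun s => Subgroup.mem_top s
    have b1 : ev h ∈ gm S 2 := by
      rw [hh, map_commutatorElement]
      exact gm_comm 1 (b0 _)
    have b2 : ev u ∈ gm S 2 := by
      exact gm_le (by omega : 2 ≤ d + 1) (gm_hm ev hu')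
    rw [map_mul, map_mul, gk_mul (b0 _) (b0 _), gk_mul (b0 _) (b0 _), (gk_zero (b0 _)).2 b1,
      (gk_zero (b0 _)).2 b2, zero_add, zero_add]
  rw [e5, cjl_mul, hψ.add _ (hst _ _ g5) _ (hst _ _ g4), a1, hψ.cj g4 (gm_comm (d + 1) he') hc,
    hψ.b1 e he, hψ.b2 y u hu, a2]
  abel

/-- the changed evaluation lies over the evaluation for the conjugators `τ z` -/
theorem lc_th {k' Mw' : ℕ} (hL : Lf X Y EV ev) (hX : X.Okw p k' Mw' q) (τ : V → St) {z : V → S}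
    {m : V → St} {e : J → St} (hmz : ∀ v, ¬X.ppl v → ev (m v) = z v) (hm1 : ∀ v, X.ppl v → m v = 1)
    (hez : ∀ j ∈ X.Jf, X.pp j → ev (e j) = ⁅z (X.pj j), X.y j⁆)
    (he1 : ∀ j, ¬(j ∈ X.Jf ∧ X.pp j) → e j = 1) (w : FreeGroup J) :
    EV ((Y.lc e).th (fun v => τ v * m v) w) = X.th (fun v => ev (τ v) * z v) w := by
  have h1 : EV.comp ((Y.lc e).th fun v => τ v * m v) = X.th fun v => ev (τ v) * z v := by
    refine FreeGroup.ext_hom _ _ fun j => ?_
    rw [MonoidHom.comp_apply, th_of, th_of, hL.cj, lc_t, map_mul EV, hL.il, hL.t, lc_pj, hL.pj,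
      map_mul ev]
    by_cases hj : j ∈ X.Jf
    · by_cases hp : X.pp j
      · have hv : X.ppl (X.pj j) := ⟨j, hj, hp, rfl⟩
        rw [hm1 _ hv, map_one, mul_one, hez j hj hp, hX.pt j hj hp, ← il_mul]
        unfold H73.S3.cj
        rw [← il_mul, ← il_inv, ← il_mul, ← il_mul, ← il_inv, ← il_mul]
        congr 1
        rw [commutatorElement_def]
        group
      · rw [hmz _ (ppl_bb hX hj hp), he1 j fun h => hp h.2, map_one, il_one, one_mul]
    · rw [hX.t1 j hj, he1 j fun h => hj h.1, map_one, il_one, one_mul, cj_one, cj_one]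
  exact DFunLike.congr_fun h1 w

/-- the changes of the values, letters which are not `pp` -/
theorem chg_bb {k' Mw' : ℕ} (hL : Lf X Y EV ev) (hX : X.Okw p k' Mw' q) (τ : V → St) {z : V → S}
    {m : V → St} {e : J → St} (hmz : ∀ v, ¬X.ppl v → ev (m v) = z v) (hm1 : ∀ v, X.ppl v → m v = 1)
    (hez : ∀ j ∈ X.Jf, X.pp j → ev (e j) = ⁅z (X.pj j), X.y j⁆)
    (he1 : ∀ j, ¬(j ∈ X.Jf ∧ X.pp j) → e j = 1) (j : X.Jf) (hp : ¬X.pp j) :
    X.chg (fun v => ev (τ v)) z j = ev (ud Y τ m e j) := by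
  have h1 : X.vl (fun v => ev (τ v) * z v) j = il (ev (ud Y τ m e j)) * X.vl (fun v => ev (τ v)) j := by
    rw [← hL.vl τ (j : J), ← hL.il, ← map_mul, ← ud_il]
    unfold AD.vl
    rw [hL.cj, lc_th hL hX τ hmz hm1 hez he1, map_inv, map_mul, lc_pj, hL.pj,
      hmz _ (ppl_bb hX j.2 hp), ← hL.W]
    rfl
  unfold AD.chg
  rw [h1, mul_inv_cancel_right]
  rfl

/-- the changes of the values, letters `pp` -/
theorem chg_pp {k' Mw' : ℕ} (hL : Lf X Y EV ev) (hX : X.Okw p k' Mw' q) (τ : V → St) {z : V → S}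
    {m : V → St} {e : J → St} (hmz : ∀ v, ¬X.ppl v → ev (m v) = z v) (hm1 : ∀ v, X.ppl v → m v = 1)
    (hez : ∀ j ∈ X.Jf, X.pp j → ev (e j) = ⁅z (X.pj j), X.y j⁆)
    (he1 : ∀ j, ¬(j ∈ X.Jf ∧ X.pp j) → e j = 1) (j : X.Jf) (hp : X.pp j) :
    X.chg (fun v => ev (τ v)) z j = ((z (X.pj j))⁻¹ * ev (ud Y τ m e j) * z (X.pj j)) *
      ⁅(z (X.pj j))⁻¹, (X.vl (fun v => ev (τ v)) j).left⁆ := by
  have hv : X.ppl (X.pj j) := ⟨j, j.2, hp, rfl⟩
  have hr : (X.vl (fun v => ev (τ v)) j).right = 1 := by rw [vl_rt, hX.pw j j.2 hp]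
  have h0 := il_of hr
  set x := (X.vl (fun v => ev (τ v)) j).left with hx
  have h1 : X.vl (fun v => ev (τ v) * z v) j =
      cj (z (X.pj j))⁻¹ (il (ev (ud Y τ m e j)) * X.vl (fun v => ev (τ v)) j) := by
    rw [← hL.vl τ (j : J), ← hL.il, ← map_mul, ← ud_il]
    unfold AD.vl
    rw [hL.cj, lc_th hL hX τ hmz hm1 hez he1, map_inv, map_mul, lc_pj, hL.pj,
      hm1 _ hv, map_one, mul_one, cj_cj, mul_inv_rev, ← hL.W]
    rfl
  unfold AD.chg
  rw [h1, h0]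
  unfold H73.S3.cj
  rw [← il_inv, ← il_mul, ← il_mul, ← il_mul, ← il_inv, ← il_mul, il_left, commutatorElement_def]
  group

/-- THE CHANGE OF THE PHASE IN OWN LETTERS -/
theorem f2e [Fintype St] [NeZero q] [Finite Pt] {k' Mw' : ℕ} (hp : p.Prime) (hd : 1 ≤ d)
    (hL : Lf X Y EV ev) (hX : X.Okw p k' Mw' q) (hY : Y.Okw p k Mw q)
    (hψ : Psi (d := d) K ev psi Bf Pt)
    (hjac : ∀ u ∈ gm S d, ∀ v w : S, Bf (d + 1) 1 (gk (d + 1) ⁅u, v⁆) (gk 1 w) =
      Bf d 2 (gk d u) (gk 2 ⁅v, w⁆) - Bf 1 (d + 1) (gk 1 v) (gk (d + 1) ⁅u, w⁆))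
    (τ : V → St) (ζ : X.Jf → Dz S q d × Dz S q (d + 1))
    (hζ : ∀ j : X.Jf, X.pp j → ∀ w ∈ gm S (d + 1),
      (ζ j).1.ap (gz d w) = Bf 1 (d + 1) (gk 1 (X.y j)) (gk (d + 1) w))
    (η : Y.Jf → Du St q d × Du St q (d + 1))
    (hη : ∀ (j : J) (h : j ∈ X.Jf) (h' : j ∈ Y.Jf), ¬X.pp j → ∀ u ∈ K,
      (η ⟨j, h'⟩).2.ap (gk (d + 1) u) =
        (ζ ⟨j, h⟩).2.ap (gz (d + 1) (ev u)) + psi (Dj Y τ (Y.vl τ) j u))
    {z : V → S} (hz : X.Zg d z) {m : V → St} {e : J → St} (hm : ∀ v, m v ∈ K)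
    (he : ∀ j, e j ∈ K) (hmz : ∀ v, ¬X.ppl v → ev (m v) = z v) (hm1 : ∀ v, X.ppl v → m v = 1)
    (hez : ∀ j ∈ X.Jf, X.pp j → ev (e j) = ⁅z (X.pj j), X.y j⁆)
    (he1 : ∀ j, ¬(j ∈ X.Jf ∧ X.pp j) → e j = 1) :
    X.F2 Bf (fun v => ev (τ v)) z ζ =
      Y.Fp η (fun w => gk (d + 1) (dd Y τ m e w)) fun v => gk (d + 1) (m v) := by
  obtain ⟨xx, hxx⟩ : ∃ xx, xx = X.vl fun v => ev (τ v) := ⟨_, rfl⟩
  have he0 : ∀ j, j ∉ Y.Jf → e j = 1 := fun j hj => he1 j fun h => hj (hL.Jf ▸ h.1)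
  have hst := hψ.st
  have hev : ∀ {n : ℕ} {u : St}, u ∈ gm St n → ev u ∈ gm S n := fun hu => gm_hm ev hu
  -- the relation
  have hrl := rlc Y hst hψ.add hY.nd hY.bn hY.bp hY.jl hY.t1 (τ := τ) (m := m) (Y.vl τ)
    (U := ud Y τ m e) (e := e) (fun j => ud_mem hst hm he j) he hm he0 (rr_vlw Y hp hY τ) (by
      have h1 := rr_vlw (Y.lc e) hp (hY.lc he0) fun v => τ v * m v
      have h2 : (Y.lc e).vl (fun v => τ v * m v) = fun j => il (ud Y τ m e j) * Y.vl τ j :=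
        funext fun j => ud_il Y τ m e j
      rw [h2] at h1
      exact h1)
  obtain ⟨R, hR⟩ : ∃ R : J → ZMod q, ∀ j, R j = psi (cjl (cn Y τ (Y.vl τ) j)
      (el (Y.t j) (Y.vl τ j) (ud Y τ m e j) (e j))) := ⟨_, fun _ => rfl⟩
  obtain ⟨Pv, hPv⟩ : ∃ Pv : V → ZMod q, ∀ v, Pv v = psi (cjl (pf Y τ (Y.vl τ) v * il (τ v))
      (zb (Y.bk (Y.vl τ) v) (m v))) := ⟨_, fun _ => rfl⟩
  have hrl' : ∑ j ∈ X.Jf, R j + (X.l.map Pv).sum = 0 := by
    rw [← hrl]
    congr 1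
    · rw [← hL.Jf]
      refine (Finset.sum_coe_sort Y.Jf R).symm.trans ?_
      exact Finset.sum_congr rfl fun j _ => hR j
    · rw [hL.l]
      congr 1
      exact List.map_congr_left fun v _ => hPv v
  -- the letters as functions on `J`
  obtain ⟨t, ht⟩ : ∃ t : J → ZMod q, ∀ j, t j = if h : j ∈ X.Jf then
      (if X.pp j then (ζ ⟨j, h⟩).1.ap (gz d (X.chg (fun v => ev (τ v)) z ⟨j, h⟩)) else
        (ζ ⟨j, h⟩).2.ap (gz (d + 1) (X.chg (fun v => ev (τ v)) z ⟨j, h⟩))) else 0 := ⟨_, fun _ => rfl⟩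
  obtain ⟨g, hg⟩ : ∃ g : J → ZMod q, ∀ j, g j = if h : j ∈ Y.Jf then
      (if Y.pp j then 0 else (η ⟨j, h⟩).2.ap (gk (d + 1) (dd Y τ m e (Y.W j)) -
        (gk (d + 1) (m (Y.pj j)) - Y.ph (Y.W j) • gk (d + 1) (m (Y.pj j))))) else 0 := ⟨_, fun _ => rfl⟩
  obtain ⟨b, hb⟩ : ∃ b : J → ZMod q, ∀ j, b j = if j ∈ X.Jf ∧ X.pp j then
      Bf d 2 (gk d (z (X.pj j))) (gk 2 ⁅X.y j, (xx j).left⁆) else 0 := ⟨_, fun _ => rfl⟩
  have e1 : X.pr2 ζ (X.chg (fun v => ev (τ v)) z) = ∑ j ∈ X.Jf, t j := by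
    refine Eq.trans ?_ (Finset.sum_coe_sort X.Jf t)
    unfold AD.pr2
    refine Finset.sum_congr rfl fun j _ => ?_
    rw [ht j, dif_pos j.2]
  have e2 : Y.Fp η (fun w => gk (d + 1) (dd Y τ m e w)) (fun v => gk (d + 1) (m v)) =
      ∑ j ∈ X.Jf, g j := by
    rw [← hL.Jf]
    refine Eq.trans ?_ (Finset.sum_coe_sort Y.Jf g)
    unfold AD.Fp
    refine Finset.sum_congr rfl fun j _ => ?_
    rw [hg j, dif_pos j.2]
  -- the places
  have hplace : ∀ v ∈ X.l, (if X.ppl v then Bf d 2 (gk d (z v)) (gk 2 (X.bk xx v).left)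
      else Bf (d + 1) 1 (gk (d + 1) (z v)) (gk 1 (X.bk xx v).left)) + Pv v =
        ((X.bl v).map b).sum := by
    intro v hv
    by_cases hpl : X.ppl v
    · obtain ⟨j, hj, hpj, rfl⟩ := hpl
      have hv' : X.ppl (X.pj j) := ⟨j, hj, hpj, rfl⟩
      have h1 : Pv (X.pj j) = 0 := by
        rw [hPv, hm1 _ hv']
        unfold zb
        rw [inv_one, cjl_one, mul_one, cjl_one, psi_one hψ.add]
      have h2 : X.bk xx (X.pj j) = il ⁅X.y j, (xx j).left⁆ := by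
        have hr : (xx j).right = 1 := by rw [hxx, vl_rt, hX.pw j hj hpj]
        unfold AD.bk
        rw [hX.pb j hj hpj, wd_single, hX.pt j hj hpj]
        have h0 := il_of hr
        conv_lhs => rw [h0]
        rw [commutatorElement_def, commutatorElement_def, il_mul, il_mul, il_mul, il_inv, il_inv]
      rw [if_pos hv', h1, add_zero, h2, il_left, hX.pb j hj hpj, List.map_cons, List.map_nil,
        List.sum_cons, List.sum_nil, add_zero, hb j, if_pos ⟨hj, hpj⟩]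
    · rw [if_neg hpl]
      have h0 : ((X.bl v).map b).sum = 0 := by
        refine List.sum_eq_zero ?_
        intro y hy
        obtain ⟨j, hj, rfl⟩ := List.mem_map.1 hy
        rw [hb j, if_neg]
        rintro ⟨h1, h2⟩
        exact hpl ⟨j, h1, h2, hX.bp v j hj⟩
      have hr : (Y.bk (Y.vl τ) v).right = 1 := by
        rw [bk_rt]
        exact hY.hb v (hL.l ▸ hv)
      have h1 := il_of hr
      obtain ⟨β, hβ⟩ : ∃ β, β = (Y.bk (Y.vl τ) v).left := ⟨_, rfl⟩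
      rw [← hβ] at h1
      have h2 : X.bk xx v = il (ev β) := by rw [hxx, ← hL.bk, h1, hL.il]
      have h3 : zb (Y.bk (Y.vl τ) v) (m v) = ⁅m v, β⁆ := by
        unfold zb
        rw [h1, il_cjl, commutatorElement_def]
        group
      have h4 : Pv v = -Bf (d + 1) 1 (gk (d + 1) (z v)) (gk 1 (ev β)) := by
        rw [hPv, h3, hψ.cj (hψ.nc (hm v) β) (gm_comm (d + 1) (hψ.le (hm v))), hψ.b1 _ (hm v),
          hmz v hpl]
        rw [sp_right, pf_rt hY, one_mul, il_right]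
      rw [h0, h4, h2, il_left, add_neg_cancel]
  have e3 : X.lw Bf d xx z + (X.l.map Pv).sum = ∑ j ∈ X.Jf, b j := by
    unfold AD.lw
    rw [← List.sum_map_add, List.map_congr_left hplace,
      sum_bl X hX.nd hX.bn hX.bp hX.jl b fun j hj => by rw [hb j, if_neg fun h => hj h.1]]
    exact Finset.sum_coe_sort X.Jf b
  -- the letters
  have hletter : ∀ j ∈ X.Jf, t j + b j + R j = g j := by
    intro j hj
    have hj' : j ∈ Y.Jf := hL.Jf.symm ▸ hj
    by_cases hpj : X.pp j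
    · have hpj' : Y.pp j := (hL.pp j).2 hpj
      have hr : (xx j).right = 1 := by rw [hxx, vl_rt, hX.pw j hj hpj]
      have hr' : (Y.vl τ j).right = 1 := by rw [vl_rt, hY.pw j hj' hpj']
      obtain ⟨x, hx⟩ : ∃ x, x = (Y.vl τ j).left := ⟨_, rfl⟩
      have hx1 : Y.vl τ j = il x := by rw [hx]; exact il_of hr'
      have hx2 : xx j = il (ev x) := by rw [hxx, ← hL.vl, hx1, hL.il]
      have hx3 : (xx j).left = ev x := by rw [hx2, il_left]
      have hy : ev (Y.y j) = X.y j := by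
        have h1 := hL.t j
        rw [hY.pt j hj' hpj', hL.il, hX.pt j hj hpj] at h1
        exact il_inj h1
      have hu : ud Y τ m e j ∈ K := ud_mem hst hm he j
      have hue := hev (hψ.le hu)
      have hzj : z (X.pj j) ∈ gm S d := by
        have h1 := hz (X.pj j)
        rwa [if_pos ⟨j, hj, hpj, rfl⟩] at h1
      have hcn : (cn Y τ (Y.vl τ) j).right = 1 := by
        unfold cn
        have h1 : Y.bl (Y.pj j) = [j] := hY.pb j hj' hpj'
        have h2 : pre [j] j = [] := by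
          unfold pre
          rw [List.takeWhile_cons, decide_eq_false (fun h => h rfl)]
          rfl
        rw [h1, h2, sp_right, sp_right, pf_rt hY, il_right]
        unfold wd
        rw [List.map_nil, List.prod_nil]
        show (1 : Pt) * 1 * 1 = 1
        rw [mul_one, mul_one]
      have hRj : R j = -Bf (d + 1) 1 (gk (d + 1) ⁅z (X.pj j), X.y j⁆) (gk 1 (ev x)) -
          Bf 1 (d + 1) (gk 1 (X.y j)) (gk (d + 1) (ev (ud Y τ m e j))) := by
        rw [hR, hY.pt j hj' hpj', hx1, pp_psi hd hψ hcn (Y.y j) x hu (he j), hez j hj hpj, hy]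
      have hgj : g j = 0 := by rw [hg, dif_pos hj', if_pos hpj']
      have hbj : b j = Bf d 2 (gk d (z (X.pj j))) (gk 2 ⁅X.y j, ev x⁆) := by
        rw [hb, if_pos ⟨hj, hpj⟩, hx3]
      have hc1 : (z (X.pj j))⁻¹ * ev (ud Y τ m e j) * z (X.pj j) ∈ gm S (d + 1) := by
        have h1 := (gm_normal (d + 1)).conj_mem _ hue (z (X.pj j))⁻¹
        rwa [inv_inv] at h1
      have hc2 : gk (d + 1) ((z (X.pj j))⁻¹ * ev (ud Y τ m e j) * z (X.pj j)) =
          gk (d + 1) (ev (ud Y τ m e j)) := by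
        have h1 := gk_conj hue (z (X.pj j))⁻¹
        rwa [inv_inv] at h1
      have hc3 : ⁅(z (X.pj j))⁻¹, ev x⁆ ∈ gm S (d + 1) := gm_comm d (inv_mem hzj)
      have hc4 : gk (d + 1) ⁅(z (X.pj j))⁻¹, ev x⁆ = -gk (d + 1) ⁅z (X.pj j), ev x⁆ := by
        have h1 : ⁅(z (X.pj j))⁻¹, ev x⁆ = (z (X.pj j))⁻¹ * ⁅z (X.pj j), ev x⁆⁻¹ * z (X.pj j) := by
          simp only [commutatorElement_def]
          group
        have h2 : ⁅z (X.pj j), ev x⁆ ∈ gm S (d + 1) := gm_comm d hzj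
        have h3 := gk_conj (inv_mem h2) (z (X.pj j))⁻¹
        rw [inv_inv] at h3
        rw [h1, h3, gk_inv h2]
      have htj : t j = Bf 1 (d + 1) (gk 1 (X.y j)) (gk (d + 1) (ev (ud Y τ m e j))) -
          Bf 1 (d + 1) (gk 1 (X.y j)) (gk (d + 1) ⁅z (X.pj j), ev x⁆) := by
        rw [ht, dif_pos hj, if_pos hpj, chg_pp hL hX τ hmz hm1 hez he1 ⟨j, hj⟩ hpj, ← hxx, hx3,
          gz_mul (gm_anti d hc1) (gm_anti d hc3), map_add, hζ ⟨j, hj⟩ hpj _ hc1,
          hζ ⟨j, hj⟩ hpj _ hc3, hc2, hc4, map_neg, sub_eq_add_neg]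
      rw [hgj, htj, hbj, hRj, hjac _ hzj]
      abel
    · have hpj' : ¬Y.pp j := fun h => hpj ((hL.pp j).1 h)
      have hgj : g j = (ζ ⟨j, hj⟩).2.ap (gz (d + 1) (ev (ud Y τ m e j))) +
          psi (Dj Y τ (Y.vl τ) j (ud Y τ m e j)) := by
        rw [hg, dif_pos hj', if_neg hpj', ← ud_gk hst hψ.le hm he j]
        exact hη j hj hj' hpj _ (ud_mem hst hm he j)
      have htj : t j = (ζ ⟨j, hj⟩).2.ap (gz (d + 1) (ev (ud Y τ m e j))) := by
        rw [ht, dif_pos hj, if_neg hpj, chg_bb hL hX τ hmz hm1 hez he1 ⟨j, hj⟩ hpj]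
      have hbj : b j = 0 := by rw [hb, if_neg fun h => hpj h.2]
      have hRj : R j = psi (Dj Y τ (Y.vl τ) j (ud Y τ m e j)) := by
        rw [hR, he1 j fun h => hpj h.2, el_one]
        rfl
      rw [hgj, htj, hbj, hRj, add_zero]
  unfold AD.F2
  rw [e1, e2, ← hxx, ← Finset.sum_congr rfl hletter, Finset.sum_add_distrib,
    Finset.sum_add_distrib, ← e3, ← add_zero (∑ j ∈ X.Jf, t j + X.lw Bf d xx z), ← hrl']
  abel

end f2

end H62.OW
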