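import Pool.Agent.H73.S3.Fou
import Pool.Agent.H71.S3.Tva

/-!
# [H62 OW OKW] the frame without richness (MP_b39724_nt, THEOREM OW, S4)

* `AD.Okw`: the fields of `AD.Ok` except `gi`, `gb`, `gs`, `gen`, `nil`. `AD.Ok.w`.
* `rr_vlw`, `kx_exw`, `hz_relw`, `frm_okw`, `bw_ppw`: as in H71/S3/Tva for `AD.Okw`. `kx_uq`: uniqueness of the crossed homomorphism. `kx_pr`: `k w (pr a) = k w a` if the functionals
  have this property.
* `AD.lc e`: the data with the letters `il (e j) * t j`. `Okw.lc`.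
-/

set_option autoImplicit false

open scoped commutatorElement
open scoped Classical

noncomputable section

namespace H62.OW

open H1.S3 H73.S3 H71.S3

attribute [local instance 50] Fintype.ofFinite

variable {S P : Type} [Group S] [Group P] [MulDistribMulAction P S] {J V : Type}

/-- the hypotheses without richness -/
structure _root_.H73.S3.AD.Okw (X : AD S P J V) (p k Mw q : ℕ) : Prop where
  nd : X.l.Nodup
  bn : ∀ v ∈ X.l, (X.bl v).Nodup
  bp : ∀ v, ∀ j ∈ X.bl v, X.pj j = v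
  jl : ∀ j ∈ X.Jf, X.pj j ∈ X.l ∧ j ∈ X.bl (X.pj j)
  al : ∀ j ∈ X.Jf, ∀ i ∈ X.bl (X.pj j), i ∈ X.Jf
  t1 : ∀ j, j ∉ X.Jf → X.t j = 1
  pb : ∀ j ∈ X.Jf, X.pp j → X.bl (X.pj j) = [j]
  pt : ∀ j ∈ X.Jf, X.pp j → X.t j = il (X.y j)
  pw : ∀ j ∈ X.Jf, X.pp j → X.ph (X.W j) = 1
  hb : ∀ v ∈ X.l, X.ph (wd FreeGroup.of X.W (X.bl v)) = 1
  rel : ∀ (H : Type) [Group H] [Finite H], H77.S3.Sml p k Mw H → ∀ θ : FreeGroup J →* H,
    (∀ j, j ∉ X.Jf → θ (FreeGroup.of j) = 1) →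
    (X.l.map fun v => wd (fun j => θ (FreeGroup.of j)) (fun j => θ (X.W j)) (X.bl v)).prod = 1
  pg : IsPGroup p (SP S P)
  qe : ∀ s : S, s ^ q = 1
  qp : ∃ r, q = p ^ r
  kM : Mw ≤ p ^ k
  mx : Nat.card P * Nat.card S ^ 2 * q ≤ Mw

theorem _root_.H73.S3.AD.Ok.w {X : AD S P J V} {p k Mw q c : ℕ} {P' : Type} [Group P']
    {Pi : SP S P →* P'} (h : X.Ok p k Mw q c Pi) : X.Okw p k Mw q :=
  ⟨h.nd, h.bn, h.bp, h.jl, h.al, h.t1, h.pb, h.pt, h.pw, h.hb, h.rel, h.pg, h.qe, h.qp, h.kM, h.mx⟩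

variable {p k Mw q : ℕ}

theorem rr_vlw [Fintype S] [NeZero q] [Finite P] (X : AD S P J V) (hp : p.Prime)
    (hX : X.Okw p k Mw q) (τ : V → S) : X.RR τ (X.vl τ) = 1 := by
  have hf : Finite (SP S P) := H71.S3.sp_finite
  have hq : 1 ≤ q := Nat.one_le_iff_ne_zero.2 (NeZero.ne q)
  have hS : 1 ≤ Nat.card S := Nat.card_pos
  have hsm : H77.S3.Sml p k Mw (SP S P) := by
    refine sml_c hp hX.kM hX.pg (le_trans ?_ hX.mx)
    rw [sp_card, mul_comm (Nat.card S), mul_assoc]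
    refine Nat.mul_le_mul_left _ ?_
    nlinarith
  have h1 := hX.rel (SP S P) hsm (X.th τ) (fun j hj => by rw [th_of, hX.t1 j hj, cj_one])
  rw [← h1]
  unfold AD.RR
  congr 1
  apply List.map_congr_left
  intro v _
  unfold AD.bk
  rw [cj_wd]
  refine H71.S3.wd_congr fun i hi => ?_
  have h2 := hX.bp v i hi
  rw [th_of, h2]
  refine ⟨rfl, ?_⟩
  unfold AD.vl
  rw [cj_cj, h2, mul_inv_cancel, cj_id]

theorem kx_exw [Fintype S] [NeZero q] [Finite P] (X : AD S P J V) (hp : p.Prime)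
    (hX : X.Okw p k Mw q) (m : ℕ) (η : X.Jf → Du S q m × Du S q (m + 1)) : ∃ k, X.Kx η k := by
  let iN : DistribMulAction (FreeGroup J) (Du S q (m + 1)) := fact X.ph
  obtain ⟨Φ₀⟩ := filD (P := P) hp hX.pg hX.qe (m + 1)
  have Φ : Fil (FreeGroup J) (Du S q (m + 1)) := Φ₀.map X.ph fun x n => rfl
  set bd : J → Prop := fun j => j ∈ X.Jf ∧ ¬ X.pp j with hbd
  have hfin : Finite {j // bd j} := Finite.of_injective
    (fun j : {j // bd j} => (⟨j.1, j.2.1⟩ : X.Jf)) fun _ _ h => Subtype.ext (congrArg (·.1) h)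
  obtain ⟨f, hf⟩ := (zbijU bd Φ X.W fun j => X.bl (X.pj j)).2
    fun j : {j // bd j} => (η ⟨j.1, j.2.1⟩).2
  refine ⟨chl (exb bd f), chl_ch _, fun j hj => ?_, fun j hj => ?_⟩
  · rw [chl_of, exb_no bd f hj]
  · exact congrFun hf ⟨j.1, j.2, hj⟩

/-- uniqueness -/
theorem kx_uq [Fintype S] [NeZero q] [Finite P] (X : AD S P J V) (hp : p.Prime)
    (hX : X.Okw p k Mw q) (m : ℕ) (η : X.Jf → Du S q m × Du S q (m + 1))
    {k₁ k₂ : FreeGroup J → Du S q (m + 1)} (h₁ : X.Kx η k₁) (h₂ : X.Kx η k₂) : k₁ = k₂ := by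
  let iN : DistribMulAction (FreeGroup J) (Du S q (m + 1)) := fact X.ph
  obtain ⟨Φ₀⟩ := filD (P := P) hp hX.pg hX.qe (m + 1)
  have Φ : Fil (FreeGroup J) (Du S q (m + 1)) := Φ₀.map X.ph fun x n => rfl
  have c1 : CH (F := FreeGroup J) k₁ := h₁.ch
  have c2 : CH (F := FreeGroup J) k₂ := h₂.ch
  funext x
  have h := zinjU Φ (c1.sub c2) (fun j => j ∈ X.Jf ∧ ¬ X.pp j)
    (fun j hj => by rw [h₁.of j hj, h₂.of j hj, sub_zero]) X.W (fun j => X.bl (X.pj j))
    (fun j hj => by rw [zeta_sub, h₁.ze ⟨j, hj.1⟩ hj.2, h₂.ze ⟨j, hj.1⟩ hj.2, sub_self]) x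
  exact sub_eq_zero.1 h

/-- the crossed homomorphism has the values which factor through a projection -/
theorem kx_pr [Fintype S] [NeZero q] [Finite P] (X : AD S P J V) (hp : p.Prime)
    (hX : X.Okw p k Mw q) (m : ℕ) (η : X.Jf → Du S q m × Du S q (m + 1))
    (pr : Gr S (m + 1) →+ Gr S (m + 1)) (hpr : ∀ (g : P) a, pr (g • a) = g • pr a)
    (hη : ∀ j : X.Jf, ¬X.pp j → ∀ a, (η j).2.ap (pr a) = (η j).2.ap a)
    {κ : FreeGroup J → Du S q (m + 1)} (h : X.Kx η κ) (w : FreeGroup J) (a : Gr S (m + 1)) :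
    (κ w).ap (pr a) = (κ w).ap a := by
  let L : Du S q (m + 1) → Du S q (m + 1) := fun χ => (χ.ap.comp pr : Gr S (m + 1) →+ ZMod q)
  have hL : ∀ χ a, (L χ).ap a = χ.ap (pr a) := fun _ _ => rfl
  have hLz : ∀ (k : FreeGroup J → Du S q (m + 1)) (l : List J) (j : J),
      zeta (fun w => L (k w)) FreeGroup.of X.W l j = L (zeta k FreeGroup.of X.W l j) := by
    intro k l j
    unfold zeta
    exact du_ext fun a => rfl
  have h2 : X.Kx η fun w => L (κ w) := by
    refine ⟨fun x y => ?_, fun j hj => ?_, fun j hj => ?_⟩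
    · show L (κ (x * y)) = L (κ x) + X.ph x • L (κ y)
      rw [h.ch x y]
      refine du_ext fun a => ?_
      rw [hL, ap_add, ap_add, hL, ap_smul, ap_smul, hL, hpr]
    · show L (κ (FreeGroup.of j)) = 0
      rw [h.of j hj]
      rfl
    · rw [hLz, h.ze j hj]
      exact du_ext fun a => hη j hj a
  have h3 := congrFun (kx_uq X hp hX m η h2 h) w
  rw [← hL, h3]

/-- the pairing function of the relation -/
theorem hz_relw [Fintype S] [NeZero q] [Finite P] (X : AD S P J V) (hp : p.Prime)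
    (hX : X.Okw p k Mw q) (m : ℕ)
    (kk : FreeGroup J → Du S q m) (hk : X.CHp kk)
    (hk0 : ∀ j, j ∉ X.Jf → kk (FreeGroup.of j) = 0) (cc : FreeGroup J → Gr S m)
    (hc : X.CHp cc) (hc0 : ∀ j, j ∉ X.Jf → cc (FreeGroup.of j) = 0) (z : FreeGroup J → ZMod q)
    (hz : ∀ x y, z (x * y) = z x + z y + (kk x).ap (X.ph x • cc y))
    (hz0 : ∀ j, z (FreeGroup.of j) = 0) :
    z (X.l.map fun v => wd FreeGroup.of X.W (X.bl v)).prod = 0 := by
  have hpf := Fact.mk hp
  have hI : Fact (Ivt P (bil S q m)) := ⟨bil_ivt q m⟩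
  let iN : DistribMulAction (FreeGroup J) (Du S q m) := fact X.ph
  let iM : DistribMulAction (FreeGroup J) (Gr S m) := fact X.ph
  let θ : FreeGroup J →* Hz (bil S q m) P := hz_hom (B := bil S q m) X.ph
    (fun x m => rfl) (fun x n => rfl) (k := kk) (c := cc) (z := z) hk hc hz
  have hfin : Finite (Hz (bil S q m) P) := hz_finite
  have hcard : Nat.card (Hz (bil S q m) P) =
      Nat.card P * Nat.card (Du S q m) * Nat.card (Gr S m) * q := by
    rw [hz_card, Nat.card_zmod]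
  have hpg : IsPGroup p (Hz (bil S q m) P) := by
    rw [IsPGroup.iff_card]
    obtain ⟨a, ha⟩ := (IsPGroup.iff_card).mp (pg_P hX.pg)
    obtain ⟨b, hb⟩ := gr_pow hp (pg_S hX.pg) m
    obtain ⟨r, hr⟩ := hX.qp
    exact ⟨a + b + b + r, by rw [hcard, du_card hX.qe, ha, hb, hr, pow_add, pow_add, pow_add]⟩
  have hsm : H77.S3.Sml p k Mw (Hz (bil S q m) P) := by
    refine sml_c hp hX.kM hpg (le_trans ?_ hX.mx)
    rw [hcard, du_card hX.qe, mul_assoc (Nat.card P), sq]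
    exact Nat.mul_le_mul_right _ (Nat.mul_le_mul_left _ (Nat.mul_le_mul (gr_le m) (gr_le m)))
  have h1 := hX.rel (Hz (bil S q m) P) hsm θ (fun j hj => by
    have h2 : θ (FreeGroup.of j) = ⟨X.ph (FreeGroup.of j), kk (FreeGroup.of j),
      cc (FreeGroup.of j), z (FreeGroup.of j)⟩ := rfl
    rw [h2, hk0 j hj, hc0 j hj, hz0, ph_of, hX.t1 j hj]
    rfl)
  have h2 : (X.l.map fun v => wd (fun j => θ (FreeGroup.of j)) (fun j => θ (X.W j))
      (X.bl v)).prod = θ (X.l.map fun v => wd FreeGroup.of X.W (X.bl v)).prod := by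
    rw [map_list_prod, List.map_map]
    congr 1
    apply List.map_congr_left
    intro v _
    exact (map_wd θ _ _ _).symm
  rw [h2] at h1
  have h3 := congrArg (fun x : Hz (bil S q m) P => x.a) h1
  exact h3

theorem bw_ppw {X : AD S P J V} (hX : X.Okw p k Mw q) {j : J} (hj : j ∈ X.Jf) (hp : X.pp j) :
    ¬ Bw X (X.pj j) := by
  rintro ⟨i, ⟨hi1, hi2⟩, hi3⟩
  have h1 := (hX.jl i hi1).2
  rw [hi3, hX.pb j hj hp, List.mem_singleton] at h1
  exact hi2 (h1 ▸ hp)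

theorem frm_okw {X : AD S P J V} (hX : X.Okw p k Mw q) : Frm (Bd X) (Bw X) X.pj X.bl X.l where
  nd := hX.nd
  bn := by
    rintro v ⟨j, hj, rfl⟩
    exact hX.bn _ (hX.jl j hj.1).1
  bdw := fun j hj => ⟨j, hj, rfl⟩
  bwl := by
    rintro v ⟨j, hj, rfl⟩
    exact (hX.jl j hj.1).1
  mem := by
    rintro v ⟨j, hj, rfl⟩ i
    constructor
    · intro hi
      have h1 := hX.bp _ i hi
      have h2 := hX.al j hj.1 i hi
      refine ⟨h1, h2, fun hpi => ?_⟩
      have h3 := hX.pb i h2 hpi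
      have h4 := (hX.jl j hj.1).2
      rw [← h1, h3, List.mem_singleton] at h4
      exact hj.2 (h4 ▸ hpi)
    · rintro ⟨h1, h2⟩
      rw [← h1]
      exact (hX.jl i h2.1).2
  good := by
    intro v hv hnb j hj hbd
    exact hnb ⟨j, hbd, hX.bp v j hj⟩

/-- the data with changed letters -/
def _root_.H73.S3.AD.lc (X : AD S P J V) (e : J → S) : AD S P J V :=
  { X with t := fun j => il (e j) * X.t j }

theorem lc_ph (X : AD S P J V) (e : J → S) : (X.lc e).ph = X.ph := by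
  refine FreeGroup.ext_hom _ _ fun j => ?_
  rw [ph_of, ph_of]
  show (il (e j) * X.t j).right = _
  rw [sp_right, il_right, one_mul]

/-- the hypotheses for changed letters -/
theorem _root_.H73.S3.AD.Okw.lc {X : AD S P J V} (h : X.Okw p k Mw q) {e : J → S}
    (he : ∀ j, j ∉ X.Jf → e j = 1) : (X.lc e).Okw p k Mw q where
  nd := h.nd
  bn := h.bn
  bp := h.bp
  jl := h.jl
  al := h.al
  t1 := by
    intro j hj
    show il (e j) * X.t j = 1
    rw [he j hj, h.t1 j hj, il_one, one_mul]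
  pb := h.pb
  pt := by
    intro j hj hp
    have h1 := h.pt j hj hp
    show il (e j) * X.t j = il (il (e j) * X.t j).left
    have h2 : (il (e j) * X.t j : SP S P).right = 1 := by
      rw [sp_right, il_right, one_mul, h1, il_right]
    exact il_of h2
  pw := by
    intro j hj hp
    rw [lc_ph]
    exact h.pw j hj hp
  hb := by
    intro v hv
    rw [lc_ph]
    exact h.hb v hv
  rel := h.rel
  pg := h.pg
  qe := h.qe
  qp := h.qp
  kM := h.kM
  mx := h.mx

end H62.OW
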