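import Pool.Agent.H73.S3.Adf
import Pool.Agent.H62.OW.Okw

/-!
# [H62 OW ADW] the data of a configuration satisfy `AD.Okw` (MP_b39724_nt, THEOREM OW, S4)

`adf_okw`: `H73.S3.adf_ok` without richness and without the fields on `G` (same proof).
-/

set_option autoImplicit false

open scoped NumberField commutatorElement
open IsDedekindDomain
open scoped Classical

noncomputable section

namespace H62.OW

open H63.MA H38.BB H38.BG H57.PC H57.BRA H77.WD H77.WE H77.PC3 H35.CF H35.UB H77.S3 H71.S3 H73.S3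

variable {K : Type} [Field K] [NumberField K] {Ω : Type} [Field Ω] [Algebra K Ω]
  {p N : ℕ} {ζ : K} {D : RD0 K p ζ} {Q : DP K Ω} {A : GS D Ω} {P : Type} [Group P]
  {c : CL p N P} {S : Type} [Group S] [MulDistribMulAction P S]

variable {G : SG c S} {B : SD D Q A} {X : FD A P S} {W : WF A}

theorem adf_okw [Fintype S] [Finite P] (hp : p.Prime) (G : SG c S) (B : SD D Q A) (X : FD A P S)
    (W : WF A) {k Mw q : ℕ} (hX : X.Ok G B W) (hW : W.Ok B k Mw) (T : ℝ) (Zc : Finset (Pl K))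
    (hZ : Disjoint Zc X.E) (hZc : Zc ⊆ W.Z) (hE : X.E ⊆ W.Z) (f : Pl K → Option (Px c))
    (hP : IsPGroup p P) (hS : IsPGroup p S)
    (hq : ∀ s : S, s ^ q = 1) (hk : Mw ≤ p ^ k) (hM : Nat.card P * Nat.card S ^ 2 * q ≤ Mw)
    (hqp : ∃ r, q = p ^ r) : (adf G B X W T Zc f).Okw p k Mw q := by
  have hpf : Fact p.Prime := ⟨hp⟩
  have hcS : 0 < Nat.card S := Nat.card_pos
  have hq0 : 0 < q := by
    obtain ⟨r, rfl⟩ := hqp
    exact pow_pos hp.pos r
  have hPM : Nat.card P ≤ Mw := by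
    refine le_trans ?_ hM
    calc Nat.card P = Nat.card P * 1 * 1 := by ring
      _ ≤ Nat.card P * Nat.card S ^ 2 * q :=
        Nat.mul_le_mul (Nat.mul_le_mul le_rfl (pow_pos hcS 2)) hq0
  have hPs : Sml p k Mw P := sml_of hp hk hP hPM
  obtain ⟨hph, hpi⟩ := ph_v G B X W hX hW hPs T Zc hZ hE f
  have hhat := ph_hat G B X W hX T Zc f
  set Y := adf G B X W T Zc f with hY
  -- the letters
  have eJ : Y.Jf = (sp Zc f ∪ X.E).disjSum Finset.univ := rfl
  have jinl : ∀ v, Sum.inl v ∈ Y.Jf ↔ v ∈ sp Zc f ∨ v ∈ X.E := fun v => by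
    rw [eJ, Finset.inl_mem_disjSum, Finset.mem_union]
  have jinr : ∀ i, Sum.inr i ∈ Y.Jf := fun i => by
    rw [eJ, Finset.inr_mem_disjSum]
    exact Finset.mem_univ _
  have hspZ : ∀ v, v ∈ sp Zc f → v ∈ W.Z := fun v hv => hZc (mem_sp.1 hv).1
  have hJZ : ∀ v, Sum.inl v ∈ Y.Jf → v ∈ W.Z := fun v hv =>
    ((jinl v).1 hv).elim (hspZ v) fun h => hE h
  have hspE : ∀ v, v ∈ Zc → v ∉ X.E := fun v hv => Finset.disjoint_left.1 hZ hv
  have bl0 : ∀ v, v ∈ D.S0 → Y.bl v =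
      ((List.finRange A.g).filter fun i => B.pl i = v).map Sum.inr := fun v hv => if_pos hv
  have bl1 : ∀ v, v ∉ D.S0 → Y.bl v = [Sum.inl v] := fun v hv => if_neg hv
  have mb0 : ∀ v, v ∈ D.S0 → ∀ j, j ∈ Y.bl v ↔ ∃ i, B.pl i = v ∧ j = Sum.inr i := by
    intro v hv j
    rw [bl0 v hv, List.mem_map]
    constructor
    · rintro ⟨i, hi, rfl⟩
      refine ⟨i, ?_, rfl⟩
      have := (List.mem_filter.1 hi).2
      simpa using this
    · rintro ⟨i, hi, rfl⟩
      refine ⟨i, List.mem_filter.2 ⟨List.mem_finRange _, ?_⟩, rfl⟩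
      simpa using hi
  have pinl : ∀ v, Y.pj (Sum.inl v) = v := fun v => rfl
  have pinr : ∀ i, Y.pj (Sum.inr i) = B.pl i := fun i => rfl
  have ppl : ∀ v, Y.pp (Sum.inl v) ↔ v ∈ sp Zc f ∧ PPc X W T v := fun v => Iff.rfl
  have ppr : ∀ i, ¬Y.pp (Sum.inr i) := fun i h => h
  have tE : ∀ v, v ∈ X.E → Y.t (Sum.inl v) = ⟨X.sv v, X.φ (W.L.t v)⟩ := fun v hv => if_pos hv
  have tZ : ∀ v s, v ∈ Zc → f v = some s → Y.t (Sum.inl v) = il (G.y s) := fun v s hv hs => by
    show (if v ∈ X.E then (⟨X.sv v, X.φ (W.L.t v)⟩ : SP S P) else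
      (if v ∈ Zc then f v else none).elim 1 fun s => il (G.y s)) = _
    rw [if_neg (hspE v hv), if_pos hv, hs]
    rfl
  have tR : ∀ i, Y.t (Sum.inr i) = ⟨X.si i, X.φ (A.a i)⟩ := fun i => rfl
  have t1 : ∀ v, v ∉ sp Zc f → v ∉ X.E → Y.t (Sum.inl v) = 1 := fun v hv hv' => by
    show (if v ∈ X.E then (⟨X.sv v, X.φ (W.L.t v)⟩ : SP S P) else
      (if v ∈ Zc then f v else none).elim 1 fun s => il (G.y s)) = _
    rw [if_neg hv']
    by_cases hz : v ∈ Zc
    · have h1 : f v = none := by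
        by_contra h
        exact hv (mem_sp.2 ⟨hz, h⟩)
      rw [if_pos hz, h1]
      rfl
    · rw [if_neg hz]
      rfl
  have hsome : ∀ v, v ∈ sp Zc f → ∃ s, f v = some s := fun v hv =>
    Option.ne_none_iff_exists'.1 (mem_sp.1 hv).2
  have gdef : ∀ x, Y.G x ↔ ((∀ v ∈ sp Zc f, ∀ s, f v = some s →
      Commute s.1 (G.Pi (x (Sum.inl v)))) ∧ (∀ v ∈ X.E, G.Pi (x (Sum.inl v)) = X.l.F v) ∧
        ∀ i, G.Pi (x (Sum.inr i)) = X.l.b i) := fun x => Iff.rfl
  have piil : ∀ s : Px c, G.Pi (il (G.y s)) = s.1 := fun s => by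
    rw [SG.Pi_mk]
    show G.pi (G.y s) * 1 = s.1
    rw [mul_one, G.pi_y]
  have piE : ∀ v ∈ X.E, G.Pi (Y.t (Sum.inl v)) = X.l.t v := fun v hv => by
    rw [tE v hv, SG.Pi_mk]
    exact hX.sv v hv
  have piR : ∀ i, G.Pi (Y.t (Sum.inr i)) = X.l.a i := fun i => by
    rw [tR i, SG.Pi_mk]
    exact hX.si i
  -- the values of the blocks
  have hwd : ∀ v, H1.S3.wd (fun j => Y.ph (FreeGroup.of j)) (fun j => Y.ph (Y.W j)) (Y.bl v) =
      wrd B (fun v => X.φ (W.L.t v)) (fun v => Y.ph (W.Wv v)) (fun i => X.φ (A.a i))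
        (fun i => X.φ (B.b i)) v := by
    intro v
    rw [hY, wrd_wd G B X W T Zc f]
    refine H73.S3.wd_congr fun j _ => ?_
    rw [← hY, hhat]
    rcases j with w | i
    · exact ⟨hat_inl _ _ _ _, rfl⟩
    · refine ⟨hat_inr _ _ _ _, ?_⟩
      rw [← hhat]
      exact hpi i
  refine
    { nd := hW.nd
      bn := fun v _ => ?_
      bp := fun v j hj => ?_
      jl := fun j hj => ?_
      al := fun j hj i hi => ?_
      t1 := fun j hj => ?_
      pb := fun j hj hpj => ?_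
      pt := fun j hj hpj => ?_
      pw := fun j hj hpj => ?_
      hb := fun v hv => ?_
      rel := fun H _ _ hH θ hθ => ?_
      pg := ?_
      qe := hq
      qp := hqp
      kM := hk
      mx := hM }
  · by_cases h : v ∈ D.S0
    · rw [bl0 v h]
      exact ((List.nodup_finRange _).filter _).map Sum.inr_injective
    · rw [bl1 v h]
      exact List.nodup_singleton _
  · by_cases h : v ∈ D.S0
    · obtain ⟨i, hi, rfl⟩ := (mb0 v h j).1 hj
      exact hi
    · rw [bl1 v h, List.mem_singleton] at hj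
      rw [hj]
      exact pinl v
  · rcases j with v | i
    · have h := hJZ v hj
      refine ⟨(hW.lz v).2 (Or.inl h), ?_⟩
      rw [pinl, bl1 v (hW.zs v h)]
      exact List.mem_singleton.2 rfl
    · refine ⟨(hW.lz _).2 (Or.inr (B.mem i)), ?_⟩
      rw [pinr]
      exact (mb0 _ (B.mem i) _).2 ⟨i, rfl, rfl⟩
  · rcases j with v | i'
    · rw [pinl, bl1 v (hW.zs v (hJZ v hj)), List.mem_singleton] at hi
      rw [hi]
      exact hj
    · rw [pinr] at hi
      obtain ⟨i, -, rfl⟩ := (mb0 _ (B.mem i') _).1 hi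
      exact jinr i
  · rcases j with v | i
    · rw [jinl, not_or] at hj
      exact t1 v hj.1 hj.2
    · exact absurd (jinr i) hj
  · rcases j with v | i
    · rw [pinl]
      exact bl1 v (hW.zs v (hJZ v hj))
    · exact absurd hpj (ppr i)
  · rcases j with v | i
    · obtain ⟨s, hs⟩ := hsome v ((ppl v).1 hpj).1
      have h1 := tZ v s (mem_sp.1 ((ppl v).1 hpj).1).1 hs
      unfold AD.y
      rw [h1]
      rfl
    · exact absurd hpj (ppr i)
  · rcases j with v | i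
    · obtain ⟨h1, h2⟩ := (ppl v).1 hpj
      exact (hph v (hspZ v h1)).trans h2.2
    · exact absurd hpj (ppr i)
  · rw [wd_map, hwd v]
    unfold wrd
    by_cases h : v ∈ D.S0
    · rw [if_pos h]
      exact hW.s0 v h P hPs X.φ hX.unz.1
    · rw [if_neg h]
      show ⁅X.φ (W.L.t v), Y.ph (W.Wv v)⁆ = 1
      rw [hph v (((hW.lz v).1 hv).resolve_right h), commutatorElement_eq_one_iff_mul_comm]
      exact (hW.cm v h P hPs X.φ hX.unz.1).symm
  · have h1 := hW.rel.2.2.2 H hH θ fun v hv => hθ _ fun h => hv (hJZ v h)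
    refine Eq.trans ?_ h1
    congr 1
    apply List.map_congr_left
    intro v _
    rw [wrd_wd G B X W T Zc f]
    refine H73.S3.wd_congr fun j _ => ?_
    rcases j with w | i
    · exact ⟨rfl, rfl⟩
    · exact ⟨rfl, rfl⟩
  · have hfS : Finite (SP S P) := Finite.of_equiv _ SemidirectProduct.equivProd.symm
    rw [IsPGroup.iff_card] at hP hS ⊢
    obtain ⟨a, ha⟩ := hP
    obtain ⟨b, hb⟩ := hS
    refine ⟨b + a, ?_⟩
    rw [Nat.card_congr (SemidirectProduct.equivProd : SP S P ≃ S × P), Nat.card_prod, ha, hb,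
      pow_add]

end H62.OW
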