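import Pool.Agent.H62.OW.F2e

/-!
# [H62 OW FZI] the condition of the averaging in own letters (MP_b39724_nt, THEOREM OW, S4)

`Fh`: all the hypotheses. `κ` the crossed homomorphism of the family `η` of the data `Y` with own letters.
* `f2k`: if `κ` is honest (`κ (W_v) = 0` for all places): `X.F2 Bf τ z ζ = ∑_(pp j) κ (W j) (e j)` for all `e j ∈ K` over `⁅z, y j⁆`.
* `fz_iff`: `X.Fz Bf τ ζ` iff `κ` is honest and `κ (W j) (e) = 0` for all letters `pp`, `e ∈ K` over some `⁅z, y j⁆`, `z ∈ gam_d(S)`.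
* `ok_root`: for a letter with its own index the second condition is `κ (W j) ∘ br (y j) = 0` (the condition (O) of the box inequality).
-/

set_option autoImplicit false

open scoped commutatorElement
open scoped Classical

noncomputable section

namespace H62.OW

open H1.S3 H73.OW

open H73.S3 hiding il_inj il_mul il_inv il_one ph_of

open H24.OW

variable {S P St Pt : Type} [Group S] [Group P] [MulDistribMulAction P S] [Group St] [Group Pt]
  [MulDistribMulAction Pt St] {J V : Type}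

/-- all the hypotheses -/
structure Fh {q d : ℕ} (p k Mw k' Mw' : ℕ) (X : AD S P J V) (Y : AD St Pt J V)
    (EV : SP St Pt →* SP S P) (ev : St →* S) (K : Subgroup St) (psi : St → ZMod q)
    (Bf : ∀ i j : ℕ, Gr S i →+ Gr S j →+ ZMod q) (τ : V → St)
    (ζ : X.Jf → Dz S q d × Dz S q (d + 1)) (η : Y.Jf → Du St q d × Du St q (d + 1))
    (pr : Gr St (d + 1) →+ Gr St (d + 1)) : Prop where
  lf : Lf X Y EV ev
  okX : X.Okw p k' Mw' q
  okY : Y.Okw p k Mw q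
  ps : Psi (d := d) K ev psi Bf Pt
  jac : ∀ u ∈ gm S d, ∀ v w : S, Bf (d + 1) 1 (gk (d + 1) ⁅u, v⁆) (gk 1 w) =
    Bf d 2 (gk d u) (gk 2 ⁅v, w⁆) - Bf 1 (d + 1) (gk 1 v) (gk (d + 1) ⁅u, w⁆)
  zt : ∀ j : X.Jf, X.pp j → ∀ w ∈ gm S (d + 1),
    (ζ j).1.ap (gz d w) = Bf 1 (d + 1) (gk 1 (X.y j)) (gk (d + 1) w)
  et : ∀ (j : J) (h : j ∈ X.Jf) (h' : j ∈ Y.Jf), ¬X.pp j → ∀ u ∈ K,
    (η ⟨j, h'⟩).2.ap (gk (d + 1) u) =
      (ζ ⟨j, h⟩).2.ap (gz (d + 1) (ev u)) + psi (Dj Y τ (Y.vl τ) j u)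
  on : ∀ u ∈ gm S (d + 1), ∃ m ∈ K, ev m = u
  pe : ∀ (g : Pt) a, pr (g • a) = g • pr a
  pk : ∀ a, ∃ u ∈ K, gk (d + 1) u = pr a
  pt : ∀ j : Y.Jf, ¬Y.pp j → ∀ a, (η j).2.ap (pr a) = (η j).2.ap a

section main

variable {q d p k Mw k' Mw' : ℕ} {X : AD S P J V} {Y : AD St Pt J V} {EV : SP St Pt →* SP S P}
  {ev : St →* S} {K : Subgroup St} {psi : St → ZMod q}
  {Bf : ∀ i j : ℕ, Gr S i →+ Gr S j →+ ZMod q} {τ : V → St}
  {ζ : X.Jf → Dz S q d × Dz S q (d + 1)} {η : Y.Jf → Du St q d × Du St q (d + 1)}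
  {pr : Gr St (d + 1) →+ Gr St (d + 1)} {κ : FreeGroup J → Du St q (d + 1)}

/-- the change of the phase for an honest `κ` -/
theorem f2k [Fintype St] [NeZero q] [Finite Pt] (hp : p.Prime) (hd : 1 ≤ d)
    (h : Fh p k Mw k' Mw' X Y EV ev K psi Bf τ ζ η pr) (hκ : Y.Kx η κ)
    (hh : ∀ v ∈ Y.l, κ (wd FreeGroup.of Y.W (Y.bl v)) = 0) {z : V → S} (hz : X.Zg d z)
    {e : J → St} (he : ∀ j, e j ∈ K)
    (hez : ∀ j ∈ X.Jf, X.pp j → ev (e j) = ⁅z (X.pj j), X.y j⁆)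
    (he1 : ∀ j, ¬(j ∈ X.Jf ∧ X.pp j) → e j = 1) :
    X.F2 Bf (fun v => ev (τ v)) z ζ =
      ∑ j : Y.Jf, if Y.pp j then (κ (Y.W j)).ap (gk (d + 1) (e j)) else 0 := by
  have h1 : ∀ v, ∃ m, (m ∈ K ∧ (¬X.ppl v → ev m = z v)) ∧ (X.ppl v → m = 1) := by
    intro v
    by_cases hv : X.ppl v
    · exact ⟨1, ⟨one_mem _, fun hn => absurd hv hn⟩, fun _ => rfl⟩
    · have h2 := hz v
      rw [if_neg hv] at h2
      obtain ⟨m, hm, hmz⟩ := h.on _ h2
      exact ⟨m, ⟨hm, fun _ => hmz⟩, fun hn => absurd hn hv⟩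
  choose m hm hm1 using h1
  have he0 : ∀ j, j ∉ Y.Jf → e j = 1 := fun j hj => he1 j fun h2 => hj (h.lf.Jf ▸ h2.1)
  rw [f2e hp hd h.lf h.okX h.okY h.ps h.jac τ ζ h.zt η h.et hz (m := m) (e := e)
    (fun v => (hm v).1) he (fun v => (hm v).2) hm1 hez he1]
  have hcx := dd_cx (τ := τ) (m := m) (e := e) h.okY h.ps.st h.ps.le (fun v => (hm v).1) he he0
    fun j hj hpj => he1 j fun h2 => hpj ((h.lf.pp j).2 h2.2)
  rw [par Y hp h.okY η hκ hh hcx]
  refine Finset.sum_congr rfl fun j _ => ?_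
  by_cases hpj : Y.pp j
  · rw [if_pos hpj, if_pos hpj]
    exact congrArg _ (dd_pp h.okY h.ps.le (fun v => (hm v).1) he j.2 hpj)
  · rw [if_neg hpj, if_neg hpj]

/-- different letters `pp` have different places -/
theorem pp_inj (hX : X.Okw p k' Mw' q) {i j : J} (hi : i ∈ X.Jf) (hj : j ∈ X.Jf) (hpj : X.pp j)
    (hij : X.pj i = X.pj j) : i = j := by
  have h1 := (hX.jl i hi).2
  rw [hij, hX.pb j hj hpj, List.mem_singleton] at h1
  exact h1

/-- one place -/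
theorem f2one [Fintype St] [NeZero q] [Finite Pt] (hp : p.Prime) (hd : 1 ≤ d)
    (h : Fh p k Mw k' Mw' X Y EV ev K psi Bf τ ζ η pr) (hκ : Y.Kx η κ)
    (hh : ∀ v ∈ Y.l, κ (wd FreeGroup.of Y.W (Y.bl v)) = 0) {j : J} (hj : j ∈ X.Jf)
    (hpj : X.pp j) {e : St} (he : e ∈ K) {z : S} (hz : z ∈ gm S d) (hez : ev e = ⁅z, X.y j⁆) :
    X.Zg d (fun v => if v = X.pj j then z else 1) ∧
      X.F2 Bf (fun v => ev (τ v)) (fun v => if v = X.pj j then z else 1) ζ =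
        (κ (Y.W j)).ap (gk (d + 1) e) := by
  have hzg : X.Zg d (fun v => if v = X.pj j then z else 1) := by
    intro v
    show (if v = X.pj j then z else 1) ∈ _
    by_cases hv : v = X.pj j
    · rw [if_pos hv, if_pos ⟨j, hj, hpj, hv.symm⟩]
      exact hz
    · rw [if_neg hv]
      exact one_mem _
  refine ⟨hzg, ?_⟩
  have hj' : j ∈ Y.Jf := h.lf.Jf.symm ▸ hj
  have hpj' : Y.pp j := (h.lf.pp j).2 hpj
  rw [f2k hp hd h hκ hh hzg (e := fun i => if i = j then e else 1)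
    (fun i => by
      show (if i = j then e else 1) ∈ K
      split_ifs
      · exact he
      · exact one_mem _)
    (fun i hi hpi => by
      show ev (if i = j then e else 1) = ⁅(if X.pj i = X.pj j then z else 1), X.y i⁆
      by_cases hij : i = j
      · subst hij
        rw [if_pos rfl, if_pos rfl, hez]
      · rw [if_neg hij, if_neg fun h2 => hij (pp_inj h.okX hi hj hpj h2), map_one,
          commutatorElement_one_left])
    (fun i hi => by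
      show (if i = j then e else 1) = 1
      rw [if_neg]
      rintro rfl
      exact hi ⟨hj, hpj⟩)]
  rw [Finset.sum_eq_single ⟨j, hj'⟩]
  · rw [if_pos hpj', if_pos rfl]
  · intro i _ hij
    have h1 : (i : J) ≠ j := fun h2 => hij (Subtype.ext h2)
    rw [if_neg h1, gk_one, map_zero, ite_self]
  · intro h1
    exact absurd (Finset.mem_univ _) h1

/-- HONEST -/
theorem fz_hon [Fintype St] [NeZero q] [Finite Pt] (hp : p.Prime) (hd : 1 ≤ d)
    (h : Fh p k Mw k' Mw' X Y EV ev K psi Bf τ ζ η pr) (hκ : Y.Kx η κ)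
    (hF : X.Fz Bf (fun v => ev (τ v)) ζ) :
    ∀ v ∈ Y.l, κ (wd FreeGroup.of Y.W (Y.bl v)) = 0 := by
  refine hon_pr Y hp h.okY η pr h.pe h.pt hκ fun c a hab hc hcp => ?_
  have h1 : ∀ v, ∃ m, (m ∈ K ∧ (¬X.ppl v → gk (d + 1) m = a v)) ∧ (X.ppl v → m = 1) := by
    intro v
    by_cases hv : X.ppl v
    · exact ⟨1, ⟨one_mem _, fun hn => absurd hv hn⟩, fun _ => rfl⟩
    · obtain ⟨b, hb⟩ := hab v
      obtain ⟨m, hm, hma⟩ := h.pk b
      exact ⟨m, ⟨hm, fun _ => hma.trans hb.symm⟩, fun hn => absurd hn hv⟩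
  choose m hm hm1 using h1
  have hzg : X.Zg d fun v => ev (m v) := by
    intro v
    have h2 : ev (m v) ∈ gm S (d + 1) := gm_hm ev (h.ps.le (hm v).1)
    show ev (m v) ∈ _
    split_ifs
    · exact gm_anti d h2
    · exact h2
  have hf := hF _ hzg
  rw [f2e hp hd h.lf h.okX h.okY h.ps h.jac τ ζ h.zt η h.et hzg (m := m) (e := fun _ => 1)
    (fun v => (hm v).1) (fun _ => one_mem _) (fun _ _ => rfl) hm1 (fun j hj hpj => by
      rw [hm1 _ ⟨j, hj, hpj, rfl⟩, map_one, commutatorElement_one_left])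
    fun _ _ => rfl] at hf
  rw [← hf]
  have hcx := dd_cx (τ := τ) (m := m) (e := fun _ => 1) h.okY h.ps.st h.ps.le
    (fun v => (hm v).1) (fun _ => one_mem _) (fun _ _ => rfl) fun _ _ _ => rfl
  have hbb : ∀ j ∈ Y.Jf, ¬Y.pp j → gk (d + 1) (m (Y.pj j)) = a (Y.pj j) := by
    intro j hj hpj
    have hj' : j ∈ X.Jf := h.lf.Jf ▸ hj
    have h2 : ¬X.ppl (Y.pj j) := by
      rw [h.lf.pj]
      exact ppl_bb h.okX hj' fun h3 => hpj ((h.lf.pp j).2 h3)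
    exact (hm _).2 h2
  have hce : c = fun w => gk (d + 1) (dd Y τ m (fun _ => 1) w) := by
    let iM : DistribMulAction (FreeGroup J) (Gr St (d + 1)) := H71.S3.fact Y.ph
    refine ch_ext (N := Gr St (d + 1)) hc.ch hcx.ch fun j => ?_
    by_cases hj : j ∈ Y.Jf
    · by_cases hpj : Y.pp j
      · rw [hcp j hj hpj]
        refine ((dd_pp h.okY h.ps.le (fun v => (hm v).1) (fun _ => one_mem _) hj hpj).trans
          (gk_one _)).symm
      · rw [hc.bb j hj hpj, hcx.bb j hj hpj, hbb j hj hpj]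
    · rw [hc.of j hj, hcx.of j hj]
  rw [hce]
  unfold AD.Fp
  refine Finset.sum_congr rfl fun j _ => ?_
  split_ifs with hpj
  · rfl
  · beta_reduce
    rw [hbb j j.2 hpj]

/-- THE CONDITION OF THE AVERAGING IN OWN LETTERS -/
theorem fz_iff [Fintype St] [NeZero q] [Finite Pt] (hp : p.Prime) (hd : 1 ≤ d)
    (h : Fh p k Mw k' Mw' X Y EV ev K psi Bf τ ζ η pr) (hκ : Y.Kx η κ) :
    X.Fz Bf (fun v => ev (τ v)) ζ ↔ (∀ v ∈ Y.l, κ (wd FreeGroup.of Y.W (Y.bl v)) = 0) ∧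
      ∀ j ∈ X.Jf, X.pp j → ∀ e ∈ K, ∀ z ∈ gm S d, ev e = ⁅z, X.y j⁆ →
        (κ (Y.W j)).ap (gk (d + 1) e) = 0 := by
  constructor
  · intro hF
    have hh := fz_hon hp hd h hκ hF
    refine ⟨hh, fun j hj hpj e he z hz hez => ?_⟩
    obtain ⟨h1, h2⟩ := f2one hp hd h hκ hh hj hpj he hz hez
    rw [← h2]
    exact hF _ h1
  · rintro ⟨hh, hO⟩ z hz
    have h1 : ∀ j, ∃ e, (e ∈ K ∧ (j ∈ X.Jf → X.pp j → ev e = ⁅z (X.pj j), X.y j⁆)) ∧
        (¬(j ∈ X.Jf ∧ X.pp j) → e = 1) := by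
      intro j
      by_cases hj : j ∈ X.Jf ∧ X.pp j
      · have h2 := hz (X.pj j)
        rw [if_pos ⟨j, hj.1, hj.2, rfl⟩] at h2
        obtain ⟨e, he, hez⟩ := h.on _ (gm_comm d h2 : ⁅z (X.pj j), X.y j⁆ ∈ gm S (d + 1))
        exact ⟨e, ⟨he, fun _ _ => hez⟩, fun hn => absurd hj hn⟩
      · exact ⟨1, ⟨one_mem _, fun h2 h3 => absurd ⟨h2, h3⟩ hj⟩, fun _ => rfl⟩
    choose e he he1 using h1
    rw [f2k hp hd h hκ hh hz (fun j => (he j).1) (fun j hj hpj => (he j).2 hj hpj) he1]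
    refine Finset.sum_eq_zero fun j _ => ?_
    split_ifs with hpj
    · have hj' : (j : J) ∈ X.Jf := h.lf.Jf ▸ j.2
      have hpj' : X.pp j := (h.lf.pp j).1 hpj
      have h2 := hz (X.pj j)
      rw [if_pos ⟨j, hj', hpj', rfl⟩] at h2
      exact hO j hj' hpj' _ (he j).1 _ h2 ((he j).2 hj' hpj')
    · rfl

/-- the condition at a letter with its own index -/
theorem ok_root [Fintype St] [NeZero q] [Finite Pt] (hp : p.Prime) (hd : 1 ≤ d)
    (h : Fh p k Mw k' Mw' X Y EV ev K psi Bf τ ζ η pr) (hκ : Y.Kx η κ)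
    (hh : ∀ v ∈ Y.l, κ (wd FreeGroup.of Y.W (Y.bl v)) = 0) {j : J} (hj : j ∈ X.Jf)
    (hpj : X.pp j) (K' : Subgroup St) (hK' : ∀ u ∈ K', ⁅u, Y.y j⁆ ∈ K)
    (hon : ∀ z ∈ gm S d, ∃ u ∈ K', u ∈ gm St d ∧ ev u = z)
    (hpr : ∀ u ∈ gm St d, ∃ u' ∈ K', u' ∈ gm St d ∧
      pr (br d (Y.y j) (gk d u)) = br d (Y.y j) (gk d u')) :
    (∀ e ∈ K, ∀ z ∈ gm S d, ev e = ⁅z, X.y j⁆ → (κ (Y.W j)).ap (gk (d + 1) e) = 0) ↔
      ∀ z : Gr St d, (κ (Y.W j)).ap (br d (Y.y j) z) = 0 := by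
  have hj' : j ∈ Y.Jf := h.lf.Jf.symm ▸ hj
  have hpj' : Y.pp j := (h.lf.pp j).2 hpj
  have hy : ev (Y.y j) = X.y j := by
    have h1 := h.lf.t j
    rw [h.okY.pt j hj' hpj', h.lf.il, h.okX.pt j hj hpj] at h1
    exact H71.S3.il_inj h1
  have hneg : ∀ u ∈ gm St d, gk (d + 1) ⁅u, Y.y j⁆ = -br d (Y.y j) (gk d u) := by
    intro u hu
    rw [br_gk _ hu, ← commutatorElement_inv u (Y.y j), gk_inv (gm_comm d hu), neg_neg]
  constructor
  · intro hO z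
    obtain ⟨u, hu, rfl⟩ := gk_surj d z
    obtain ⟨u', hu', hu'd, h1⟩ := hpr u hu
    rw [← kx_pr Y hp h.okY d η pr h.pe h.pt hκ, h1]
    have h2 := hO _ (hK' _ hu') _ (gm_hm ev hu'd) (by rw [map_commutatorElement, hy])
    rw [hneg _ hu'd, map_neg, neg_eq_zero] at h2
    exact h2
  · intro hO e he z hz hez
    obtain ⟨u, hu, hud, huz⟩ := hon z hz
    have h1 := (f2one hp hd h hκ hh hj hpj he hz hez).2
    have h2 := (f2one hp hd h hκ hh hj hpj (hK' _ hu) hz (by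
      rw [map_commutatorElement, hy, huz])).2
    rw [← h1, h2, hneg _ hud, map_neg, hO, neg_zero]

end main

end H62.OW
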