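import Pool.Agent.H62.OW.Fzn
import Pool.Agent.H48.OW.Cls

/-!
# [H62 OW FZQ] the condition of the averaging in the notation of H48/OW/Cls (MP_b39724_nt, THEOREM OW, S4, (c4))

* `dj_jf`: `Dj Y τ x j u` depends only on the `x i`, `i ∈ Jf`.
* `O2q f w χ`: `OK2` for the letter of `f` at `w`. `o2_b`, `o2_v`: it depends only on the label. `o2_br`: it implies the condition (O) at the letters with own index.
* `fzq`: the hypothesis `hfz` of `H70.OW.cel_fq` (for `hx = etX`, `rz = hx`): `η` with the values `ka` at any values `x0` of the class.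
-/

set_option autoImplicit false

open scoped NumberField commutatorElement
open IsDedekindDomain
open scoped Classical

noncomputable section

namespace H62.OW

open H63.MA H38.BB H38.BG H57.PC H57.BRA H77.WD H77.WE H77.PC3 H35.CF H35.UB H77.S3 H1.S3
  H73.OW H82.S3 H12.OW H48.OW

open H73.S3 hiding il_inj il_mul il_inv il_one ph_of wd_congr wd_map

open H24.OW (Dj PK)

open H88.OW (QB etX xf Rh)

section dj

variable {S P : Type} [Group S] [Group P] [MulDistribMulAction P S] {J V : Type} (Y : AD S P J V)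

theorem bk_jf (h1 : ∀ j, j ∉ Y.Jf → Y.t j = 1) {x x' : J → SP S P} (hx : ∀ j ∈ Y.Jf, x j = x' j)
    (l : List J) : H1.S3.wd Y.t x l = H1.S3.wd Y.t x' l := by
  unfold H1.S3.wd
  congr 1
  refine List.map_congr_left fun j _ => ?_
  by_cases hj : j ∈ Y.Jf
  · rw [hx j hj]
  · rw [h1 j hj, commutatorElement_one_left, commutatorElement_one_left]

/-- the part of a letter depends only on the values at `Jf` -/
theorem dj_jf (h1 : ∀ j, j ∉ Y.Jf → Y.t j = 1) {x x' : J → SP S P} (hx : ∀ j ∈ Y.Jf, x j = x' j)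
    (τ : V → S) {j : J} (hj : j ∈ Y.Jf) (u : S) :
    H24.OW.Dj Y τ x j u = H24.OW.Dj Y τ x' j u := by
  have h2 : H24.OW.pf Y τ x (Y.pj j) = H24.OW.pf Y τ x' (Y.pj j) := by
    unfold H24.OW.pf
    congr 1
    refine List.map_congr_left fun w _ => ?_
    unfold AD.bk
    rw [bk_jf Y h1 hx]
  unfold H24.OW.Dj H24.OW.cn
  rw [h2, bk_jf Y h1 hx, hx j hj]

end dj

variable {K : Type} [Field K] [NumberField K] {Ω : Type} [Field Ω] [Algebra K Ω]
  {p N : ℕ} {ζ : K} {D : RD0 K p ζ} {Q : DP K Ω} {A : GS D Ω} {P : Type} [Group P] {hp : p.Prime}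
  {c : CL p N P} {M : ℕ} {Pa : Par}

section o2

variable {q d : ℕ}

variable (hp M Pa) in
/-- `OK2` for the letter of `f` at `w` -/
def O2q (f : Pl K → Option (Elb2 c (Sp Pa (Px c)) q d)) (w : Pl K)
    (χ : Du (So hp c M Pa) q (d + 1)) : Prop :=
  ∀ a, lf2 f w = some a → OK2 Pa (owl hp c M) (sy Pa a) χ

/-- the letter at a fixed place -/
theorem o2_b {b : Pl K → Option (Elb2 c (Sp Pa (Px c)) q d)} {n : ℕ} {v : Fin n → Pl K}
    {l : Fin n → Elb2 c (Sp Pa (Px c)) q d} {w : Pl K} (hw : ∀ k, v k ≠ w)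
    (χ : Du (So hp c M Pa) q (d + 1)) : O2q hp M Pa (up b v l) w χ ↔ O2q hp M Pa b w χ := by
  unfold O2q lf2 up
  rw [dif_neg fun h => hw _ h.choose_spec]

/-- the letter at a variable place -/
theorem o2_v {b : Pl K → Option (Elb2 c (Sp Pa (Px c)) q d)} {n : ℕ} {v : Fin n → Pl K}
    (hv : Function.Injective v) {l : Fin n → Elb2 c (Sp Pa (Px c)) q d} (k : Fin n)
    (χ : Du (So hp c M Pa) q (d + 1)) :
    O2q hp M Pa (up b v l) (v k) χ ↔ OK2 Pa (owl hp c M) (sy Pa (l k).1) χ := by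
  have h : ∃ j, v j = v k := ⟨k, rfl⟩
  have h1 : up b v l (v k) = some (l k) := by
    unfold up
    rw [dif_pos h, hv h.choose_spec]
  unfold O2q lf2
  rw [h1]
  constructor
  · intro h2
    exact h2 _ rfl
  · rintro h2 a ha
    have h3 : (l k).1 = a := Option.some_injective _ ha
    rw [← h3]
    exact h2

/-- THE CONDITION (O) at a letter with own index -/
theorem o2_br {G' : SG (cO hp c M) (So hp c M Pa)} (hG' : ∀ x, G'.y x = sy Pa x) {a : Px c}
    {χ : Du (So hp c M Pa) q (d + 1)} (h : OK2 Pa (owl hp c M) (sy Pa a) χ) (k : Fin M)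
    (z : Gr (So hp c M Pa) d) : χ.ap (br d (G'.y (mkx a (some k))) z) = 0 := by
  have h1 : (owl hp c M).pk a (some k) = mkx a (some k) := rfl
  refine ok2_br h (i := k) ?_ ?_ (fun j hj => ?_) z
  · rw [hG', OwL.ev_sy]
    rfl
  · rw [hG', OwL.ki_sy, if_neg]
    rw [← h1, OwL.ow_pk]
    exact not_not.2 rfl
  · rw [hG', OwL.ki_sy, if_pos]
    rw [← h1, OwL.ow_pk]
    exact fun h2 => hj (Option.some_injective _ h2).symm

end o2

section fz

variable {G : SG c (Sp Pa (Px c))} {B : SD D Q A} {X : FD A P (Sp Pa (Px c))} {W : WF A} {T : ℝ}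
  {Zc : Finset (Pl K)}

/-- `fzn` with a name for the letters -/
theorem fzn' {G' : SG (cO hp c M) (So hp c M Pa)} {q d e k Mw Mw' k' : ℕ} [NeZero q] [Finite P]
    [Finite (Sp Pa (Px c))] [Finite (So hp c M Pa)] (hd : 1 ≤ d) (hM : M = d + 1)
    (hG : ∀ x, G.y x = sy Pa x) (hG' : ∀ x, G'.y x = sy Pa x) (hZ : Disjoint Zc X.E)
    {g : Pl K → Option (Px (cO hp c M))} {f' : Pl K → Option (Px c)} (hf' : fe g = f')
    (okX : (adf G B X W T Zc f').Okw p k' Mw' q)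
    (okY : (adf G' B (fdo hp c M X) W T Zc g).Okw p k Mw q) {R : Subgroup P}
    {x : (Px c → Du (Sp Pa (Px c)) q (d + 1)) × (P → Du (Sp Pa (Px c)) q (d + 1 + 1))}
    {Bf : ∀ i j : ℕ, Gr (Sp Pa (Px c)) i →+ Gr (Sp Pa (Px c)) j →+ ZMod q}
    (hQ : QB G.y e R x.1 x.2 Bf) {psi : So hp c M Pa → ZMod q}
    (ps : Psi (d := d) ((owl hp c M).Kk Pa Finset.univ) ((owl hp c M).ev Pa) psi Bf (P × Ci p M))
    {τ : Pl K → So hp c M Pa}
    {ze : (adf G B X W T Zc f').Jf → Dz (Sp Pa (Px c)) q d × Dz (Sp Pa (Px c)) q (d + 1)}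
    (hz : (adf G B X W T Zc f').rz ze = etX G B X W T Zc f' x)
    {η : (adf G' B (fdo hp c M X) W T Zc g).Jf →
      Du (So hp c M Pa) q d × Du (So hp c M Pa) q (d + 1)}
    (et : ∀ (j : Pl K ⊕ Fin A.g) (h : j ∈ (adf G B X W T Zc f').Jf)
      (h' : j ∈ (adf G' B (fdo hp c M X) W T Zc g).Jf), ¬(adf G B X W T Zc f').pp j →
      ∀ u ∈ (owl hp c M).Kk Pa Finset.univ, (η ⟨j, h'⟩).2.ap (gk (d + 1) u) =
        (ze ⟨j, h⟩).2.ap (gz (d + 1) ((owl hp c M).ev Pa u)) +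
          psi (Dj (adf G' B (fdo hp c M X) W T Zc g) τ
            ((adf G' B (fdo hp c M X) W T Zc g).vl τ) j u))
    (pt : ∀ j : (adf G' B (fdo hp c M X) W T Zc g).Jf, ¬(adf G' B (fdo hp c M X) W T Zc g).pp j →
      ∀ a, (η j).2.ap ((owl hp c M).pj Pa Finset.univ (d + 1) a) = (η j).2.ap a)
    {κ : FW A → Du (So hp c M Pa) q (d + 1)} (hκ : (adf G' B (fdo hp c M X) W T Zc g).Kx η κ) :
    (adf G B X W T Zc f').Fz Bf (fun v => (owl hp c M).ev Pa (τ v)) ze ↔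
      (∀ v ∈ W.l, κ (wd FreeGroup.of (adf G' B (fdo hp c M X) W T Zc g).W
        ((adf G' B (fdo hp c M X) W T Zc g).bl v)) = 0) ∧
      ∀ v, v ∈ sp Zc g → PPc X W T v → ∀ a, g v = some a →
        OK2 Pa (owl hp c M) (sy Pa (fs a)) (κ (W.Wv v)) := by
  subst hf'
  exact fzn hd hM hG hG' hZ okX okY hQ ps hz et pt hκ

/-- THE HYPOTHESIS `hfz` OF THE CELL IDENTITY -/
theorem fzq {q d : ℕ} {G' : SG (cO hp c (d + 1)) (So hp c (d + 1) Pa)} [NeZero q] [Finite P]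
    [Finite (Sp Pa (Px c))] [Finite (So hp c (d + 1) Pa)]
    (hG : ∀ x, G.y x = sy Pa x) (hG' : ∀ x, G'.y x = sy Pa x) (hZ : Disjoint Zc X.E)
    {Bf : ∀ i j : ℕ, Gr (Sp Pa (Px c)) i →+ Gr (Sp Pa (Px c)) j →+ ZMod q}
    (τ₀ : Pl K → Sp Pa (Px c)) (e₀ : Pl K ⊕ Fin A.g → El2 (Sp Pa (Px c)) P q d)
    (f : Pl K → Option (Elb2 c (Sp Pa (Px c)) q d)) (v : Fin (d + 1) → Pl K) {e k Mw k' Mw' : ℕ}
    (okX : (adx2 G B X W T Zc f).Okw p k' Mw' q) (hok : (Yq G' B X W T Zc f v).Okw p k Mw q)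
    (hO : Own (owl hp c (d + 1)) (Yq G' B X W T Zc f v) (H93.OW.ixv v))
    {psi : So hp c (d + 1) Pa → ZMod q}
    (hps : PK (P × Ci p (d + 1)) ((owl hp c (d + 1)).Kk Pa Finset.univ) psi (d + 1))
    (hcom : ∀ i j : ℕ, 1 ≤ i → 1 ≤ j → i + j = d + 2 → ∀ J J' : Finset (Fin (d + 1)),
      J ∪ J' = Finset.univ → ∀ u ∈ (owl hp c (d + 1)).Kk Pa J, u ∈ gm (So hp c (d + 1) Pa) i →
      ∀ w ∈ (owl hp c (d + 1)).Kk Pa J', w ∈ gm (So hp c (d + 1) Pa) j →
        psi ⁅u, w⁆ =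
          -Bf i j (gk i ((owl hp c (d + 1)).ev Pa u)) (gk j ((owl hp c (d + 1)).ev Pa w)))
    (hd : 2 ≤ d) {R : Subgroup P}
    {x : (Px c → Du (Sp Pa (Px c)) q (d + 1)) × (P → Du (Sp Pa (Px c)) q (d + 1 + 1))}
    (hQ : QB G.y e R x.1 x.2 Bf)
    (hrz : (adx2 G B X W T Zc f).rz ((adx2 G B X W T Zc f).et2 (ef2 e₀ f)) =
      etX G B X W T Zc (lf2 f) x)
    (x0 : Pl K ⊕ Fin A.g → SP (So hp c (d + 1) Pa) (P × Ci p (d + 1)))
    (hm : ∀ j ∈ (Yq G' B X W T Zc f v).Jf, ∃ g ∈ Kj hp c Pa B v j,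
      xq G' B X W T Zc τ₀ f v j = il g * x0 j)
    (η : Pl K ⊕ Fin A.g → Du (So hp c (d + 1) Pa) q d × Du (So hp c (d + 1) Pa) q (d + 1))
    (hη : ∀ j ∈ (Yq G' B X W T Zc f v).Jf, ¬(Yq G' B X W T Zc f v).pp j →
      ∀ g ∈ (owl hp c (d + 1)).Kk Pa Finset.univ, (η j).2.ap (gk (d + 1) g) =
        (ef2 e₀ f j).1.2.ap (gz (d + 1) ((owl hp c (d + 1)).ev Pa g)) +
        psi (Dj (Yq G' B X W T Zc f v) (tq hp τ₀ f) x0 j g))
    (pt : ∀ j ∈ (Yq G' B X W T Zc f v).Jf, ¬(Yq G' B X W T Zc f v).pp j →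
      ∀ a, (η j).2.ap ((owl hp c (d + 1)).pj Pa Finset.univ (d + 1) a) = (η j).2.ap a) :
    (adx2 G B X W T Zc f).Fz Bf (tf2 τ₀ f) ((adx2 G B X W T Zc f).et2 (ef2 e₀ f)) ↔
      (∀ w ∈ W.l, (Yq G' B X W T Zc f v).kk (fun j : (Yq G' B X W T Zc f v).Jf => η j)
          (wd FreeGroup.of (Yq G' B X W T Zc f v).W ((Yq G' B X W T Zc f v).bl w)) = 0) ∧
        ∀ w ∈ sp Zc f, PPc X W T w → O2q hp (d + 1) Pa f w
          ((Yq G' B X W T Zc f v).kk (fun j : (Yq G' B X W T Zc f v).Jf => η j) (W.Wv w)) := by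
  have hfS : Fintype (So hp c (d + 1) Pa) := Fintype.ofFinite _
  have hp0 : NeZero p := ⟨hp.ne_zero⟩
  have hfC : Finite (Ci p (d + 1)) := inferInstanceAs (Finite (Fin (d + 1) → ZMod p))
  have hfP : Finite (P × Ci p (d + 1)) := inferInstance
  obtain ⟨κ, hκ⟩ := kx_exw (Yq G' B X W T Zc f v) hp hok d
    (fun j : (Yq G' B X W T Zc f v).Jf => η j)
  have hkk : (Yq G' B X W T Zc f v).Kx (fun j : (Yq G' B X W T Zc f v).Jf => η j)
      ((Yq G' B X W T Zc f v).kk fun j : (Yq G' B X W T Zc f v).Jf => η j) := by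
    have h1 : ∃ k, (Yq G' B X W T Zc f v).Kx (fun j : (Yq G' B X W T Zc f v).Jf => η j) k :=
      ⟨κ, hκ⟩
    unfold AD.kk
    rw [dif_pos h1]
    exact h1.choose_spec
  -- the values
  have hst := kst_own hO hps hd (Fintype.card_fin _)
  have hno : ∀ j ∈ (Yq G' B X W T Zc f v).Jf, ¬(Yq G' B X W T Zc f v).pp j →
      H93.OW.ixv v ((Yq G' B X W T Zc f v).pj j) = none := by
    intro j hj hpj
    rcases hr : H93.OW.ixv v ((Yq G' B X W T Zc f v).pj j) with _ | i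
    · rfl
    · obtain ⟨j', -, hp', hb, -⟩ := hO.rt _ (hO.jl j hj).1 i hr
      have e := (hO.jl j hj).2
      rw [hb, List.mem_singleton] at e
      rw [e] at hpj
      exact absurd hp' hpj
  have hdj : ∀ j ∈ (Yq G' B X W T Zc f v).Jf, ¬(Yq G' B X W T Zc f v).pp j →
      ∀ u ∈ (owl hp c (d + 1)).Kk Pa Finset.univ,
      psi (Dj (Yq G' B X W T Zc f v) (tq hp τ₀ f) (xq G' B X W T Zc τ₀ f v) j u) =
        psi (Dj (Yq G' B X W T Zc f v) (tq hp τ₀ f) x0 j u) := by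
    intro j hj hpj u hu
    have h1 : ∀ i : (Yq G' B X W T Zc f v).Jf, ∃ g, g ∈ (owl hp c (d + 1)).Kk Pa
        (Tv (H93.OW.ixv v) ((Yq G' B X W T Zc f v).pj i)) ∧
        xq G' B X W T Zc τ₀ f v i = il g * x0 i := fun i => by
      obtain ⟨g, hg, h2⟩ := hm i i.2
      exact ⟨g, hg, h2⟩
    choose g hg hgx using h1
    have h3 : ∀ i ∈ (Yq G' B X W T Zc f v).Jf, xq G' B X W T Zc τ₀ f v i =
        (Yq G' B X W T Zc f v).mv g x0 i := by
      intro i hi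
      unfold AD.mv
      rw [dif_pos hi, hgx ⟨i, hi⟩]
    rw [dj_jf (Yq G' B X W T Zc f v) hok.t1 h3 _ hj]
    have h4 := hst.dj_inv (tq hp τ₀ f) (z := fun _ => 1) (fun _ _ => one_mem _) x0 hg hj (u := u)
      (by rw [tv_none (hno j hj hpj)]; exact hu)
    simp only [mul_one] at h4
    exact h4
  have hev : (fun w => (owl hp c (d + 1)).ev Pa (tq hp τ₀ f w)) = tf2 τ₀ f :=
    funext fun w => ev_tq τ₀ f w
  have hps2 : Psi (d := d) ((owl hp c (d + 1)).Kk Pa Finset.univ) ((owl hp c (d + 1)).ev Pa) psi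
      Bf (P × Ci p (d + 1)) :=
    psi_own (Fintype.card_fin _) hps.add hps.bot fun i j hi hj hij J J' hJ =>
      hcom i j hi hj hij J J' (by
        refine Eq.mp ?_ hJ
        congr
        exact Subsingleton.elim _ _)
  have hmain := fzn' (η := fun j : (Yq G' B X W T Zc f v).Jf => η j) (by omega : 1 ≤ d) rfl hG hG'
    hZ (fe_gq f v) okX hok hQ hps2 (τ := tq hp τ₀ f) hrz (fun j h h' hpj u hu => by
      have hpj' : ¬(Yq G' B X W T Zc f v).pp j := by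
        intro h2
        refine hpj ?_
        have h3 := (ado_pp (G := G) (X := X) (B := B) (W := W) (T := T) (Zc := Zc)
          (g := gq hp f v) j).1 h2
        rw [fe_gq] at h3
        exact h3
      refine (hη j h' hpj' u hu).trans ?_
      rw [← hdj j h' hpj' u hu]
      rfl) (fun j hpj a => pt j j.2 hpj a) hkk
  rw [hev] at hmain
  rw [hmain]
  refine and_congr Iff.rfl ?_
  have hsp : ∀ w, w ∈ sp Zc (gq hp f v) ↔ w ∈ sp Zc f := by
    intro w
    rw [← sp_fe, fe_gq, mem_sp, mem_sp]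
    refine and_congr_right fun _ => not_congr ?_
    unfold lf2
    rw [Option.map_eq_none_iff]
  constructor
  · intro h w hw hpw a ha
    have h1 : fe (gq hp f v) w = some a := by rw [fe_gq, ha]
    unfold fe at h1
    obtain ⟨b, hb, hb'⟩ := Option.map_eq_some_iff.1 h1
    rw [← hb']
    exact h w ((hsp w).2 hw) hpw b hb
  · intro h w hw hpw a ha
    refine h w ((hsp w).1 hw) hpw (fs a) ?_
    rw [← fe_gq (hp := hp) f v]
    unfold fe
    rw [ha]
    rfl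

end fz

end H62.OW
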