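import Pool.Agent.H62.OW.Par
import Pool.Agent.H24.OW.Rch

/-!
# [H62 OW CHD] the change of the evaluation, conjugators and letters (MP_b39724_nt, THEOREM OW, S4)

`τ ↦ τ m`, `t j ↦ il (e j) * t j` (`AD.lc e`), `m v`, `e j` in a subgroup `K` which is stable under conjugation in `SP S P`.
* `dd τ m e w`: the evaluation changes by it, `dd ∈ K`. `ud τ m e j`: the change of the value of the letter `j`, `ud ∈ K`.
* `K ≤ gam_n`: the classes `gk n (dd w)` form a crossed homomorphism of type `AD.Cx`; `ud_gk`: the classes of `ud`.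
-/

set_option autoImplicit false

open scoped commutatorElement
open scoped Classical

noncomputable section

namespace H62.OW

open H1.S3

open H73.S3 hiding il_inj il_mul il_inv il_one ph_of

open H71.S3 (cjl cjl_il cjl_mem cjl_gk il_mul il_inv il_one il_inj il_of il_right sp_right sp_right_inv th_rt th_of
  cj_right cj_cj cj_one cj_id)

open H24.OW (cjl_mul cjl_inv cjl_cjl cjl_one one_cjl il_cjl)

variable {S P : Type} [Group S] [Group P] [MulDistribMulAction P S] {J V : Type}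
  (X : AD S P J V) (τ m : V → S) (e : J → S)

theorem lc_pj (j : J) : (X.lc e).pj j = X.pj j := rfl

theorem lc_t (j : J) : (X.lc e).t j = il (e j) * X.t j := rfl

/-- the change of the evaluation -/
def dd (w : FreeGroup J) : S :=
  ((X.lc e).th (fun v => τ v * m v) w * (X.th τ w)⁻¹).left

theorem dd_il (w : FreeGroup J) :
    (X.lc e).th (fun v => τ v * m v) w = il (dd X τ m e w) * X.th τ w := by
  have h1 : ((X.lc e).th (fun v => τ v * m v) w * (X.th τ w)⁻¹).right = 1 := by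
    rw [sp_right, sp_right_inv, th_rt, th_rt, lc_ph, mul_inv_cancel]
  rw [← inv_mul_cancel_right ((X.lc e).th (fun v => τ v * m v) w) (X.th τ w)]
  conv_lhs => rw [il_of h1]
  rfl

theorem dd_mul (a b : FreeGroup J) :
    dd X τ m e (a * b) = dd X τ m e a * cjl (X.th τ a) (dd X τ m e b) := by
  apply il_inj (P := P)
  have h1 := dd_il X τ m e (a * b)
  rw [map_mul, map_mul, dd_il, dd_il X τ m e b] at h1
  rw [il_mul, ← cjl_il]
  have h2 : (il (dd X τ m e (a * b)) : SP S P) = (il (dd X τ m e a) * X.th τ a *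
      (il (dd X τ m e b) * X.th τ b)) * (X.th τ a * X.th τ b)⁻¹ := by
    rw [h1]
    group
  rw [h2]
  group

theorem dd_one : dd X τ m e 1 = 1 := by
  have h := dd_mul X τ m e 1 1
  rw [mul_one, map_one, one_cjl] at h
  exact left_eq_mul.mp h

theorem dd_inv (a : FreeGroup J) : dd X τ m e a⁻¹ = cjl (X.th τ a)⁻¹ (dd X τ m e a)⁻¹ := by
  have h := dd_mul X τ m e a a⁻¹
  rw [mul_inv_cancel, dd_one] at h
  have h2 : cjl (X.th τ a) (dd X τ m e a⁻¹) = (dd X τ m e a)⁻¹ := (inv_eq_of_mul_eq_one_right h.symm).symm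
  rw [← h2, cjl_cjl, inv_mul_cancel, one_cjl]

theorem dd_of (j : J) : dd X τ m e (FreeGroup.of j) =
    τ (X.pj j) * (m (X.pj j) * e j * cjl (X.t j) (m (X.pj j))⁻¹) * (τ (X.pj j))⁻¹ := by
  apply il_inj (P := P)
  have h1 := dd_il X τ m e (FreeGroup.of j)
  rw [th_of, th_of, lc_pj, lc_t] at h1
  rw [il_mul, il_mul, il_mul, il_mul, ← cjl_il, il_inv, il_inv]
  have h2 : (il (dd X τ m e (FreeGroup.of j)) : SP S P) =
      cj (τ (X.pj j) * m (X.pj j)) (il (e j) * X.t j) * (cj (τ (X.pj j)) (X.t j))⁻¹ := by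
    rw [h1]
    group
  rw [h2]
  unfold cj
  rw [il_mul]
  group

/-- the change of the values -/
def ud (j : J) : S :=
  (m (X.pj j))⁻¹ * ((τ (X.pj j))⁻¹ * dd X τ m e (X.W j) * τ (X.pj j)) *
    cjl (X.vl τ j) (m (X.pj j))

theorem ud_il (j : J) :
    (X.lc e).vl (fun v => τ v * m v) j = il (ud X τ m e j) * X.vl τ j := by
  unfold ud
  rw [il_mul, ← cjl_il, il_mul, il_mul, il_mul, il_inv, il_inv]
  have h1 : (X.lc e).vl (fun v => τ v * m v) j =
      cj (τ (X.pj j) * m (X.pj j))⁻¹ ((X.lc e).th (fun v => τ v * m v) (X.W j)) := rfl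
  rw [h1, dd_il]
  unfold AD.vl cj
  simp only [il_mul, il_inv, mul_inv_rev, inv_inv]
  group

variable {X τ m e} {K : Subgroup S}

theorem dd_mem (hK : ∀ (g : SP S P), ∀ u ∈ K, cjl g u ∈ K) (hm : ∀ v, m v ∈ K) (he : ∀ j, e j ∈ K)
    (w : FreeGroup J) : dd X τ m e w ∈ K := by
  have hc : ∀ s : S, ∀ u ∈ K, s * u * s⁻¹ ∈ K := fun s u hu => by
    have h := hK (il s) u hu
    rwa [il_cjl] at h
  refine FreeGroup.induction_on w ?_ ?_ ?_ ?_
  · rw [dd_one]
    exact one_mem _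
  · intro j
    rw [dd_of]
    exact hc _ _ (mul_mem (mul_mem (hm _) (he _)) (hK _ _ (inv_mem (hm _))))
  · intro j h
    rw [dd_inv]
    exact hK _ _ (inv_mem h)
  · intro a b ha hb
    rw [dd_mul]
    exact mul_mem ha (hK _ _ hb)

theorem ud_mem (hK : ∀ (g : SP S P), ∀ u ∈ K, cjl g u ∈ K) (hm : ∀ v, m v ∈ K) (he : ∀ j, e j ∈ K)
    (j : J) : ud X τ m e j ∈ K := by
  unfold ud
  refine mul_mem (mul_mem (inv_mem (hm _)) ?_) (hK _ _ (hm _))
  have h := hK (il (τ (X.pj j))⁻¹) _ (dd_mem hK hm he (X.W j) : dd X τ m e (X.W j) ∈ K)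
  rwa [il_cjl, inv_inv] at h

variable {p k Mw q n : ℕ}

/-- the classes of the change of the evaluation -/
theorem dd_cx (hX : X.Okw p k Mw q) (hK : ∀ (g : SP S P), ∀ u ∈ K, cjl g u ∈ K)
    (hn : K ≤ gm S n) (hm : ∀ v, m v ∈ K) (he : ∀ j, e j ∈ K) (he0 : ∀ j, j ∉ X.Jf → e j = 1)
    (heb : ∀ j ∈ X.Jf, ¬X.pp j → e j = 1) :
    X.Cx (fun w => gk n (dd X τ m e w)) (fun v => gk n (m v)) := by
  have hd := fun w => hn (dd_mem hK hm he w : dd X τ m e w ∈ K)
  have key : ∀ j, gk n (dd X τ m e (FreeGroup.of j)) =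
      gk n (m (X.pj j)) + gk n (e j) - X.ph (FreeGroup.of j) • gk n (m (X.pj j)) := by
    intro j
    have h1 := hn (hm (X.pj j))
    have h2 := hn (he j)
    have h3 := cjl_mem (X.t j) (inv_mem h1)
    rw [dd_of, gk_conj (mul_mem (mul_mem h1 h2) h3), gk_mul (mul_mem h1 h2) h3, gk_mul h1 h2,
      cjl_gk _ (inv_mem h1), gk_inv h1, smul_neg, H71.S3.ph_of, ← sub_eq_add_neg]
  refine ⟨fun a b => ?_, fun j hj => ?_, fun j hj hpj => ?_⟩
  · show gk n (dd X τ m e (a * b)) = _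
    rw [dd_mul, gk_mul (hd a) (cjl_mem _ (hd b)), cjl_gk _ (hd b), th_rt]
  · show gk n (dd X τ m e (FreeGroup.of j)) = 0
    rw [key j, he0 j hj, gk_one, add_zero, H71.S3.ph_of, hX.t1 j hj]
    show gk n (m (X.pj j)) - (1 : P) • gk n (m (X.pj j)) = 0
    rw [one_smul, sub_self]
  · show gk n (dd X τ m e (FreeGroup.of j)) = _
    rw [key j, heb j hj hpj, gk_one, add_zero]

/-- the classes at the letters `pp` -/
theorem dd_pp (hX : X.Okw p k Mw q)
    (hn : K ≤ gm S n) (hm : ∀ v, m v ∈ K) (he : ∀ j, e j ∈ K) {j : J} (hj : j ∈ X.Jf)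
    (hpj : X.pp j) : gk n (dd X τ m e (FreeGroup.of j)) = gk n (e j) := by
  have h1 := hn (hm (X.pj j))
  have h2 := hn (he j)
  have h3 := cjl_mem (X.t j) (inv_mem h1)
  rw [dd_of, gk_conj (mul_mem (mul_mem h1 h2) h3), gk_mul (mul_mem h1 h2) h3, gk_mul h1 h2,
    cjl_gk _ (inv_mem h1), gk_inv h1, hX.pt j hj hpj, il_right, one_smul]
  abel

/-- the classes of the change of the values -/
theorem ud_gk (hK : ∀ (g : SP S P), ∀ u ∈ K, cjl g u ∈ K)
    (hn : K ≤ gm S n) (hm : ∀ v, m v ∈ K) (he : ∀ j, e j ∈ K) (j : J) :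
    gk n (ud X τ m e j) = gk n (dd X τ m e (X.W j)) -
      (gk n (m (X.pj j)) - X.ph (X.W j) • gk n (m (X.pj j))) := by
  have h1 := hn (hm (X.pj j))
  have hd := hn (dd_mem hK hm he (X.W j) : dd X τ m e (X.W j) ∈ K)
  have hd' : (τ (X.pj j))⁻¹ * dd X τ m e (X.W j) * τ (X.pj j) ∈ gm S n := by
    have := (gm_normal n).conj_mem _ hd (τ (X.pj j))⁻¹
    rwa [inv_inv] at this
  have hd2 : gk n ((τ (X.pj j))⁻¹ * dd X τ m e (X.W j) * τ (X.pj j)) =
      gk n (dd X τ m e (X.W j)) := by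
    have := gk_conj hd (τ (X.pj j))⁻¹
    rwa [inv_inv] at this
  unfold ud
  rw [gk_mul (mul_mem (inv_mem h1) hd') (cjl_mem _ h1), gk_mul (inv_mem h1) hd',
    cjl_gk _ h1, gk_inv h1, hd2, H71.S3.vl_rt]
  abel

end H62.OW
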