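import Pool.Agent.H62.OW.Fzo
import Pool.Agent.H62.OW.Adw
import Pool.Agent.H48.OW.Cfo
import Pool.Agent.H88.OW.Qdf

/-!
# [H62 OW FZN] the condition of the averaging in own letters, for configurations (MP_b39724_nt, THEOREM OW, S4, (b4))

`g : Pl K → Option (Px (cO hp c M))`, `M = d + 1`, `X` the data of `fe g`, `Y` the data of `g` with own letters.
* `lf_ado`: `Y` lies over `X`. `okw_ado`: `Y.Okw`. `zt_qb`: the functionals at the letters `pp` come from the form.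
* `fzn`: `X.Fz Bf τ ζ ↔ κ honest ∧ ∀ pp j, OK2 (X.y j) (κ (W j))` for every family `ζ` over `etX` of a quasi Lie functional, every family `η` with the values `ka` at the letters which are not `pp`.
-/

set_option autoImplicit false

open scoped NumberField commutatorElement
open IsDedekindDomain
open scoped Classical

noncomputable section

namespace H62.OW

open H63.MA H38.BB H38.BG H57.PC H57.BRA H77.WD H77.WE H77.PC3 H35.CF H35.UB H77.S3 H1.S3
  H73.OW H82.S3 H12.OW H48.OW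

open H73.S3 hiding il_inj il_mul il_inv il_one ph_of wd_congr wd_map

open H24.OW (Dj)

open H88.OW (QB etX xf Rh)

variable {K : Type} [Field K] [NumberField K] {Ω : Type} [Field Ω] [Algebra K Ω]
  {p N : ℕ} {ζ : K} {D : RD0 K p ζ} {Q : DP K Ω} {A : GS D Ω} {P : Type} [Group P] {hp : p.Prime}
  {c : CL p N P} {M : ℕ} {Pa : Par} {G : SG c (Sp Pa (Px c))} {G' : SG (cO hp c M) (So hp c M Pa)}
  {B : SD D Q A} {X : FD A P (Sp Pa (Px c))} {W : WF A} {T : ℝ} {Zc : Finset (Pl K)}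
  {g : Pl K → Option (Px (cO hp c M))}

/-- the data with own letters lie over the data -/
theorem lf_ado (hG : ∀ x, G.y x = sy Pa x) (hG' : ∀ x, G'.y x = sy Pa x) :
    Lf (adf G B X W T Zc (fe g)) (adf G' B (fdo hp c M X) W T Zc g) (EV hp c M Pa)
      ((owl hp c M).ev Pa) where
  il := EV_il
  pj := rfl
  bl := rfl
  l := rfl
  W := rfl
  Jf := ado_jf
  pp := ado_pp
  t := ado_t hG hG'

/-- the element of a letter `pp` -/
theorem y_pp {S : Type} [Group S] [MulDistribMulAction P S] {G : SG c S} {X : FD A P S}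
    (hZ : Disjoint Zc X.E) {f : Pl K → Option (Px c)}
    {v : Pl K} (hv : (adf G B X W T Zc f).pp (Sum.inl v)) {a : Px c} (ha : f v = some a) :
    (adf G B X W T Zc f).y (Sum.inl v) = G.y a := by
  have h1 : v ∈ sp Zc f ∧ PPc X W T v := hv
  have h2 : v ∈ Zc := (mem_sp.1 h1.1).1
  have h3 : v ∉ X.E := Finset.disjoint_left.1 hZ h2
  have h4 : (adf G B X W T Zc f).t (Sum.inl v) = il (G.y a) := by
    show (if v ∈ X.E then (⟨X.sv v, X.φ (W.L.t v)⟩ : SP S P) else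
      (if v ∈ Zc then f v else none).elim 1 fun s => il (G.y s)) = _
    rw [if_neg h3, if_pos h2, ha]
    rfl
  unfold AD.y
  rw [h4]
  rfl

/-- the functionals at the letters `pp` -/
theorem zt_qb {S : Type} [Group S] [MulDistribMulAction P S] {G : SG c S} {X : FD A P S} {q d e : ℕ}
    (hZ : Disjoint Zc X.E) {R : Subgroup P}
    {x : (Px c → Du S q (d + 1)) × (P → Du S q (d + 1 + 1))}
    {Bf : ∀ i j : ℕ, Gr S i →+ Gr S j →+ ZMod q} (hQ : QB G.y e R x.1 x.2 Bf)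
    {f : Pl K → Option (Px c)}
    {ze : (adf G B X W T Zc f).Jf → Dz S q d × Dz S q (d + 1)}
    (hz : (adf G B X W T Zc f).rz ze = etX G B X W T Zc f x)
    (j : (adf G B X W T Zc f).Jf) (hj : (adf G B X W T Zc f).pp j) {w : S}
    (hw : w ∈ gm S (d + 1)) : (ze j).1.ap (gz d w) =
      Bf 1 (d + 1) (gk 1 ((adf G B X W T Zc f).y j)) (gk (d + 1) w) := by
  obtain ⟨j, hjf⟩ := j
  rcases j with v | i
  · have h1 := congrFun hz ⟨Sum.inl v, hjf⟩
    have h2 : (adf G B X W T Zc f).rz ze ⟨Sum.inl v, hjf⟩ = ((ze ⟨Sum.inl v, hjf⟩).1.rs, 0) :=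
      if_pos hj
    have h3 : etX G B X W T Zc f x ⟨Sum.inl v, hjf⟩ = (xf x.1 f (Sum.inl v), 0) := if_pos hj
    rw [h2, h3] at h1
    have h4 := congrArg Prod.fst h1
    have h5 : v ∈ sp Zc f ∧ PPc X W T v := hj
    obtain ⟨a, ha⟩ := Option.ne_none_iff_exists'.1 (mem_sp.1 h5.1).2
    have h6 : (xf x.1 f (Sum.inl v : Pl K ⊕ Fin A.g) : Du S q (d + 1)) = x.1 a := by
      show (f v).elim 0 x.1 = x.1 a
      rw [ha]
      rfl
    rw [y_pp hZ hj ha, hQ.gen, ← rs_gk _ hw]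
    show (ze ⟨Sum.inl v, hjf⟩).1.rs.ap _ = _
    have h7 : (ze ⟨Sum.inl v, hjf⟩).1.rs = x.1 a := h4.trans h6
    rw [h7]
  · exact absurd hj fun h => h

/-- the Jacobi identity of the form -/
theorem jac_qb {S A' : Type} [Group S] [MulDistribMulAction P S] {q d e : ℕ} {y : A' → S}
    {R : Subgroup P} {x : A' → Du S q (d + 1)} {kap : P → Du S q (d + 1 + 1)}
    {Bf : ∀ i j : ℕ, Gr S i →+ Gr S j →+ ZMod q} (hQ : QB y e R x kap Bf) (hd : 1 ≤ d) {u : S}
    (hu : u ∈ gm S d) (v w : S) : Bf (d + 1) 1 (gk (d + 1) ⁅u, v⁆) (gk 1 w) =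
      Bf d 2 (gk d u) (gk 2 ⁅v, w⁆) - Bf 1 (d + 1) (gk 1 v) (gk (d + 1) ⁅u, w⁆) :=
  hQ.jac d 1 1 hd le_rfl le_rfl rfl u hu v (Subgroup.mem_top v) w (Subgroup.mem_top w)

/-- THE CONDITION OF THE AVERAGING IN OWN LETTERS, for configurations -/
theorem fzn {q d e k Mw Mw' k' : ℕ} [NeZero q] [Finite P] [Finite (Sp Pa (Px c))]
    [Finite (So hp c M Pa)] (hd : 1 ≤ d) (hM : M = d + 1)
    (hG : ∀ x, G.y x = sy Pa x) (hG' : ∀ x, G'.y x = sy Pa x) (hZ : Disjoint Zc X.E)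
    (okX : (adf G B X W T Zc (fe g)).Okw p k' Mw' q)
    (okY : (adf G' B (fdo hp c M X) W T Zc g).Okw p k Mw q) {R : Subgroup P}
    {x : (Px c → Du (Sp Pa (Px c)) q (d + 1)) × (P → Du (Sp Pa (Px c)) q (d + 1 + 1))}
    {Bf : ∀ i j : ℕ, Gr (Sp Pa (Px c)) i →+ Gr (Sp Pa (Px c)) j →+ ZMod q}
    (hQ : QB G.y e R x.1 x.2 Bf) {psi : So hp c M Pa → ZMod q}
    (ps : Psi (d := d) ((owl hp c M).Kk Pa Finset.univ) ((owl hp c M).ev Pa) psi Bf (P × Ci p M))
    {τ : Pl K → So hp c M Pa}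
    {ze : (adf G B X W T Zc (fe g)).Jf → Dz (Sp Pa (Px c)) q d × Dz (Sp Pa (Px c)) q (d + 1)}
    (hz : (adf G B X W T Zc (fe g)).rz ze = etX G B X W T Zc (fe g) x)
    {η : (adf G' B (fdo hp c M X) W T Zc g).Jf →
      Du (So hp c M Pa) q d × Du (So hp c M Pa) q (d + 1)}
    (et : ∀ (j : Pl K ⊕ Fin A.g) (h : j ∈ (adf G B X W T Zc (fe g)).Jf)
      (h' : j ∈ (adf G' B (fdo hp c M X) W T Zc g).Jf), ¬(adf G B X W T Zc (fe g)).pp j →
      ∀ u ∈ (owl hp c M).Kk Pa Finset.univ, (η ⟨j, h'⟩).2.ap (gk (d + 1) u) =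
        (ze ⟨j, h⟩).2.ap (gz (d + 1) ((owl hp c M).ev Pa u)) +
          psi (Dj (adf G' B (fdo hp c M X) W T Zc g) τ
            ((adf G' B (fdo hp c M X) W T Zc g).vl τ) j u))
    (pt : ∀ j : (adf G' B (fdo hp c M X) W T Zc g).Jf, ¬(adf G' B (fdo hp c M X) W T Zc g).pp j →
      ∀ a, (η j).2.ap ((owl hp c M).pj Pa Finset.univ (d + 1) a) = (η j).2.ap a)
    {κ : FW A → Du (So hp c M Pa) q (d + 1)} (hκ : (adf G' B (fdo hp c M X) W T Zc g).Kx η κ) :
    (adf G B X W T Zc (fe g)).Fz Bf (fun v => (owl hp c M).ev Pa (τ v)) ze ↔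
      (∀ v ∈ W.l, κ (wd FreeGroup.of (adf G' B (fdo hp c M X) W T Zc g).W
        ((adf G' B (fdo hp c M X) W T Zc g).bl v)) = 0) ∧
      ∀ v, v ∈ sp Zc g → PPc X W T v → ∀ a, g v = some a →
        OK2 Pa (owl hp c M) (sy Pa (fs a)) (κ (W.Wv v)) := by
  have hf : Fintype (So hp c M Pa) := Fintype.ofFinite _
  have hfP : Finite (P × Ci p M) := by
    have : NeZero p := ⟨hp.ne_zero⟩
    have : Finite (Ci p M) := inferInstanceAs (Finite (Fin M → ZMod p))
    infer_instance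
  rw [fzo hp hd (by rw [Fintype.card_fin, hM]) (lf_ado hG hG') okX okY ps
    (fun u hu v w => jac_qb hQ hd hu v w) (fun j hj w hw => zt_qb hZ hQ hz j hj hw) et pt hκ]
  refine and_congr Iff.rfl ?_
  constructor
  · intro h v hv hpv a ha
    have h1 : (adf G B X W T Zc (fe g)).pp (Sum.inl v) := by
      show v ∈ sp Zc (fe g) ∧ PPc X W T v
      rw [sp_fe]
      exact ⟨hv, hpv⟩
    have h2 : (Sum.inl v : Pl K ⊕ Fin A.g) ∈ (adf G B X W T Zc (fe g)).Jf := by
      show _ ∈ (sp Zc (fe g) ∪ X.E).disjSum Finset.univ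
      rw [Finset.inl_mem_disjSum, sp_fe]
      exact Finset.mem_union_left _ hv
    have h3 := h _ h2 h1
    have h4 : fe g v = some (fs a) := by
      unfold fe
      rw [ha]
      rfl
    rw [y_pp hZ h1 h4, hG] at h3
    exact h3
  · intro h j hj hpj
    rcases j with v | i
    · have h1 : v ∈ sp Zc (fe g) ∧ PPc X W T v := hpj
      rw [sp_fe] at h1
      obtain ⟨a, ha⟩ := Option.ne_none_iff_exists'.1 (mem_sp.1 h1.1).2
      have h4 : fe g v = some (fs a) := by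
        unfold fe
        rw [ha]
        rfl
      rw [y_pp hZ hpj h4, hG]
      exact h v h1.1 h1.2 a ha
    · exact absurd hpj fun h => h

end H62.OW
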