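import Pool.Agent.H62.OW.Fzi
import Pool.Agent.H12.OW.Kil

/-!
# [H62 OW FZO] the condition of the averaging in own letters, for `O : OwL` (MP_b39724_nt, THEOREM OW, S4, (b4))

`O : OwL P P' A Be I` (H12/OW/Kil), `card I = d + 1`, `S = Sp Pa A`, `St = Sp Pa Be`, `K = Kk univ`.
* `grm_br`, `OwL.pj_br`, `OwL.pj_br'`: the projections `pj T` of the brackets `br y z`.
* `OK2 O Pa y χ` (`y : S`, `χ : Du St q (d + 1)`): `χ ∘ pj univ = χ` and `χ (e) = 0` for all `e ∈ K` over some `⁅z, y⁆`, `z ∈ gam_d(S)`.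
* `ok2_br`: `OK2` for the letter `y = ev y'`, `y'` an own letter, implies the condition (O) `χ (br y' z) = 0` of the box inequality.
* `fzo`: `X.Fz Bf τ ζ ↔ κ honest ∧ ∀ pp j, OK2 (X.y j) (κ (W j))`.
-/

set_option autoImplicit false

open scoped commutatorElement
open scoped Classical

noncomputable section

namespace H62.OW

open H1.S3 H73.OW H82.S3 H12.OW

open H73.S3 hiding il_inj il_mul il_inv il_one ph_of

open H24.OW (Dj)

theorem grm_br {S S' : Type} [Group S] [Group S'] (f : S →* S') (d : ℕ) (y : S) (z : Gr S d) :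
    grm f (d + 1) (br d y z) = br d (f y) (grm f d z) := by
  obtain ⟨u, hu, rfl⟩ := gk_surj d z
  rw [br_gk _ hu, grm_gk _ (gm_comm' d hu), grm_gk _ hu, br_gk _ (gm_hom f hu),
    map_commutatorElement]

section pj

variable (Pa : Par) {P P' A Be I : Type} [Group P] [Group P'] [MulAction P A] [MulAction P' Be]
  (O : OwL P P' A Be I) {d : ℕ}

/-- the projection of a bracket with an element which is not changed -/
theorem OwL.pj_br {T : Finset I} {y : Sp Pa Be} (hy : ∀ i ∈ T, O.ki Pa i y = y)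
    (z : Gr (Sp Pa Be) d) : O.pj Pa T (d + 1) (br d y z) = br d y (O.pj Pa T d z) := by
  induction T using Finset.induction_on generalizing z with
  | empty =>
    obtain ⟨u, hu, rfl⟩ := gk_surj d z
    rw [br_gk _ hu, O.pj_kk Pa (fun i hi => absurd hi (Finset.notMem_empty i)) (gm_comm' d hu),
      O.pj_kk Pa (fun i hi => absurd hi (Finset.notMem_empty i)) hu, br_gk _ hu]
  | insert i T hi ih =>
    have h1 : ∀ j ∈ T, O.ki Pa j y = y := fun j hj => hy j (Finset.mem_insert_of_mem hj)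
    rw [O.pj_insert Pa hi, O.pj_insert Pa hi, grm_br, hy i (Finset.mem_insert_self i T), ih h1,
      ih h1, map_sub]

/-- the projection of a bracket with an own letter -/
theorem OwL.pj_br' {T : Finset I} {i : I} (hi : i ∉ T) {y : Sp Pa Be} (hyi : O.ki Pa i y = 1)
    (hy : ∀ j ∈ T, O.ki Pa j y = y) (z : Gr (Sp Pa Be) d) :
    O.pj Pa (insert i T) (d + 1) (br d y z) = br d y (O.pj Pa T d z) := by
  have h1 : ∀ z' : Gr (Sp Pa Be) d, br d (1 : Sp Pa Be) z' = 0 := by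
    intro z'
    obtain ⟨u, hu, rfl⟩ := gk_surj d z'
    rw [br_gk _ hu, commutatorElement_one_left, gk_one]
  rw [O.pj_insert Pa hi, grm_br, hyi, h1, map_zero, sub_zero, OwL.pj_br Pa O hy]

end pj

section ok

variable (Pa : Par) {P P' A Be I : Type} [Group P] [Group P'] [MulAction P A] [MulAction P' Be]
  (O : OwL P P' A Be I) [Fintype I] {d q : ℕ}

/-- the condition at a letter `pp` with the value `y` -/
def OK2 (y : Sp Pa A) (χ : Du (Sp Pa Be) q (d + 1)) : Prop :=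
  (∀ z, χ.ap (O.pj Pa Finset.univ (d + 1) z) = χ.ap z) ∧
    ∀ e ∈ O.Kk Pa Finset.univ, ∀ z ∈ gm (Sp Pa A) d, O.ev Pa e = ⁅z, y⁆ →
      χ.ap (gk (d + 1) e) = 0

variable {Pa O}

/-- THE CONDITION (O) -/
theorem ok2_br {y : Sp Pa A} {χ : Du (Sp Pa Be) q (d + 1)} (h : OK2 Pa O y χ) {i : I}
    {y' : Sp Pa Be} (hy : O.ev Pa y' = y) (hyi : O.ki Pa i y' = 1)
    (hyj : ∀ j, j ≠ i → O.ki Pa j y' = y') (z : Gr (Sp Pa Be) d) : χ.ap (br d y' z) = 0 := by
  obtain ⟨u, hu, rfl⟩ := gk_surj d z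
  obtain ⟨u', hu', hn', e⟩ := O.pj_ex Pa ({i}ᶜ : Finset I) d hu
  have h0 : (Finset.univ : Finset I) = insert i ({i}ᶜ : Finset I) := by
    ext j
    by_cases hj : j = i
    · simp [hj]
    · simp [hj]
  have h1 : O.pj Pa Finset.univ (d + 1) (br d y' (gk d u)) = br d y' (gk d u') := by
    rw [h0, OwL.pj_br' Pa O (by simp) hyi (fun j hj => hyj j (by
      rw [Finset.mem_compl, Finset.mem_singleton] at hj
      exact hj)), e]
  rw [← h.1, h1, br_gk _ hn', ← commutatorElement_inv u' y', gk_inv (gm_comm d hn'), map_neg,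
    neg_eq_zero]
  refine h.2 _ ?_ (O.ev Pa u') (gm_hom _ hn') (by rw [map_commutatorElement, hy])
  have h2 : y' ∈ O.Kk Pa {i} := fun j hj => by
    rw [Finset.mem_singleton.1 hj, hyi]
  have h3 := O.kk_comm Pa hu' h2
  refine O.kk_mono Pa ?_ h3
  intro j _
  by_cases hj : j = i
  · simp [hj]
  · simp [hj]

end ok

section fz

variable {Pa : Par} {P P' A Be I : Type} [Group P] [Group P'] [MulAction P A] [MulAction P' Be]
  {O : OwL P P' A Be I} [Fintype I] {d q : ℕ} {J V : Type}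

theorem kk_cj {T : Finset I} (g : SP (Sp Pa Be) P') {u : Sp Pa Be} (hu : u ∈ O.Kk Pa T) :
    H71.S3.cjl g u ∈ O.Kk Pa T := by
  unfold H71.S3.cjl
  exact (O.kk_normal Pa T).conj_mem _ (O.kk_smul Pa _ hu) _

/-- the hypotheses on `psi` -/
theorem psi_own {psi : Sp Pa Be → ZMod q}
    {Bf : ∀ i j : ℕ, Gr (Sp Pa A) i →+ Gr (Sp Pa A) j →+ ZMod q} (hI : Fintype.card I = d + 1)
    (add : ∀ u ∈ O.Kk Pa Finset.univ, ∀ v ∈ O.Kk Pa Finset.univ, psi (u * v) = psi u + psi v)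
    (bot : ∀ u ∈ O.Kk Pa Finset.univ, u ∈ gm (Sp Pa Be) (d + 3) → psi u = 0)
    (com : ∀ i j : ℕ, 1 ≤ i → 1 ≤ j → i + j = d + 2 → ∀ T T' : Finset I, T ∪ T' = Finset.univ →
      ∀ u ∈ O.Kk Pa T, u ∈ gm (Sp Pa Be) i → ∀ w ∈ O.Kk Pa T', w ∈ gm (Sp Pa Be) j →
        psi ⁅u, w⁆ = -Bf i j (gk i (O.ev Pa u)) (gk j (O.ev Pa w))) :
    Psi (d := d) (O.Kk Pa Finset.univ) (O.ev Pa) psi Bf P' where
  st g u hu := kk_cj g hu
  le := by
    have h1 := O.kk_le Pa (Finset.univ : Finset I)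
    rw [Finset.card_univ, hI] at h1
    exact h1
  add := add
  ze := bot
  b1 u hu v := com (d + 1) 1 (by omega) le_rfl rfl Finset.univ ∅ (Finset.union_empty _) u hu
    (by
      have h1 := O.kk_le Pa (Finset.univ : Finset I) hu
      rw [Finset.card_univ, hI] at h1
      exact h1) v (fun i hi => absurd hi (Finset.notMem_empty i)) (Subgroup.mem_top v)
  b2 v u hu := com 1 (d + 1) le_rfl (by omega) (by omega) ∅ Finset.univ (Finset.empty_union _) v
    (fun i hi => absurd hi (Finset.notMem_empty i)) (Subgroup.mem_top v) u hu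
    (by
      have h1 := O.kk_le Pa (Finset.univ : Finset I) hu
      rw [Finset.card_univ, hI] at h1
      exact h1)

variable {p k Mw k' Mw' : ℕ} {X : AD (Sp Pa A) P J V} {Y : AD (Sp Pa Be) P' J V}
  {EV : SP (Sp Pa Be) P' →* SP (Sp Pa A) P} {psi : Sp Pa Be → ZMod q}
  {Bf : ∀ i j : ℕ, Gr (Sp Pa A) i →+ Gr (Sp Pa A) j →+ ZMod q} {τ : V → Sp Pa Be}
  {ζ : X.Jf → Dz (Sp Pa A) q d × Dz (Sp Pa A) q (d + 1)}
  {η : Y.Jf → Du (Sp Pa Be) q d × Du (Sp Pa Be) q (d + 1)}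
  {κ : FreeGroup J → Du (Sp Pa Be) q (d + 1)}

/-- THE CONDITION OF THE AVERAGING IN OWN LETTERS -/
theorem fzo [Fintype (Sp Pa Be)] [NeZero q] [Finite P'] (hp : p.Prime) (hd : 1 ≤ d)
    (hI : Fintype.card I = d + 1) (lf : Lf X Y EV (O.ev Pa)) (okX : X.Okw p k' Mw' q)
    (okY : Y.Okw p k Mw q) (ps : Psi (d := d) (O.Kk Pa Finset.univ) (O.ev Pa) psi Bf P')
    (jac : ∀ u ∈ gm (Sp Pa A) d, ∀ v w : Sp Pa A, Bf (d + 1) 1 (gk (d + 1) ⁅u, v⁆) (gk 1 w) =
      Bf d 2 (gk d u) (gk 2 ⁅v, w⁆) - Bf 1 (d + 1) (gk 1 v) (gk (d + 1) ⁅u, w⁆))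
    (zt : ∀ j : X.Jf, X.pp j → ∀ w ∈ gm (Sp Pa A) (d + 1),
      (ζ j).1.ap (gz d w) = Bf 1 (d + 1) (gk 1 (X.y j)) (gk (d + 1) w))
    (et : ∀ (j : J) (h : j ∈ X.Jf) (h' : j ∈ Y.Jf), ¬X.pp j → ∀ u ∈ O.Kk Pa Finset.univ,
      (η ⟨j, h'⟩).2.ap (gk (d + 1) u) =
        (ζ ⟨j, h⟩).2.ap (gz (d + 1) (O.ev Pa u)) + psi (Dj Y τ (Y.vl τ) j u))
    (pt : ∀ j : Y.Jf, ¬Y.pp j → ∀ a, (η j).2.ap (O.pj Pa Finset.univ (d + 1) a) = (η j).2.ap a)
    (hκ : Y.Kx η κ) :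
    X.Fz Bf (fun v => O.ev Pa (τ v)) ζ ↔ (∀ v ∈ Y.l, κ (wd FreeGroup.of Y.W (Y.bl v)) = 0) ∧
      ∀ j ∈ X.Jf, X.pp j → OK2 Pa O (X.y j) (κ (Y.W j)) := by
  have h : Fh p k Mw k' Mw' X Y EV (O.ev Pa) (O.Kk Pa Finset.univ) psi Bf τ ζ η
      (O.pj Pa Finset.univ (d + 1)) :=
    { lf := lf
      okX := okX
      okY := okY
      ps := ps
      jac := jac
      zt := zt
      et := et
      on := fun u hu => by
        obtain ⟨m, hm, _, h1⟩ := O.ev_kk Pa (T := Finset.univ) (n := d + 1)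
          (by rw [Finset.card_univ, hI]) hu
        exact ⟨m, hm, h1⟩
      pe := fun g a => O.pj_smul Pa _ _ g a
      pk := fun a => by
        obtain ⟨u, hu, rfl⟩ := gk_surj (d + 1) a
        obtain ⟨u', hu', _, h1⟩ := O.pj_ex Pa Finset.univ (d + 1) hu
        exact ⟨u', hu', h1⟩
      pt := pt }
  rw [fz_iff hp hd h hκ]
  refine and_congr_right fun _ => forall_congr' fun j => forall_congr' fun _ =>
    forall_congr' fun _ => ?_
  unfold OK2
  rw [and_iff_right]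
  intro z
  exact kx_pr Y hp okY d η _ h.pe h.pt hκ _ z

end fz

end H62.OW
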