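import Pool.Agent.H62.OW.Okw
import Pool.Agent.H73.S3.Sur

/-!
# [H62 OW PAR] the pairing of the functionals with the changes (MP_b39724_nt, THEOREM OW, S4)

`κ` the crossed homomorphism of the family `η` (`Kx`), `c` the crossed homomorphism of a change of the evaluation: `c = a v - x a v` at the letters `x` which are not `pp`, any value at
the letters `pp`. `AD.Fp η c a`: the value of the family at the changes of the words (letters which are not `pp`).
* `par`: if `κ` is honest (`κ (W_v) = 0` for all places) then `Fp = ∑_(pp j) κ (W j) (c j)`.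
* `hon_of`: if `Fp = 0` for all `c` which vanish at the letters `pp` then `κ` is honest; `hon_pr`: only `a` with values in the image of a projection are needed.
-/

set_option autoImplicit false

open scoped commutatorElement
open scoped Classical

noncomputable section

namespace H62.OW

open H1.S3 H73.S3 H71.S3

attribute [local instance 50] Fintype.ofFinite

variable {S P : Type} [Group S] [Group P] [MulDistribMulAction P S] {J V : Type} {p k Mw q m : ℕ}

/-- the value of a family at the changes of the words, letters which are not `pp` -/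
def _root_.H73.S3.AD.Fp (X : AD S P J V) (η : X.Jf → Du S q m × Du S q (m + 1))
    (c : FreeGroup J → Gr S (m + 1)) (a : V → Gr S (m + 1)) : ZMod q :=
  ∑ j : X.Jf, if X.pp j then 0 else
    (η j).2.ap (c (X.W j) - (a (X.pj j) - X.ph (X.W j) • a (X.pj j)))

/-- the crossed homomorphism `c` belongs to the changes `a` of the conjugators -/
structure _root_.H73.S3.AD.Cx (X : AD S P J V) (c : FreeGroup J → Gr S m) (a : V → Gr S m) :
    Prop where
  ch : X.CHp c
  of : ∀ j, j ∉ X.Jf → c (FreeGroup.of j) = 0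
  bb : ∀ j ∈ X.Jf, ¬X.pp j → c (FreeGroup.of j) = a (X.pj j) - X.ph (FreeGroup.of j) • a (X.pj j)

theorem par_tr (X : AD S P J V) (hX : X.Okw p k Mw q) (j : J) (hj : ¬Bd X j) :
    X.ph (FreeGroup.of j) = 1 := by
  rw [H71.S3.ph_of]
  by_cases hj' : j ∈ X.Jf
  · have hpp : X.pp j := by
      by_contra h
      exact hj ⟨hj', h⟩
    rw [hX.pt j hj' hpp, il_right]
  · rw [hX.t1 j hj']
    rfl

/-- THE PAIRING for an honest `κ` -/
theorem par [Fintype S] [NeZero q] [Finite P] (X : AD S P J V) (hp : p.Prime)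
    (hX : X.Okw p k Mw q) (η : X.Jf → Du S q m × Du S q (m + 1))
    {κ : FreeGroup J → Du S q (m + 1)} (hκ : X.Kx η κ)
    (hh : ∀ v ∈ X.l, κ (wd FreeGroup.of X.W (X.bl v)) = 0) {c : FreeGroup J → Gr S (m + 1)}
    {a : V → Gr S (m + 1)} (hc : X.Cx c a) :
    X.Fp η c a = ∑ j : X.Jf, if X.pp j then (κ (X.W j)).ap (c (FreeGroup.of (j : J))) else 0 := by
  let iN : DistribMulAction (FreeGroup J) (Du S q (m + 1)) := fact X.ph
  let iM : DistribMulAction (FreeGroup J) (Gr S (m + 1)) := fact X.ph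
  have hB : Ivt (FreeGroup J) (bil S q (m + 1)) :=
    ivt_to X.ph (fun _ _ => rfl) (fun _ _ => rfl) (bil_ivt q (m + 1))
  have hkc : CH (F := FreeGroup J) κ := hκ.ch
  have hcc : CH (F := FreeGroup J) c := hc.ch
  obtain ⟨z, hz, hz0⟩ := zf_exists hB hkc hcc (fun _ => (0 : ZMod q))
  have hrel := hz_relw X hp hX (m + 1) κ hκ.ch (fun j hj => hκ.of j fun h => hj h.1) c hc.ch
    hc.of z hz hz0
  have hfr := frm_okw hX
  obtain ⟨f, hf⟩ : ∃ f : J → ZMod q, ∀ j, f j = if h : j ∈ X.Jf then
      (if X.pp j then -(κ (X.W j)).ap (c (FreeGroup.of j)) else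
        (η ⟨j, h⟩).2.ap (c (X.W j) - (a (X.pj j) - X.ph (X.W j) • a (X.pj j)))) else 0 :=
    ⟨_, fun _ => rfl⟩
  have hblk : ∀ v ∈ X.l, z (wd FreeGroup.of X.W (X.bl v)) = ((X.bl v).map f).sum := by
    intro v hv
    by_cases hb : Bw X v
    · have h1 := zf_block hB hz hkc hcc FreeGroup.of X.W (X.bl v) (hX.bn v hv) (a v) (by
        intro i hi
        obtain ⟨h2, h3⟩ := (hfr.mem v hb i).1 hi
        rw [hc.bb i h3.1 h3.2, h2]
        rfl)
      rw [h1, hh v hv, map_zero, AddMonoidHom.zero_apply, sub_zero]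
      congr 1
      refine List.map_congr_left fun i hi => ?_
      obtain ⟨h2, h3⟩ := (hfr.mem v hb i).1 hi
      rw [hf i, dif_pos h3.1, if_neg h3.2, h2, bil_ap]
      have h4 := hκ.ze ⟨i, h3.1⟩ h3.2
      rw [← h4, h2]
      rfl
    · have hgo := hfr.good v hv hb
      have h1 := (zf_txl hB hz hkc hcc FreeGroup.of X.W (X.bl v) fun i hi =>
        ⟨hκ.of i (hgo i hi), fun n => by
          show X.ph (FreeGroup.of i) • n = n
          rw [par_tr X hX i (hgo i hi), one_smul]⟩).2
      rw [h1]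
      have h2 : ∀ ks : List J, (∀ i ∈ ks, ¬Bd X i) →
          -(ks.map fun i => bil S q (m + 1) (κ (X.W i)) (X.W i • c (FreeGroup.of i))).sum =
            (ks.map f).sum := by
        intro ks
        induction ks with
        | nil => intro _; simp
        | cons i ks ih =>
          intro hks
          rw [List.map_cons, List.sum_cons, List.map_cons, List.sum_cons, neg_add,
            ih fun i' hi' => hks i' (List.mem_cons_of_mem _ hi')]
          congr 1
          have hi := hks i List.mem_cons_self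
          by_cases hj : i ∈ X.Jf
          · have hpp : X.pp i := by
              by_contra h
              exact hi ⟨hj, h⟩
            rw [hf i, dif_pos hj, if_pos hpp, bil_ap]
            have h5 : (X.W i • c (FreeGroup.of i) : Gr S (m + 1)) = c (FreeGroup.of i) := by
              show X.ph (X.W i) • c (FreeGroup.of i) = _
              rw [hX.pw i hj hpp, one_smul]
            rw [h5]
          · rw [hf i, dif_neg hj, hc.of i hj, smul_zero, map_zero, neg_zero]
      exact h2 _ hgo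
  have h1 := (zf_hon hz hkc (fun v => wd FreeGroup.of X.W (X.bl v)) X.l hh).2
  rw [hrel] at h1
  have h2 : (X.l.map fun v => z (wd FreeGroup.of X.W (X.bl v))) =
      X.l.map fun v => ((X.bl v).map f).sum := List.map_congr_left hblk
  rw [h2, sum_bl X hX.nd hX.bn hX.bp hX.jl f fun j hj => by rw [hf j, dif_neg hj]] at h1
  unfold AD.Fp
  have h3 : ∀ j : X.Jf, f j = (if X.pp j then 0 else
      (η j).2.ap (c (X.W j) - (a (X.pj j) - X.ph (X.W j) • a (X.pj j)))) -
        if X.pp j then (κ (X.W j)).ap (c (FreeGroup.of (j : J))) else 0 := by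
    intro j
    rw [hf j, dif_pos j.2]
    split_ifs
    · rw [zero_sub]
    · rw [sub_zero]
  rw [Finset.sum_congr rfl fun j _ => h3 j, Finset.sum_sub_distrib] at h1
  exact sub_eq_zero.1 h1.symm

/-- HONESTY -/
theorem hon_of [Fintype S] [NeZero q] [Finite P] (X : AD S P J V) (hp : p.Prime)
    (hX : X.Okw p k Mw q) (η : X.Jf → Du S q m × Du S q (m + 1))
    {κ : FreeGroup J → Du S q (m + 1)} (hκ : X.Kx η κ)
    (H : ∀ (c : FreeGroup J → Gr S (m + 1)) (a : V → Gr S (m + 1)), X.Cx c a →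
      (∀ j ∈ X.Jf, X.pp j → c (FreeGroup.of j) = 0) → X.Fp η c a = 0) :
    ∀ v ∈ X.l, κ (wd FreeGroup.of X.W (X.bl v)) = 0 := by
  let iN : DistribMulAction (FreeGroup J) (Du S q (m + 1)) := fact X.ph
  let iM : DistribMulAction (FreeGroup J) (Gr S (m + 1)) := fact X.ph
  obtain ⟨Φ₀⟩ := filG (P := P) hp hX.pg (m + 1)
  have Φ : Fil (FreeGroup J) (Gr S (m + 1)) := Φ₀.map X.ph fun x n => rfl
  have f1 : Finite {j // Bd X j} := bd_fin X
  have f2 : Finite {v // Bw X v} := bw_fin X
  have i1 : Fintype {j // Bd X j} := Fintype.ofFinite _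
  have i2 : Fintype {v // Bw X v} := Fintype.ofFinite _
  have i4 : Fintype ({v // Bw X v} → Gr S (m + 1)) := Fintype.ofFinite _
  have hB : Ivt (FreeGroup J) (bil S q (m + 1)) :=
    ivt_to X.ph (fun _ _ => rfl) (fun _ _ => rfl) (bil_ivt q (m + 1))
  have htr := par_tr X hX
  have hfr := frm_okw hX
  have hkc : CH (F := FreeGroup J) κ := hκ.ch
  set e : AddChar (ZMod q) ℂ := ZMod.stdAddChar with he
  have hnd : ∀ n : Du S q (m + 1), n ≠ 0 → ∃ a : Gr S (m + 1), e (bil S q (m + 1) n a) ≠ 1 := by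
    intro n hn
    by_contra h
    push Not at h
    apply hn
    refine du_ext fun a => ?_
    have h1 := h a
    rw [bil_ap] at h1
    have h2 : Function.Injective (ZMod.stdAddChar (N := q)) := ZMod.injective_stdAddChar
    have h3 : e (n.ap a) = e 0 := by rw [h1, AddChar.map_zero_eq_one]
    exact h2 h3
  have hav := avU (Bd X) (Bw X) X.pj X.bl X.l hfr (B := bil S q (m + 1)) hB Φ (k := κ) hkc
    hκ.of
    (fun j hj n => by
      show X.ph (FreeGroup.of j) • n = n
      rw [htr j hj, one_smul])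
    (fun j hj n => by
      show X.ph (FreeGroup.of j) • n = n
      rw [htr j hj, one_smul])
    X.W
    (fun v hv y => by
      show X.ph (wd FreeGroup.of X.W (X.bl v)) • y = y
      obtain ⟨j, hj, rfl⟩ := hv
      rw [hX.hb _ (hX.jl j hj.1).1, one_smul])
    (fun j => j ∈ X.Jf) (fun j hj => hj.1)
    (fun cc z hc hc0 hz hz0 => hz_relw X hp hX (m + 1) κ hκ.ch
      (fun j hj => hκ.of j fun h => hj h.1) cc hc hc0 z hz hz0)
    e hnd (fun _ => 0) (fun _ _ => rfl)
  have h0 : ∀ a : {v // Bw X v} → Gr S (m + 1), ∑ j : {j // Bd X j},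
      bil S q (m + 1) (zeta κ FreeGroup.of X.W (X.bl (X.pj j.1)) j.1)
        (cV (Bd X) (Bw X) X.pj (fun _ => 0) a (X.W j.1) -
          dm (exb (Bw X) a (X.pj j.1)) (X.W j.1)) = 0 := by
    intro a
    have hcx : X.Cx (cV (Bd X) (Bw X) X.pj (fun _ => 0) a) (exb (Bw X) a) := by
      refine ⟨cv_ch _ _ _ _ _, fun j hj => ?_, fun j hj hpj => ?_⟩
      · rw [cv_of, zero_add, if_neg fun h => hj h.1]
      · rw [cv_of, zero_add, if_pos ⟨hj, hpj⟩]
        rfl
    have h1 := H _ _ hcx fun j hj hpj => by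
      rw [cv_of, zero_add, if_neg fun h => h.2 hpj]
    rw [← h1]
    unfold AD.Fp
    have h5 : ∀ j : X.Jf, (if X.pp j then 0 else
        (η j).2.ap (cV (Bd X) (Bw X) X.pj (fun _ => 0) a (X.W j) -
          (exb (Bw X) a (X.pj j) - X.ph (X.W j) • exb (Bw X) a (X.pj j)))) = if ¬ X.pp j then
        (η j).2.ap (cV (Bd X) (Bw X) X.pj (fun _ => 0) a (X.W j) -
          (exb (Bw X) a (X.pj j) - X.ph (X.W j) • exb (Bw X) a (X.pj j))) else 0 := by
      intro j
      by_cases hpj : X.pp j
      · rw [if_pos hpj, if_neg (not_not.2 hpj)]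
      · rw [if_neg hpj, if_pos hpj]
    rw [Finset.sum_congr rfl fun j _ => h5 j, ← Finset.sum_filter]
    refine Finset.sum_bij' (fun j _ => (⟨j.1, j.2.1⟩ : X.Jf))
      (fun j hj => (⟨j.1, j.2, (Finset.mem_filter.1 hj).2⟩ : {j // Bd X j})) (fun j _ => ?_)
      (fun j hj => Finset.mem_univ _)
      (fun j _ => rfl) (fun j _ => rfl) fun j _ => ?_
    · rw [Finset.mem_filter]
      exact ⟨Finset.mem_univ _, j.2.2⟩
    · rw [bil_ap, hκ.ze ⟨j.1, j.2.1⟩ j.2.2]
      rfl
  have hgood : ∀ v ∈ X.l, ¬Bw X v → κ (wd FreeGroup.of X.W (X.bl v)) = 0 := by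
    intro v hv hb
    have hgo := hfr.good v hv hb
    obtain ⟨z, hz, hz0⟩ := zf_exists hB hkc (dm_ch (F := FreeGroup J) (0 : Gr S (m + 1)))
      (fun _ => (0 : ZMod q))
    exact (zf_txl hB hz hkc (dm_ch (F := FreeGroup J) (0 : Gr S (m + 1))) FreeGroup.of X.W
      (X.bl v) fun i hi =>
        ⟨hκ.of i (hgo i hi), fun n => by
          show X.ph (FreeGroup.of i) • n = n
          rw [htr i (hgo i hi), one_smul]⟩).1
  have hbad : ∀ v, Bw X v → κ (wd FreeGroup.of X.W (X.bl v)) = 0 := by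
    by_contra hh
    rw [if_neg hh] at hav
    rw [Finset.sum_congr rfl fun a _ => by rw [h0 a, AddChar.map_zero_eq_one]] at hav
    rw [Finset.sum_const, nsmul_eq_mul, mul_one, Nat.cast_eq_zero, Finset.card_univ] at hav
    exact Fintype.card_ne_zero hav
  intro v hv
  by_cases hb : Bw X v
  · exact hbad v hb
  · exact hgood v hv hb

/-- honesty, with a projection -/
theorem hon_pr [Fintype S] [NeZero q] [Finite P] (X : AD S P J V) (hp : p.Prime)
    (hX : X.Okw p k Mw q) (η : X.Jf → Du S q m × Du S q (m + 1))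
    (pr : Gr S (m + 1) →+ Gr S (m + 1)) (hpr : ∀ (g : P) a, pr (g • a) = g • pr a)
    (hη : ∀ j : X.Jf, ¬X.pp j → ∀ a, (η j).2.ap (pr a) = (η j).2.ap a)
    {κ : FreeGroup J → Du S q (m + 1)} (hκ : X.Kx η κ)
    (H : ∀ (c : FreeGroup J → Gr S (m + 1)) (a : V → Gr S (m + 1)), (∀ v, ∃ b, a v = pr b) →
      X.Cx c a → (∀ j ∈ X.Jf, X.pp j → c (FreeGroup.of j) = 0) → X.Fp η c a = 0) :
    ∀ v ∈ X.l, κ (wd FreeGroup.of X.W (X.bl v)) = 0 := by
  refine hon_of X hp hX η hκ fun c a hc hcp => ?_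
  have h1 := H (fun w => pr (c w)) (fun v => pr (a v)) (fun v => ⟨a v, rfl⟩)
    ⟨fun x y => by rw [hc.ch x y, map_add, hpr], fun j hj => by rw [hc.of j hj, map_zero],
      fun j hj hpj => by rw [hc.bb j hj hpj, map_sub, hpr]⟩
    (fun j hj hpj => by rw [hcp j hj hpj, map_zero])
  rw [← h1]
  unfold AD.Fp
  refine Finset.sum_congr rfl fun j _ => ?_
  split_ifs with hpj
  · rfl
  · rw [← hη j hpj (c (X.W j) - (a (X.pj j) - X.ph (X.W j) • a (X.pj j)))]
    congr 1
    rw [map_sub pr, map_sub pr, hpr]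

end H62.OW
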