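import Pool.Agent.H62.OW.Chd

/-!
# [H62 OW RLC] the change of the relation, conjugators and letters (MP_b39724_nt, THEOREM OW, S4)

`psi` additive on `K`. `el t x u e`: `⁅il e * t, il u * x⁆ = il (el t x u e) * ⁅t, x⁆`. `rlc`: H24/OW/Rch with all changes at once: `τ ↦ τ m`, `t j ↦ il (e j) * t j`,
`x j ↦ il (U j) * x j`, everything in `K`.
-/

set_option autoImplicit false

open scoped commutatorElement
open scoped Classical

noncomputable section

namespace H62.OW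

open H1.S3

open H73.S3 hiding il_inj il_mul il_inv il_one ph_of

open H71.S3 (cjl cjl_il cjl_mem cjl_gk il_mul il_inv il_one il_inj il_of il_right sp_right sp_right_inv th_rt th_of
  cj_right cj_cj cj_one cj_id)

open H24.OW

variable {S P : Type} [Group S] [Group P] [MulDistribMulAction P S] {J V : Type}

/-- `⁅il e * t, il u * x⁆ = il (el t x u e) * ⁅t, x⁆` -/
def el (t x : SP S P) (u e : S) : S := e * dl t x u * cjl (⁅t, x⁆ * (il u * x)) e⁻¹

theorem el_il (t x : SP S P) (u e : S) : ⁅il e * t, il u * x⁆ = il (el t x u e) * ⁅t, x⁆ := by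
  unfold el
  have h := dl_il t x u
  rw [il_mul, il_mul, ← cjl_il, il_inv]
  have h2 : (il (dl t x u) : SP S P) = ⁅t, il u * x⁆ * ⁅t, x⁆⁻¹ := by rw [h, mul_inv_cancel_right]
  rw [h2]
  simp only [commutatorElement_def]
  group

theorem el_one (t x : SP S P) (u : S) : el t x u 1 = dl t x u := by
  unfold el
  rw [one_mul, inv_one, cjl_one, mul_one]

theorem el_t1 (x : SP S P) (u : S) : el (1 : SP S P) x u 1 = 1 := by
  rw [el_one]
  unfold dl
  rw [commutatorElement_one_left, one_cjl, one_cjl, mul_inv_cancel]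

variable {R : Type} [AddCommGroup R] {K : Subgroup S} {psi : S → R}

theorem dl_mem (hK : ∀ (g : SP S P), ∀ u ∈ K, cjl g u ∈ K) (t x : SP S P) {u : S} (hu : u ∈ K) :
    dl t x u ∈ K := mul_mem (hK _ _ hu) (hK _ _ (inv_mem hu))

theorem el_mem (hK : ∀ (g : SP S P), ∀ u ∈ K, cjl g u ∈ K) (t x : SP S P) {u e : S} (hu : u ∈ K)
    (he : e ∈ K) : el t x u e ∈ K :=
  mul_mem (mul_mem he (dl_mem hK t x hu)) (hK _ _ (inv_mem he))

theorem zb_mem (hK : ∀ (g : SP S P), ∀ u ∈ K, cjl g u ∈ K) (b : SP S P) {z : S} (hz : z ∈ K) :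
    zb b z ∈ K := mul_mem hz (hK _ _ (inv_mem hz))

theorem psi_one (hadd : ∀ u ∈ K, ∀ v ∈ K, psi (u * v) = psi u + psi v) : psi 1 = 0 := by
  have h := hadd 1 (one_mem K) 1 (one_mem K)
  rw [mul_one] at h
  exact left_eq_add.1 h

theorem psi_inv (hadd : ∀ u ∈ K, ∀ v ∈ K, psi (u * v) = psi u + psi v) {u : S} (hu : u ∈ K) :
    psi u⁻¹ = -psi u := by
  have h := hadd u hu u⁻¹ (inv_mem hu)
  rw [mul_inv_cancel, psi_one hadd] at h
  exact (neg_eq_of_add_eq_zero_right h.symm).symm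

/-- conjugation by an element of `K` -/
theorem psi_cj (hK : ∀ (g : SP S P), ∀ u ∈ K, cjl g u ∈ K)
    (hadd : ∀ u ∈ K, ∀ v ∈ K, psi (u * v) = psi u + psi v) {m w : S} (hm : m ∈ K) (hw : w ∈ K)
    (g : SP S P) : psi (cjl (g * il m) w) = psi (cjl g w) := by
  have h1 : cjl (g * il m) w = cjl g m * cjl g w * (cjl g m)⁻¹ := by
    rw [← cjl_cjl, il_cjl, cjl_mul, cjl_mul, cjl_inv]
  rw [h1, hadd _ (mul_mem (hK _ _ hm) (hK _ _ hw)) _ (inv_mem (hK _ _ hm)),
    hadd _ (hK _ _ hm) _ (hK _ _ hw), psi_inv hadd (hK _ _ hm)]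
  abel

/-- THE CHANGE OF THE RELATION -/
theorem rlc (X : AD S P J V) (hK : ∀ (g : SP S P), ∀ u ∈ K, cjl g u ∈ K)
    (hadd : ∀ u ∈ K, ∀ v ∈ K, psi (u * v) = psi u + psi v) (hnd : X.l.Nodup)
    (hbn : ∀ v ∈ X.l, (X.bl v).Nodup) (hbp : ∀ v, ∀ j ∈ X.bl v, X.pj j = v)
    (hjl : ∀ j ∈ X.Jf, X.pj j ∈ X.l ∧ j ∈ X.bl (X.pj j)) (ht1 : ∀ j, j ∉ X.Jf → X.t j = 1)
    {τ m : V → S} (x : J → SP S P) {U e : J → S} (hU : ∀ j, U j ∈ K) (he : ∀ j, e j ∈ K)
    (hm : ∀ v, m v ∈ K) (he0 : ∀ j, j ∉ X.Jf → e j = 1) (h1 : X.RR τ x = 1)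
    (h2 : (X.lc e).RR (fun v => τ v * m v) (fun j => il (U j) * x j) = 1) :
    ∑ j : X.Jf, psi (cjl (cn X τ x j) (el (X.t j) (x j) (U j) (e j))) +
      (X.l.map fun v => psi (cjl (pf X τ x v * il (τ v)) (zb (X.bk x v) (m v)))).sum = 0 := by
  have h0 : psi 1 = 0 := psi_one hadd
  -- the blocks
  have hbk : ∀ v ∈ X.l, ∃ E ∈ K, (X.lc e).bk (fun j => il (U j) * x j) v = il E * X.bk x v ∧
      ∀ g : SP S P, psi (cjl g E) = ((X.bl v).map fun j =>
        psi (cjl (g * wd X.t x (pre (X.bl v) j)) (el (X.t j) (x j) (U j) (e j)))).sum := by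
    intro v hv
    exact prod_ch hK hadd (fun j => ⁅X.t j, x j⁆) (fun j => ⁅(X.lc e).t j, il (U j) * x j⁆)
      (fun j => el (X.t j) (x j) (U j) (e j)) (X.bl v) (hbn v hv) fun j _ =>
        ⟨el_mem hK _ _ (hU j) (he j), el_il _ _ _ _⟩
  obtain ⟨E, hE⟩ : ∃ E : V → S, ∀ v ∈ X.l, E v ∈ K ∧
      (X.lc e).bk (fun j => il (U j) * x j) v = il (E v) * X.bk x v ∧
      ∀ g : SP S P, psi (cjl g (E v)) = ((X.bl v).map fun j =>
        psi (cjl (g * wd X.t x (pre (X.bl v) j)) (el (X.t j) (x j) (U j) (e j)))).sum := by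
    refine ⟨fun v => if h : v ∈ X.l then (hbk v h).choose else 1, fun v hv => ?_⟩
    have h := (hbk v hv).choose_spec
    beta_reduce
    rw [dif_pos hv]
    exact ⟨h.1, h.2⟩
  obtain ⟨F, hF, hF1, hF2⟩ := prod_ch hK hadd (fun v => cj (τ v) (X.bk x v))
    (fun v => cj (τ v * m v) ((X.lc e).bk (fun j => il (U j) * x j) v))
    (fun v => cjl (il (τ v * m v) : SP S P) (E v) * cjl (il (τ v) : SP S P) (zb (X.bk x v) (m v)))
    X.l hnd
    (fun v hv => by
      obtain ⟨e1, e2, -⟩ := hE v hv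
      refine ⟨mul_mem (hK _ _ e1) (hK _ _ (zb_mem hK _ (hm v))), ?_⟩
      rw [e2, il_mul (P := P) (cjl _ _), ← cjl_il, ← cjl_il]
      have e3 := zb_il (X.bk x v) (m v)
      have e4 : (il (zb (X.bk x v) (m v)) : SP S P) = cj (m v) (X.bk x v) * (X.bk x v)⁻¹ := by
        rw [e3, mul_inv_cancel_right]
      rw [e4]
      unfold cj
      rw [il_mul (τ v) (m v)]
      group)
  have h3 : (il F : SP S P) = 1 := by
    have e : (X.lc e).RR (fun v => τ v * m v) (fun j => il (U j) * x j) = il F * X.RR τ x := hF1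
    rw [h1, h2, mul_one] at e
    exact e.symm
  have h4 : F = 1 := il_inj (P := P) (h3.trans il_one.symm)
  have h5 := hF2 1
  rw [h4, cjl_one, h0] at h5
  have h7 := sum_bl X hnd hbn hbp hjl
    (fun j => psi (cjl (cn X τ x j) (el (X.t j) (x j) (U j) (e j)))) fun j hj => by
    rw [ht1 j hj, he0 j hj, el_t1, cjl_one, h0]
  rw [← h7, ← List.sum_map_add, h5]
  congr 1
  refine List.map_congr_left fun v hv => ?_
  obtain ⟨e1, -, e3⟩ := hE v hv
  rw [one_mul, cjl_mul, hadd _ (hK _ _ (hK _ _ e1)) _ (hK _ _ (hK _ _ (zb_mem hK _ (hm v)))),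
    cjl_cjl, cjl_cjl]
  congr 1
  have e4 : ((pre X.l v).map fun w => cj (τ w) (X.bk x w)).prod * (il (τ v * m v) : SP S P) =
      pf X τ x v * il (τ v) * il (m v) := by
    rw [il_mul]
    unfold pf
    group
  rw [e4, psi_cj hK hadd (hm v) e1, e3]
  congr 1
  refine List.map_congr_left fun j hj => ?_
  unfold cn
  rw [hbp v j hj]

end H62.OW
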