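import Pool.Agent.H73.S3.Enr
import Pool.Agent.H73.S3.Bdo
import Pool.Agent.H73.S3.Ord

/-!
# [H62 OW SY] symmetry of two configurations, any label type (MP_b39724_nt, THEOREM OW, S3)

Public and generic version of the private lemmas of H73/S3/Ord. `Λ` the labels, `g : Λ → Px c` the letter of a label, `lg g f` the letters of a configuration `f : Pl K → Option Λ`.
* `Tr X₁ X₂ σ τ₁ τ₂`: transport of the data `AD` under a permutation of the letters: `Cg`, `mv`, `H`, `pr`, `Hh` correspond.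
* `Sy X W T Zc f₁ f₂ s`: the configurations correspond under the permutation `s` of the places; `s` is the identity at `E`, `S0` and at the places of `f₁` which are not `PPc`.
* `sy_of`: `up b v l` and `up b v' l` with `Oe Zc b v v'` correspond.
* `tg`, `eg`: the data of a configuration which are given by the labels; `Sy.tg`, `Sy.eg`, `Sy.npe`: they correspond. `Sy.tr`: the data `adf` correspond in the sense of `Tr`.
* `Sy.kx`: the crossed homomorphisms of layer `m + 1` which belong to the two configurations are the same ones. `Sy.nlg`: the number of the tuples with a property which corresponds.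
-/

set_option autoImplicit false

open scoped NumberField commutatorElement
open IsDedekindDomain
open scoped Classical

noncomputable section

namespace H62.OW

open H73.S3 H63.MA H38.BB H38.BG H57.PC H57.BRA H77.WD H77.WE H77.PC3 H35.CF H35.UB H77.S3 H71.S3 H1.S3

attribute [local instance 50] Fintype.ofFinite

theorem ex_perm {α : Type} {n : ℕ} (v v' : Fin n → α) (hv : Function.Injective v)
    (hv' : Function.Injective v') : ∃ s : Equiv.Perm α, (∀ k, s (v k) = v' k) ∧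
      (∀ w, (∀ k, v k ≠ w) → (∀ k, v' k ≠ w) → s w = w) ∧
      ∀ w, ((∃ k, v k = w) ∨ ∃ k, v' k = w) → ((∃ k, v k = s w) ∨ ∃ k, v' k = s w) := by
  obtain ⟨p, hp⟩ : ∃ p : α → Prop, ∀ w, p w ↔ ((∃ k, v k = w) ∨ ∃ k, v' k = w) :=
    ⟨_, fun w => Iff.rfl⟩
  let x : Fin n ↪ {w // p w} :=
    ⟨fun k => ⟨v k, (hp _).2 (Or.inl ⟨k, rfl⟩)⟩, fun i j hij => hv (congrArg Subtype.val hij)⟩
  let y : Fin n ↪ {w // p w} :=
    ⟨fun k => ⟨v' k, (hp _).2 (Or.inr ⟨k, rfl⟩)⟩, fun i j hij => hv' (congrArg Subtype.val hij)⟩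
  obtain ⟨g, hg⟩ := MulAction.isMultiplyPretransitive_iff.1
    (Equiv.Perm.isMultiplyPretransitive {w // p w} n) x y
  refine ⟨Equiv.Perm.ofSubtype g, fun k => ?_, fun w h1 h2 => ?_, fun w h => ?_⟩
  · show Equiv.Perm.ofSubtype g ((x k : {w // p w}) : α) = v' k
    rw [Equiv.Perm.ofSubtype_apply_of_mem g (x k).2]
    have h1 := DFunLike.congr_fun hg k
    exact congrArg Subtype.val h1
  · refine Equiv.Perm.ofSubtype_apply_of_not_mem g fun h3 => ?_
    rcases (hp w).1 h3 with ⟨k, hk⟩ | ⟨k, hk⟩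
    · exact h1 k hk
    · exact h2 k hk
  · rw [← hp] at h ⊢
    rw [Equiv.Perm.ofSubtype_apply_of_mem g h]
    exact (g ⟨w, h⟩).2

theorem prod_filt {α M : Type} [Monoid M] (p : α → Prop) [DecidablePred p] (g : α → M)
    (l : List α)
    (h : ∀ v ∈ l, ¬p v → g v = 1) :
    (l.map g).prod = ((l.filter fun v => decide (p v)).map g).prod := by
  induction l with
  | nil => rfl
  | cons a l ih =>
    have h1 := ih fun v hv => h v (List.mem_cons_of_mem _ hv)
    rw [List.map_cons, List.prod_cons, List.filter_cons]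
    by_cases ha : p a
    · rw [if_pos (decide_eq_true ha), List.map_cons, List.prod_cons, h1]
    · rw [if_neg (by rw [decide_eq_true_eq]; exact ha), h a List.mem_cons_self ha, one_mul, h1]

theorem list_eq {α : Type} (l : List α) (hl : l.Nodup) (p₁ p₂ : α → Prop)
    [DecidablePred p₁] [DecidablePred p₂] (s : Equiv.Perm α) (hp : ∀ w, p₂ (s w) ↔ p₁ w) (hm : ∀ w, p₁ w → (s w ∈ l ↔ w ∈ l))
    (R : α → α → Prop) (hR : l.Pairwise R)
    (hc : ∀ a ∈ l, ∀ b ∈ l, p₁ a → p₁ b → a ≠ b → R a b → (s a = a ∧ s b = b) ∨ ¬R (s b) (s a)) :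
    (l.filter fun v => decide (p₂ v)) = (l.filter fun v => decide (p₁ v)).map s := by
  have hr : ∀ a ∈ l, ∀ b ∈ l, l.idxOf a < l.idxOf b → R a b := by
    intro a ha b hb hab
    have h1 := List.pairwise_iff_getElem.1 hR _ _ (List.idxOf_lt_length_of_mem ha)
      (List.idxOf_lt_length_of_mem hb) hab
    rwa [List.getElem_idxOf, List.getElem_idxOf] at h1
  have hi : l.Pairwise fun a b => l.idxOf a < l.idxOf b := by
    rw [List.pairwise_iff_getElem]
    intro i j hi hj hij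
    rw [hl.idxOf_getElem, hl.idxOf_getElem]
    exact hij
  have hirr : Std.Irrefl fun a b : α => l.idxOf a < l.idxOf b := ⟨fun a => lt_irrefl _⟩
  have hant : Std.Antisymm fun a b : α => l.idxOf a < l.idxOf b :=
    ⟨fun a b h1 h2 => absurd h2 (lt_asymm h1)⟩
  refine List.Pairwise.eq_of_mem_iff (r := fun a b : α => l.idxOf a < l.idxOf b) (hi.filter _) ?_ ?_
  · rw [List.pairwise_map]
    refine (hi.filter (fun v => decide (p₁ v))).imp_of_mem ?_
    intro a b ha hb hab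
    rw [List.mem_filter, decide_eq_true_eq] at ha hb
    have hne : a ≠ b := fun h => by rw [h] at hab; exact lt_irrefl _ hab
    have hsa := (hm a ha.2).2 ha.1
    have hsb := (hm b hb.2).2 hb.1
    rcases hc a ha.1 b hb.1 ha.2 hb.2 hne (hr a ha.1 b hb.1 hab) with h | h
    · rw [h.1, h.2]
      exact hab
    · by_contra h2
      rcases lt_or_eq_of_le (not_lt.1 h2) with h3 | h3
      · exact h (hr _ hsb _ hsa h3)
      · have h4 : l.idxOf (s b) = l.idxOf (s a) := h3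
        have h5 : s b = s a := (List.idxOf_inj hsb).1 h4
        exact hne (s.injective h5).symm
  · intro a
    rw [List.mem_map]
    constructor
    · intro h
      rw [List.mem_filter, decide_eq_true_eq] at h
      have h1 : p₁ (s.symm a) := by
        rw [← hp, Equiv.apply_symm_apply]
        exact h.2
      refine ⟨s.symm a, ?_, s.apply_symm_apply a⟩
      rw [List.mem_filter, decide_eq_true_eq]
      refine ⟨?_, h1⟩
      rw [← hm _ h1, Equiv.apply_symm_apply]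
      exact h.1
    · rintro ⟨b, hb, rfl⟩
      rw [List.mem_filter, decide_eq_true_eq] at hb ⊢
      exact ⟨(hm b hb.2).2 hb.1, (hp b).2 hb.2⟩

section tr

variable {S P : Type} [Group S] [Group P] [MulDistribMulAction P S] {J V : Type}

/-- transport of the data -/
structure Tr (X₁ X₂ : AD S P J V) (σ : Equiv.Perm J) (τ₁ τ₂ : V → S) : Prop where
  jf : ∀ j, j ∈ X₁.Jf ↔ σ j ∈ X₂.Jf
  pp : ∀ j ∈ X₁.Jf, (X₂.pp (σ j) ↔ X₁.pp j)
  G : ∀ x₁ x₂ : J → SP S P, (∀ j ∈ X₁.Jf, x₂ (σ j) = x₁ j) → (X₂.G x₂ ↔ X₁.G x₁)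
  RR : ∀ x₁ x₂ : J → SP S P, (∀ j ∈ X₁.Jf, x₂ (σ j) = x₁ j) → X₂.RR τ₂ x₂ = X₁.RR τ₁ x₁

variable {X₁ X₂ : AD S P J V} {σ : Equiv.Perm J} {τ₁ τ₂ : V → S}

def ej (h : Tr X₁ X₂ σ τ₁ τ₂) : X₁.Jf ≃ X₂.Jf := σ.subtypeEquiv h.jf

theorem ej_coe (h : Tr X₁ X₂ σ τ₁ τ₂) (j : X₁.Jf) : ((ej h j : X₂.Jf) : J) = σ j := rfl

def eu (h : Tr X₁ X₂ σ τ₁ τ₂) : (X₁.Jf → S) ≃ (X₂.Jf → S) :=
  Equiv.arrowCongr (ej h) (Equiv.refl S)

theorem eu_ap (h : Tr X₁ X₂ σ τ₁ τ₂) (u : X₁.Jf → S) (j : X₁.Jf) :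
    eu h u (ej h j) = u j := by
  show u ((ej h).symm (ej h j)) = u j
  rw [Equiv.symm_apply_apply]

theorem mem_cg [Fintype S] (h : Tr X₁ X₂ σ τ₁ τ₂) (m : ℕ) (u : X₁.Jf → S) :
    u ∈ X₁.Cg m ↔ eu h u ∈ X₂.Cg m := by
  have e : ∀ j : X₁.Jf, (if X₂.pp (ej h j : X₂.Jf) then m else m + 1) =
      if X₁.pp j then m else m + 1 := fun j => if_congr (h.pp j j.2) rfl rfl
  unfold AD.Cg
  simp only [Finset.mem_filter, Finset.mem_univ, true_and]
  constructor
  · intro hu j₂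
    obtain ⟨j, rfl⟩ := (ej h).surjective j₂
    rw [eu_ap, e]
    exact hu j
  · intro hu j
    have h1 := hu (ej h j)
    rw [eu_ap, e] at h1
    exact h1

theorem mv_tr (h : Tr X₁ X₂ σ τ₁ τ₂) (u : X₁.Jf → S) {x₁ x₂ : J → SP S P}
    (hx : ∀ j ∈ X₁.Jf, x₂ (σ j) = x₁ j) :
    ∀ j ∈ X₁.Jf, X₂.mv (eu h u) x₂ (σ j) = X₁.mv u x₁ j := by
  intro j hj
  unfold AD.mv
  rw [dif_pos ((h.jf j).1 hj), dif_pos hj, hx j hj]
  have h1 : eu h u ⟨σ j, (h.jf j).1 hj⟩ = u ⟨j, hj⟩ := eu_ap h u ⟨j, hj⟩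
  rw [h1]

theorem h_tr [Fintype S] (h : Tr X₁ X₂ σ τ₁ τ₂) (m : ℕ) {x₁ x₂ : J → SP S P}
    (hx : ∀ j ∈ X₁.Jf, x₂ (σ j) = x₁ j) : X₂.H m τ₂ x₂ = X₁.H m τ₁ x₁ := by
  have h1 : ((X₁.Cg m).filter fun u => X₁.G (X₁.mv u x₁) ∧ X₁.RR τ₁ (X₁.mv u x₁) = 1).card =
      ((X₂.Cg m).filter fun u => X₂.G (X₂.mv u x₂) ∧ X₂.RR τ₂ (X₂.mv u x₂) = 1).card := by
    refine Finset.card_equiv (eu h) fun u => ?_
    rw [Finset.mem_filter, Finset.mem_filter, ← mem_cg h, h.G _ _ (mv_tr h u hx),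
      h.RR _ _ (mv_tr h u hx)]
  have h2 : (X₁.Cg m).card = (X₂.Cg m).card := Finset.card_equiv (eu h) fun u => mem_cg h m u
  unfold AD.H
  rw [h1, h2]

theorem pr_tr {q m : ℕ} (h : Tr X₁ X₂ σ τ₁ τ₂) (u : X₁.Jf → S)
    {η₁ : X₁.Jf → Du S q m × Du S q (m + 1)} {η₂ : X₂.Jf → Du S q m × Du S q (m + 1)}
    (hη : ∀ j, η₂ (ej h j) = η₁ j) : X₂.pr η₂ (eu h u) = X₁.pr η₁ u := by
  unfold AD.pr
  symm
  refine Fintype.sum_equiv (ej h) _ _ fun j => ?_
  rw [eu_ap, hη]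
  exact if_congr (h.pp j j.2).symm rfl rfl

theorem hh_tr [Fintype S] {q m : ℕ} (h : Tr X₁ X₂ σ τ₁ τ₂) {x₁ x₂ : J → SP S P}
    (hx : ∀ j ∈ X₁.Jf, x₂ (σ j) = x₁ j)
    {η₁ : X₁.Jf → Du S q m × Du S q (m + 1)} {η₂ : X₂.Jf → Du S q m × Du S q (m + 1)}
    (hη : ∀ j, η₂ (ej h j) = η₁ j) : X₂.Hh m τ₂ x₂ η₂ = X₁.Hh m τ₁ x₁ η₁ := by
  have h1 : ∑ u ∈ X₁.Cg m, X₁.H (m + 1) τ₁ (X₁.mv u x₁) * H63.MA.ep q (-X₁.pr η₁ u) =
      ∑ u ∈ X₂.Cg m, X₂.H (m + 1) τ₂ (X₂.mv u x₂) * H63.MA.ep q (-X₂.pr η₂ u) := by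
    refine Finset.sum_equiv (eu h) (fun u => mem_cg h m u) fun u _ => ?_
    rw [h_tr h (m + 1) (mv_tr h u hx), pr_tr h u hη]
  have h2 : (X₁.Cg m).card = (X₂.Cg m).card := Finset.card_equiv (eu h) fun u => mem_cg h m u
  unfold AD.Hh
  rw [h1, h2]

/-- the chosen function with the property `Pr` -/
def ck {M : Type} [Zero M] (Pr : (FreeGroup J → M) → Prop) : FreeGroup J → M :=
  if h : ∃ k, Pr k then h.choose else 0

theorem kk_ck {q m : ℕ} (X : AD S P J V) (η : X.Jf → Du S q m × Du S q (m + 1)) :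
    X.kk η = ck (X.Kx η) := rfl

end tr

variable {K : Type} [Field K] [NumberField K] {Ω : Type} [Field Ω] [Algebra K Ω]
  {p N : ℕ} {ζ : K} {D : RD0 K p ζ} {Q : DP K Ω} {A : GS D Ω} {P : Type} [Group P]
  {c : CL p N P} {S : Type} [Group S] [MulDistribMulAction P S] {Λ : Type}

/-- the letters of a configuration -/
def lg (g : Λ → Px c) (f : Pl K → Option Λ) (v : Pl K) : Option (Px c) := (f v).map g

/-- the conjugators of a configuration -/
def tg (t : Λ → S) (τ₀ : Pl K → S) (f : Pl K → Option Λ) (v : Pl K) : S := (f v).elim (τ₀ v) t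

/-- the data of the letters of a configuration -/
def eg {E : Type} {n : ℕ} (e : Λ → E) (e₀ : Pl K ⊕ Fin n → E) (f : Pl K → Option Λ) :
    Pl K ⊕ Fin n → E :=
  Sum.elim (fun v => (f v).elim (e₀ (Sum.inl v)) e) fun i => e₀ (Sum.inr i)

/-- symmetry of two configurations -/
structure Sy (X : FD A P S) (W : WF A) (T : ℝ) (Zc : Finset (Pl K))
    (f₁ f₂ : Pl K → Option Λ) (s : Equiv.Perm (Pl K)) : Prop where
  f : ∀ w, f₂ (s w) = f₁ w
  z : ∀ w, (s w ∈ Zc ↔ w ∈ Zc)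
  e : ∀ w ∈ X.E, s w = w
  s0 : ∀ w ∈ D.S0, s w = w
  n : ∀ w ∈ sp Zc f₁, ¬PPc X W T w → s w = w
  p : ∀ w ∈ sp Zc f₁, (PPc X W T (s w) ↔ PPc X W T w)
  l : (W.l.filter fun w => decide (w ∈ sp Zc f₂ ∨ w ∈ X.E ∨ w ∈ D.S0)) =
    (W.l.filter fun w => decide (w ∈ sp Zc f₁ ∨ w ∈ X.E ∨ w ∈ D.S0)).map s
  ze : Disjoint Zc X.E

theorem sp_lg (g : Λ → Px c) (Zc : Finset (Pl K)) (f : Pl K → Option Λ) :
    sp Zc (lg g f) = sp Zc f := by
  ext v
  rw [mem_sp, mem_sp]
  unfold lg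
  rw [ne_eq, Option.map_eq_none_iff]

section sy

variable {X : FD A P S} {W : WF A} {T : ℝ} {Zc : Finset (Pl K)}
  {f₁ f₂ : Pl K → Option Λ} {s : Equiv.Perm (Pl K)}

theorem Sy.sp (h : Sy X W T Zc f₁ f₂ s) (w : Pl K) :
    s w ∈ H35.CF.sp Zc f₂ ↔ w ∈ H35.CF.sp Zc f₁ := by
  rw [mem_sp, mem_sp, h.z, h.f]

theorem Sy.ei (h : Sy X W T Zc f₁ f₂ s) (w : Pl K) : s w ∈ X.E ↔ w ∈ X.E := by
  constructor
  · intro h1
    have h2 := s.injective (h.e _ h1)
    rwa [h2] at h1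
  · intro h1
    rw [h.e w h1]
    exact h1

theorem Sy.si (h : Sy X W T Zc f₁ f₂ s) (w : Pl K) : s w ∈ D.S0 ↔ w ∈ D.S0 := by
  constructor
  · intro h1
    have h2 := s.injective (h.s0 _ h1)
    rwa [h2] at h1
  · intro h1
    rw [h.s0 w h1]
    exact h1

theorem Sy.lge (h : Sy X W T Zc f₁ f₂ s) (g : Λ → Px c) (w : Pl K) :
    lg g f₂ (s w) = lg g f₁ w := by
  unfold lg
  rw [h.f]

variable (A) in
/-- the permutation of the letters -/
def sg (s : Equiv.Perm (Pl K)) : Equiv.Perm (Pl K ⊕ Fin A.g) :=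
  Equiv.sumCongr s (Equiv.refl _)

theorem sg_inl (s : Equiv.Perm (Pl K)) (w : Pl K) :
    sg A s (Sum.inl w) = Sum.inl (s w) := rfl

theorem sg_inr (s : Equiv.Perm (Pl K)) (i : Fin A.g) :
    sg A s (Sum.inr i) = Sum.inr i := rfl

theorem Sy.t (h : Sy X W T Zc f₁ f₂ s) (G : SG c S) (B : SD D Q A) (g : Λ → Px c)
    (j : Pl K ⊕ Fin A.g) : (adf G B X W T Zc (lg g f₂)).t (sg A s j) =
      (adf G B X W T Zc (lg g f₁)).t j := by
  rcases j with w | i
  · show (if s w ∈ X.E then (⟨X.sv (s w), X.φ (W.L.t (s w))⟩ : SP S P) else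
      (if s w ∈ Zc then lg g f₂ (s w) else none).elim 1 fun a => il (G.y a)) =
      (if w ∈ X.E then (⟨X.sv w, X.φ (W.L.t w)⟩ : SP S P) else
      (if w ∈ Zc then lg g f₁ w else none).elim 1 fun a => il (G.y a))
    by_cases hw : w ∈ X.E
    · rw [h.e w hw, if_pos hw, if_pos hw]
    · rw [if_neg (mt (h.ei w).1 hw), if_neg hw]
      by_cases hz : w ∈ Zc
      · rw [if_pos ((h.z w).2 hz), if_pos hz, h.lge]
      · rw [if_neg (mt (h.z w).1 hz), if_neg hz]
  · rfl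

theorem ph_eq (G : SG c S) (B : SD D Q A) (X : FD A P S) (W : WF A) (T : ℝ)
    (Zc : Finset (Pl K)) (f f' : Pl K → Option (Px c)) :
    (adf G B X W T Zc f).ph = (adf G B X W T Zc f').ph := by
  unfold AD.ph
  congr 1
  funext j
  have ho : ∀ o : Option (Px c), ((o.elim 1 fun a => il (G.y a)) : SP S P).right = 1 := by
    intro o
    cases o <;> rfl
  rcases j with w | i
  · show ((if w ∈ X.E then (⟨X.sv w, X.φ (W.L.t w)⟩ : SP S P) else
      (if w ∈ Zc then f w else none).elim 1 fun a => il (G.y a))).right =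
      ((if w ∈ X.E then (⟨X.sv w, X.φ (W.L.t w)⟩ : SP S P) else
      (if w ∈ Zc then f' w else none).elim 1 fun a => il (G.y a))).right
    by_cases hw : w ∈ X.E
    · rw [if_pos hw, if_pos hw]
    · rw [if_neg hw, if_neg hw, ho, ho]
  · rfl

theorem mem_jf (G : SG c S) (B : SD D Q A) (X : FD A P S) (W : WF A) (T : ℝ)
    (Zc : Finset (Pl K)) (g : Λ → Px c) (f : Pl K → Option Λ) (w : Pl K) :
    (Sum.inl w : Pl K ⊕ Fin A.g) ∈ (adf G B X W T Zc (lg g f)).Jf ↔
      w ∈ H35.CF.sp Zc f ∨ w ∈ X.E := by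
  show (Sum.inl w : Pl K ⊕ Fin A.g) ∈ (H35.CF.sp Zc (lg g f) ∪ X.E).disjSum Finset.univ ↔ _
  rw [Finset.inl_mem_disjSum, Finset.mem_union, sp_lg]

theorem mem_jr (G : SG c S) (B : SD D Q A) (X : FD A P S) (W : WF A) (T : ℝ)
    (Zc : Finset (Pl K)) (f : Pl K → Option (Px c)) (i : Fin A.g) :
    (Sum.inr i : Pl K ⊕ Fin A.g) ∈ (adf G B X W T Zc f).Jf := by
  show (Sum.inr i : Pl K ⊕ Fin A.g) ∈ (H35.CF.sp Zc f ∪ X.E).disjSum Finset.univ
  rw [Finset.inr_mem_disjSum]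
  exact Finset.mem_univ _

theorem pp_inl (G : SG c S) (B : SD D Q A) (X : FD A P S) (W : WF A) (T : ℝ)
    (Zc : Finset (Pl K)) (g : Λ → Px c) (f : Pl K → Option Λ) (w : Pl K) :
    (adf G B X W T Zc (lg g f)).pp (Sum.inl w) ↔ w ∈ H35.CF.sp Zc f ∧ PPc X W T w := by
  show w ∈ H35.CF.sp Zc (lg g f) ∧ PPc X W T w ↔ _
  rw [sp_lg]

theorem Sy.pp (h : Sy X W T Zc f₁ f₂ s) (G : SG c S) (B : SD D Q A) (g : Λ → Px c)
    (j : Pl K ⊕ Fin A.g) : (adf G B X W T Zc (lg g f₂)).pp (sg A s j) ↔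
      (adf G B X W T Zc (lg g f₁)).pp j := by
  rcases j with w | i
  · rw [sg_inl, pp_inl, pp_inl, h.sp]
    constructor
    · rintro ⟨h1, h2⟩
      exact ⟨h1, (h.p w h1).1 h2⟩
    · rintro ⟨h1, h2⟩
      exact ⟨h1, (h.p w h1).2 h2⟩
  · exact Iff.rfl

theorem Sy.jf (h : Sy X W T Zc f₁ f₂ s) (G : SG c S) (B : SD D Q A) (g : Λ → Px c)
    (j : Pl K ⊕ Fin A.g) : j ∈ (adf G B X W T Zc (lg g f₁)).Jf ↔
      sg A s j ∈ (adf G B X W T Zc (lg g f₂)).Jf := by
  rcases j with w | i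
  · rw [sg_inl, mem_jf, mem_jf, h.sp, h.ei]
  · exact ⟨fun _ => mem_jr G B X W T Zc _ i, fun _ => mem_jr G B X W T Zc _ i⟩

theorem Sy.tge (h : Sy X W T Zc f₁ f₂ s) (t : Λ → S) (τ₀ : Pl K → S) (w : Pl K)
    (hw : w ∈ H35.CF.sp Zc f₁ ∨ w ∈ X.E ∨ w ∈ D.S0) :
    tg t τ₀ f₂ (s w) = tg t τ₀ f₁ w := by
  unfold tg
  rw [h.f]
  rcases hw with hw | hw | hw
  · obtain ⟨a, ha⟩ := Option.ne_none_iff_exists'.1 (mem_sp.1 hw).2
    rw [ha]
    rfl
  · rw [h.e w hw]
  · rw [h.s0 w hw]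

theorem Sy.ege {E : Type} (h : Sy X W T Zc f₁ f₂ s) (G : SG c S) (B : SD D Q A) (g : Λ → Px c)
    (e : Λ → E) (e₀ : Pl K ⊕ Fin A.g → E) (j : Pl K ⊕ Fin A.g)
    (hj : j ∈ (adf G B X W T Zc (lg g f₁)).Jf) :
    eg e e₀ f₂ (sg A s j) = eg e e₀ f₁ j := by
  rcases j with w | i
  · rw [mem_jf] at hj
    show (f₂ (s w)).elim (e₀ (Sum.inl (s w))) e = (f₁ w).elim (e₀ (Sum.inl w)) e
    rw [h.f]
    rcases hj with hw | hw
    · obtain ⟨a, ha⟩ := Option.ne_none_iff_exists'.1 (mem_sp.1 hw).2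
      rw [ha]
      rfl
    · rw [h.e w hw]
  · rfl

theorem bk_dead (G : SG c S) (B : SD D Q A) (X : FD A P S) (W : WF A) (T : ℝ)
    (Zc : Finset (Pl K)) (g : Λ → Px c) (f : Pl K → Option Λ) (x : Pl K ⊕ Fin A.g → SP S P)
    (v : Pl K) (hv : ¬(v ∈ H35.CF.sp Zc f ∨ v ∈ X.E ∨ v ∈ D.S0)) :
    (adf G B X W T Zc (lg g f)).bk x v = 1 := by
  push Not at hv
  obtain ⟨h1, h2, h3⟩ := hv
  have ht : (adf G B X W T Zc (lg g f)).t (Sum.inl v) = 1 := by
    show (if v ∈ X.E then (⟨X.sv v, X.φ (W.L.t v)⟩ : SP S P) else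
      (if v ∈ Zc then lg g f v else none).elim 1 fun a => il (G.y a)) = 1
    rw [if_neg h2]
    by_cases hz : v ∈ Zc
    · rw [if_pos hz]
      have h4 : lg g f v = none := by
        by_contra h5
        rw [← sp_lg g] at h1
        exact h1 (mem_sp.2 ⟨hz, h5⟩)
      rw [h4]
      rfl
    · rw [if_neg hz]
      rfl
  have hb : (adf G B X W T Zc (lg g f)).bl v = [Sum.inl v] := if_neg h3
  unfold AD.bk H1.S3.wd
  rw [hb, List.map_cons, List.map_nil, List.prod_cons, List.prod_nil, mul_one]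
  show ⁅(adf G B X W T Zc (lg g f)).t (Sum.inl v), x (Sum.inl v)⁆ = 1
  rw [ht, commutatorElement_one_left]

theorem Sy.bk (h : Sy X W T Zc f₁ f₂ s) (G : SG c S) (B : SD D Q A) (g : Λ → Px c)
    (x₁ x₂ : Pl K ⊕ Fin A.g → SP S P)
    (hx : ∀ j ∈ (adf G B X W T Zc (lg g f₁)).Jf, x₂ (sg A s j) = x₁ j) (w : Pl K)
    (hw : w ∈ H35.CF.sp Zc f₁ ∨ w ∈ X.E ∨ w ∈ D.S0) :
    (adf G B X W T Zc (lg g f₂)).bk x₂ (s w) =
      (adf G B X W T Zc (lg g f₁)).bk x₁ w := by
  unfold AD.bk H1.S3.wd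
  by_cases h0 : w ∈ D.S0
  · rw [h.s0 w h0]
    have hb : ∀ f : Pl K → Option (Px c), (adf G B X W T Zc f).bl w =
        ((List.finRange A.g).filter fun i => B.pl i = w).map Sum.inr := fun f => if_pos h0
    rw [hb, hb, List.map_map, List.map_map]
    congr 1
    refine List.map_congr_left fun i _ => ?_
    have h1 := hx (Sum.inr i) (mem_jr G B X W T Zc _ i)
    rw [sg_inr] at h1
    show ⁅(adf G B X W T Zc (lg g f₂)).t (Sum.inr i), x₂ (Sum.inr i)⁆ =
      ⁅(adf G B X W T Zc (lg g f₁)).t (Sum.inr i), x₁ (Sum.inr i)⁆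
    rw [h1]
    rfl
  · have hb : ∀ f : Pl K → Option (Px c), ∀ v, v ∉ D.S0 →
        (adf G B X W T Zc f).bl v = [Sum.inl v] := fun f v hv => if_neg hv
    rw [hb _ _ (mt (h.si w).1 h0), hb _ _ h0]
    have hj : (Sum.inl w : Pl K ⊕ Fin A.g) ∈ (adf G B X W T Zc (lg g f₁)).Jf := by
      rw [mem_jf]
      rcases hw with hw | hw | hw
      · exact Or.inl hw
      · exact Or.inr hw
      · exact absurd hw h0
    have h1 := hx _ hj
    have h2 := h.t G B g (Sum.inl w)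
    rw [sg_inl] at h1 h2
    rw [List.map_cons, List.map_nil, List.map_cons, List.map_nil, h1, h2]

theorem Sy.tr (h : Sy X W T Zc f₁ f₂ s) (G : SG c S) (B : SD D Q A) (g : Λ → Px c)
    (t : Λ → S) (τ₀ : Pl K → S) :
    Tr (adf G B X W T Zc (lg g f₁)) (adf G B X W T Zc (lg g f₂)) (sg A s)
      (tg t τ₀ f₁) (tg t τ₀ f₂) where
  jf := h.jf G B g
  pp j _ := h.pp G B g j
  G := by
    intro x₁ x₂ hx
    show ((∀ v ∈ H35.CF.sp Zc (lg g f₂), ∀ a, lg g f₂ v = some a →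
        Commute a.1 (G.Pi (x₂ (Sum.inl v)))) ∧
      (∀ v ∈ X.E, G.Pi (x₂ (Sum.inl v)) = X.l.F v) ∧ ∀ i, G.Pi (x₂ (Sum.inr i)) = X.l.b i) ↔
      ((∀ v ∈ H35.CF.sp Zc (lg g f₁), ∀ a, lg g f₁ v = some a →
        Commute a.1 (G.Pi (x₁ (Sum.inl v)))) ∧
      (∀ v ∈ X.E, G.Pi (x₁ (Sum.inl v)) = X.l.F v) ∧ ∀ i, G.Pi (x₁ (Sum.inr i)) = X.l.b i)
    have hi : ∀ v, (v ∈ H35.CF.sp Zc f₁ ∨ v ∈ X.E) → x₂ (Sum.inl (s v)) = x₁ (Sum.inl v) := by
      intro v hv
      have h1 := hx (Sum.inl v) ((mem_jf G B X W T Zc g f₁ v).2 hv)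
      rwa [sg_inl] at h1
    have hr : ∀ i : Fin A.g, x₂ (Sum.inr i) = x₁ (Sum.inr i) := by
      intro i
      have h1 := hx (Sum.inr i) (mem_jr G B X W T Zc _ i)
      rwa [sg_inr] at h1
    refine and_congr ?_ (and_congr ?_ ?_)
    · rw [sp_lg, sp_lg]
      constructor
      · intro h1 v hv a ha
        have h2 := h1 (s v) ((h.sp v).2 hv) a ((h.lge g v).trans ha)
        rwa [hi v (Or.inl hv)] at h2
      · intro h1 v hv a ha
        obtain ⟨w, rfl⟩ := s.surjective v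
        have hw := (h.sp w).1 hv
        rw [hi w (Or.inl hw)]
        exact h1 w hw a ((h.lge g w).symm.trans ha)
    · refine forall₂_congr fun v hv => ?_
      have h1 := hi v (Or.inr hv)
      rw [h.e v hv] at h1
      rw [h1]
    · refine forall_congr' fun i => ?_
      rw [hr]
  RR := by
    intro x₁ x₂ hx
    have key : ∀ (f : Pl K → Option Λ) (τ : Pl K → S)
        (x : Pl K ⊕ Fin A.g → SP S P), (adf G B X W T Zc (lg g f)).RR τ x =
        ((W.l.filter fun w => decide (w ∈ H35.CF.sp Zc f ∨ w ∈ X.E ∨ w ∈ D.S0)).map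
          fun v => cj (τ v) ((adf G B X W T Zc (lg g f)).bk x v)).prod := by
      intro f τ x
      refine prod_filt (fun w => w ∈ H35.CF.sp Zc f ∨ w ∈ X.E ∨ w ∈ D.S0)
        (fun v => cj (τ v) ((adf G B X W T Zc (lg g f)).bk x v)) W.l fun v _ hv => ?_
      show cj (τ v) ((adf G B X W T Zc (lg g f)).bk x v) = 1
      rw [bk_dead G B X W T Zc g f x v hv]
      unfold cj
      group
    rw [key, key, h.l, List.map_map]
    congr 1
    refine List.map_congr_left fun w hw => ?_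
    rw [List.mem_filter, decide_eq_true_eq] at hw
    show cj (tg t τ₀ f₂ (s w)) ((adf G B X W T Zc (lg g f₂)).bk x₂ (s w)) = _
    rw [h.tge t τ₀ w hw.2, h.bk G B g x₁ x₂ hx w hw.2]

theorem Sy.np (h : Sy X W T Zc f₁ f₂ s) (G : SG c S) (B : SD D Q A) (g : Λ → Px c)
    (j : Pl K ⊕ Fin A.g) : (j ∈ (adf G B X W T Zc (lg g f₁)).Jf ∧
        ¬(adf G B X W T Zc (lg g f₁)).pp j) ↔
      (j ∈ (adf G B X W T Zc (lg g f₂)).Jf ∧
        ¬(adf G B X W T Zc (lg g f₂)).pp j) := by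
  rcases j with w | i
  · rw [mem_jf, mem_jf, pp_inl, pp_inl]
    constructor
    · rintro ⟨h1 | h1, h2⟩
      · have h3 : ¬PPc X W T w := fun h4 => h2 ⟨h1, h4⟩
        have h5 := (h.sp w).2 h1
        rw [h.n w h1 h3] at h5
        exact ⟨Or.inl h5, fun h6 => h3 h6.2⟩
      · exact ⟨Or.inr h1, fun h6 => Finset.disjoint_left.1 h.ze (mem_sp.1 h6.1).1 h1⟩
    · rintro ⟨h1 | h1, h2⟩
      · have h3 : ¬PPc X W T w := fun h4 => h2 ⟨h1, h4⟩
        obtain ⟨w', rfl⟩ := s.surjective w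
        have h5 := (h.sp w').1 h1
        have h6 : ¬PPc X W T w' := fun h7 => h3 ((h.p w' h5).2 h7)
        have h8 := h.n w' h5 h6
        rw [h8]
        exact ⟨Or.inl h5, fun h9 => h6 h9.2⟩
      · exact ⟨Or.inr h1, fun h6 => Finset.disjoint_left.1 h.ze (mem_sp.1 h6.1).1 h1⟩
  · exact ⟨fun _ => ⟨mem_jr G B X W T Zc _ i, not_false⟩,
      fun _ => ⟨mem_jr G B X W T Zc _ i, not_false⟩⟩

theorem Sy.npe {E : Type} (h : Sy X W T Zc f₁ f₂ s) (G : SG c S) (B : SD D Q A) (g : Λ → Px c)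
    (e : Λ → E) (e₀ : Pl K ⊕ Fin A.g → E) (j : Pl K ⊕ Fin A.g)
    (hj : j ∈ (adf G B X W T Zc (lg g f₁)).Jf)
    (hp : ¬(adf G B X W T Zc (lg g f₁)).pp j) :
    eg e e₀ f₂ j = eg e e₀ f₁ j := by
  rcases j with w | i
  · rw [mem_jf] at hj
    rw [pp_inl] at hp
    have h1 : s w = w := by
      rcases hj with h2 | h2
      · exact h.n w h2 fun h4 => hp ⟨h2, h4⟩
      · exact h.e w h2
    have h2 := h.f w
    rw [h1] at h2
    show (f₂ w).elim (e₀ (Sum.inl w)) e = (f₁ w).elim (e₀ (Sum.inl w)) e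
    rw [h2]
  · rfl

/-- the crossed homomorphisms which belong to two families are the same ones -/
theorem Sy.kx {q m : ℕ} (h : Sy X W T Zc f₁ f₂ s) (G : SG c S) (B : SD D Q A) (g : Λ → Px c)
    (η₁ : (adf G B X W T Zc (lg g f₁)).Jf → Du S q m × Du S q (m + 1))
    (η₂ : (adf G B X W T Zc (lg g f₂)).Jf → Du S q m × Du S q (m + 1))
    (hη : ∀ j (h1 : j ∈ (adf G B X W T Zc (lg g f₁)).Jf)
      (h2 : j ∈ (adf G B X W T Zc (lg g f₂)).Jf), ¬(adf G B X W T Zc (lg g f₁)).pp j →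
      (η₂ ⟨j, h2⟩).2 = (η₁ ⟨j, h1⟩).2)
    (k : FreeGroup (Pl K ⊕ Fin A.g) → Du S q (m + 1)) :
    (adf G B X W T Zc (lg g f₁)).Kx η₁ k ↔ (adf G B X W T Zc (lg g f₂)).Kx η₂ k := by
  constructor
  · intro hk
    refine ⟨fun a b => ?_, fun j hj => hk.of j (mt (h.np G B g j).1 hj), fun j hj => ?_⟩
    · rw [ph_eq G B X W T Zc (lg g f₂) (lg g f₁)]
      exact hk.ch a b
    · have h1 := (h.np G B g j).2 ⟨j.2, hj⟩
      have h2 := hk.ze ⟨j, h1.1⟩ h1.2
      exact h2.trans (hη j h1.1 j.2 h1.2).symm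
  · intro hk
    refine ⟨fun a b => ?_, fun j hj => hk.of j (mt (h.np G B g j).2 hj), fun j hj => ?_⟩
    · rw [ph_eq G B X W T Zc (lg g f₁) (lg g f₂)]
      exact hk.ch a b
    · have h1 := (h.np G B g j).1 ⟨j.2, hj⟩
      have h2 := hk.ze ⟨j, h1.1⟩ h1.2
      exact h2.trans (hη j j.2 h1.1 hj)

theorem Sy.y (h : Sy X W T Zc f₁ f₂ s) (G : SG c S) (B : SD D Q A) (g : Λ → Px c) (w : Pl K) :
    (adf G B X W T Zc (lg g f₂)).y (Sum.inl (s w)) =
      (adf G B X W T Zc (lg g f₁)).y (Sum.inl w) := by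
  unfold AD.y
  rw [← h.t G B g (Sum.inl w)]
  rfl

/-- the tuples correspond -/
theorem Sy.tp (h : Sy X W T Zc f₁ f₂ s) (n : ℕ) (v : Fin n → Pl K) :
    (fun k => s (v k)) ∈ Tp Zc (PPc X W T) f₂ n ↔ v ∈ Tp Zc (PPc X W T) f₁ n := by
  unfold Tp
  simp only [Finset.mem_filter, Fintype.mem_piFinset]
  refine and_congr ?_ ?_
  · refine forall_congr' fun k => ?_
    rw [h.sp]
    exact and_congr_right fun h2 => h.p _ h2
  · constructor
    · intro h2 i j hij
      exact h2 (congrArg s hij)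
    · intro h2 i j hij
      exact h2 (s.injective hij)

/-- the number of the tuples with a property which corresponds -/
theorem Sy.nl (h : Sy X W T Zc f₁ f₂ s) (n : ℕ)
    (R : (Pl K → Option Λ) → (Fin n → Pl K) → Prop)
    (hR : ∀ v : Fin n → Pl K, (∀ k, v k ∈ H35.CF.sp Zc f₁ ∧ PPc X W T (v k)) →
      Function.Injective v → (R f₁ v ↔ R f₂ fun k => s (v k))) :
    Nl Zc (PPc X W T) n R f₁ = Nl Zc (PPc X W T) n R f₂ := by
  unfold Nl
  refine Finset.card_equiv (Equiv.arrowCongr (Equiv.refl _) s) fun v => ?_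
  have h0 : (Equiv.arrowCongr (Equiv.refl (Fin n)) s) v = fun k => s (v k) := rfl
  rw [Finset.mem_filter, Finset.mem_filter, h0, h.tp n v]
  refine and_congr_right fun h2 => ?_
  unfold Tp at h2
  rw [Finset.mem_filter, Fintype.mem_piFinset] at h2
  exact hR v (fun k => Finset.mem_filter.1 (h2.1 k)) h2.2

theorem Sy.pj (h : Sy X W T Zc f₁ f₂ s) (G : SG c S) (B : SD D Q A) (g : Λ → Px c)
    (j : Pl K ⊕ Fin A.g) : (adf G B X W T Zc (lg g f₂)).pj (sg A s j) =
      s ((adf G B X W T Zc (lg g f₁)).pj j) := by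
  rcases j with w | i
  · rfl
  · show B.pl i = s (B.pl i)
    rw [h.s0 _ (B.mem i)]

theorem Sy.vf (h : Sy X W T Zc f₁ f₂ s) (G : SG c S) (B : SD D Q A) (g : Λ → Px c) :
    (adf G B X W T Zc (lg g f₁)).Vf.card = (adf G B X W T Zc (lg g f₂)).Vf.card := by
  have h1 : (adf G B X W T Zc (lg g f₂)).Vf = (adf G B X W T Zc (lg g f₁)).Vf.image s := by
    unfold AD.Vf
    rw [Finset.image_image]
    ext v
    simp only [Finset.mem_image, Function.comp_apply]
    constructor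
    · rintro ⟨j, hj, rfl⟩
      obtain ⟨j', rfl⟩ := (sg A s).surjective j
      exact ⟨j', (h.jf G B g j').2 hj, (h.pj G B g j').symm⟩
    · rintro ⟨j, hj, rfl⟩
      exact ⟨sg A s j, (h.jf G B g j).1 hj, h.pj G B g j⟩
  rw [h1, Finset.card_image_of_injective _ s.injective]

theorem Sy.rich (h : Sy X W T Zc f₁ f₂ s) (g : Λ → Px c) (M : ℕ) :
    Rich X W T Zc M (lg g f₁) ↔ Rich X W T Zc M (lg g f₂) := by
  unfold Rich
  refine forall_congr' fun a => ?_
  have h1 : (Zc.filter fun v => lg g f₁ v = some a ∧ PPc X W T v).card =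
      (Zc.filter fun v => lg g f₂ v = some a ∧ PPc X W T v).card := by
    refine Finset.card_equiv s fun v => ?_
    rw [Finset.mem_filter, Finset.mem_filter, h.z, h.lge]
    refine and_congr_right fun h2 => and_congr_right fun h3 => ?_
    refine (h.p v (mem_sp.2 ⟨h2, fun h4 => ?_⟩)).symm
    unfold lg at h3
    rw [h4] at h3
    exact absurd h3 (Option.some_ne_none a).symm
  rw [h1]

end sy

omit [MulDistribMulAction P S] in
/-- `up b v l` and `up b v' l` correspond -/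
theorem sy_of {n : ℕ} (X : FD A P S) (W : WF A) (T : ℝ) (Zc : Finset (Pl K)) (hZc : Zc ⊆ W.Z) (hE : X.E ⊆ W.Z)
    (hZs : ∀ v ∈ W.Z, v ∉ D.S0) (hnd : W.l.Nodup) (hlz : ∀ v, v ∈ W.l ↔ v ∈ W.Z ∨ v ∈ D.S0)
    (hZE : Disjoint Zc X.E) (hET : ∀ v ∈ X.E, (nm v : ℝ) ≤ T) (hsrt : W.Srt)
    (l : Fin n → Λ) (b : Pl K → Option Λ) (v v' : Fin n → Pl K)
    (hv : v ∈ H35.CF.Fr Zc (PPc X W T) b n) (hv' : v' ∈ H35.CF.Fr Zc (PPc X W T) b n)
    (ho : Oe Zc b v v') :
    ∃ s : Equiv.Perm (Pl K), Sy X W T Zc (up b v l) (up b v' l) s ∧ (∀ k, s (v k) = v' k) ∧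
      (∀ w ∈ H35.CF.sp Zc b, s w = w) ∧ ∀ k, v k ∈ H35.CF.sp Zc (up b v l) := by
  have hfr : ∀ v ∈ H35.CF.Fr Zc (PPc X W T) b n, (∀ k, v k ∈ Zc ∧ PPc X W T (v k) ∧
      b (v k) = none) ∧ Function.Injective v := by
    intro v hv
    unfold H35.CF.Fr at hv
    rw [Finset.mem_filter, Fintype.mem_piFinset] at hv
    exact ⟨fun k => Finset.mem_filter.1 (hv.1 k), hv.2⟩
  obtain ⟨a1, a2⟩ := hfr v hv
  obtain ⟨b1, b2⟩ := hfr v' hv'
  obtain ⟨s, s1, s2, s3⟩ := ex_perm v v' a2 b2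
    -- the places in `T`
  have hT : ∀ w, ((∃ k, v k = w) ∨ ∃ k, v' k = w) → w ∈ Zc ∧ PPc X W T w ∧ b w = none := by
    rintro w (⟨k, rfl⟩ | ⟨k, rfl⟩)
    · exact a1 k
    · exact b1 k
  have hF : ∀ w, ¬(w ∈ Zc ∧ PPc X W T w ∧ b w = none) → s w = w := by
    intro w hw
    refine s2 w (fun k hk => hw (hT w (Or.inl ⟨k, hk⟩))) fun k hk => hw (hT w (Or.inr ⟨k, hk⟩))
  have hup : ∀ w, up b v' l (s w) = up b v l w := by
    intro w
    by_cases h1 : ∃ k, v k = w
    · obtain ⟨k, rfl⟩ := h1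
      rw [s1, up_of b v' l b2 k, up_of b v l a2 k]
    · push Not at h1
      have h2 : ∀ k, v' k ≠ s w := fun k hk => h1 k (s.injective ((s1 k).trans hk))
      rw [up_ne b v' l _ h2, up_ne b v l _ h1]
      by_cases h3 : ∃ k, v' k = w
      · have h4 := hT w (Or.inr h3)
        have h5 := hT (s w) (s3 w (Or.inr h3))
        rw [h4.2.2, h5.2.2]
      · push Not at h3
        rw [s2 w h1 h3]
  have hsz : ∀ w, (s w ∈ Zc ↔ w ∈ Zc) := by
    intro w
    by_cases h1 : (∃ k, v k = w) ∨ ∃ k, v' k = w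
    · exact iff_of_true (hT _ (s3 w h1)).1 (hT w h1).1
    · push Not at h1
      rw [s2 w h1.1 h1.2]
  have hsp : ∀ w, w ∈ H35.CF.sp Zc (up b v l) → (∃ k, v k = w) ∨ w ∈ H35.CF.sp Zc b := by
    intro w hw
    by_cases h1 : ∃ k, v k = w
    · exact Or.inl h1
    · push Not at h1
      rw [mem_sp, up_ne b v l _ h1] at hw
      exact Or.inr (mem_sp.2 hw)
  have hspb : ∀ w ∈ H35.CF.sp Zc b, s w = w := fun w hw =>
    hF w fun h1 => (mem_sp.1 hw).2 h1.2.2
  have hEf : ∀ w ∈ X.E, s w = w := fun w hw =>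
    hF w fun h1 => Finset.disjoint_left.1 hZE h1.1 hw
  have hSf : ∀ w ∈ D.S0, s w = w := fun w hw => hF w fun h1 => hZs w (hZc h1.1) hw
  have hpp : ∀ k, T < (nm (v k) : ℝ) ∧ T < (nm (v' k) : ℝ) := fun k =>
    ⟨(a1 k).2.1.1, (b1 k).2.1.1⟩
  have hsy : Sy X W T Zc (up b v l) (up b v' l) s :=
    { f := hup
      z := hsz
      e := hEf
      s0 := hSf
      n := by
        intro w hw h1
        rcases hsp w hw with ⟨k, rfl⟩ | h2
        · exact absurd (a1 k).2.1 h1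
        · exact hspb w h2
      p := by
        intro w hw
        rcases hsp w hw with ⟨k, rfl⟩ | h2
        · rw [s1]
          exact iff_of_true (b1 k).2.1 (a1 k).2.1
        · rw [hspb w h2]
      l := by
        refine list_eq W.l hnd (fun w => w ∈ H35.CF.sp Zc (up b v l) ∨ w ∈ X.E ∨ w ∈ D.S0)
          (fun w => w ∈ H35.CF.sp Zc (up b v' l) ∨ w ∈ X.E ∨ w ∈ D.S0) s ?_ ?_ _ hsrt ?_
        · intro w
          refine or_congr ?_ (or_congr ?_ ?_)
          · rw [mem_sp, mem_sp, hsz, hup]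
          · constructor
            · intro h1
              have h2 := s.injective (hEf _ h1)
              rwa [h2] at h1
            · intro h1
              rw [hEf w h1]
              exact h1
          · constructor
            · intro h1
              have h2 := s.injective (hSf _ h1)
              rwa [h2] at h1
            · intro h1
              rw [hSf w h1]
              exact h1
        · rintro w (h1 | h1 | h1)
          · have h2 := (mem_sp.1 h1).1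
            exact iff_of_true ((hlz _).2 (Or.inl (hZc ((hsz w).2 h2)))) ((hlz _).2 (Or.inl (hZc h2)))
          · rw [hEf w h1]
          · rw [hSf w h1]
        · intro x hx y hy px py hne hxy
          -- the cases
          have cs : ∀ w, (w ∈ H35.CF.sp Zc (up b v l) ∨ w ∈ X.E ∨ w ∈ D.S0) →
              (∃ k, v k = w) ∨ (w ∈ H35.CF.sp Zc b ∨ w ∈ X.E) ∨ w ∈ D.S0 := by
            rintro w (h1 | h1 | h1)
            · rcases hsp w h1 with h2 | h2
              · exact Or.inl h2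
              · exact Or.inr (Or.inl (Or.inl h2))
            · exact Or.inr (Or.inl (Or.inr h1))
            · exact Or.inr (Or.inr h1)
          have fixw : ∀ w, (w ∈ H35.CF.sp Zc b ∨ w ∈ X.E) → s w = w := by
            rintro w (h1 | h1)
            · exact hspb w h1
            · exact hEf w h1
          have inZ : ∀ w, (w ∈ H35.CF.sp Zc b ∨ w ∈ X.E) → w ∈ W.Z := by
            rintro w (h1 | h1)
            · exact hZc (mem_sp.1 h1).1
            · exact hE h1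
          rcases cs y py with ⟨j, rfl⟩ | h1 | h1
          · -- `y = v j`
            obtain ⟨h2, h3⟩ := hxy (hZc (a1 j).1)
            rcases cs x px with ⟨i, rfl⟩ | h4 | h4
            · right
              intro h5
              rw [s1, s1] at h5
              have h6 := (h5 (hZc (b1 i).1)).2
              have hij : i ≠ j := fun h => hne (by rw [h])
              rcases ho.2 i j hij with h7 | h7
              · omega
              · omega
            · right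
              intro h5
              rw [s1, fixw x h4] at h5
              have h6 := (h5 h2).2
              rcases h4 with h4 | h4
              · rcases ho.1 j x h4 with h7 | h7
                · omega
                · omega
              · have h7 := hET x h4
                have h8 := (hpp j).2
                have h9 : (nm (v' j) : ℝ) ≤ nm x := by exact_mod_cast h6
                linarith
            · exact absurd h4 (hZs x h2)
          · -- `y` is fixed and in `Z`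
            obtain ⟨h2, h3⟩ := hxy (inZ y h1)
            rcases cs x px with ⟨i, rfl⟩ | h4 | h4
            · right
              intro h5
              rw [s1, fixw y h1] at h5
              have h6 := (h5 (hZc (b1 i).1)).2
              rcases h1 with h1 | h1
              · rcases ho.1 i y h1 with h7 | h7
                · omega
                · omega
              · have h7 := hET y h1
                have h8 := (hpp i).1
                have h9 : (nm (v i) : ℝ) ≤ nm y := by exact_mod_cast h3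
                linarith
            · exact Or.inl ⟨fixw x h4, fixw y h1⟩
            · exact absurd h4 (hZs x h2)
          · -- `y ∈ S0`
            rcases cs x px with ⟨i, rfl⟩ | h4 | h4
            · right
              intro h5
              rw [s1, hSf y h1] at h5
              exact hZs y (h5 (hZc (b1 i).1)).1 h1
            · exact Or.inl ⟨fixw x h4, hSf y h1⟩
            · exact Or.inl ⟨hSf x h4, hSf y h1⟩
      ze := hZE }
  exact ⟨s, hsy, s1, hspb, fun k => by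
    rw [mem_sp, up_of b v l a2 k]
    exact ⟨(a1 k).1, Option.some_ne_none _⟩⟩

end H62.OW
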